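import Pool.Agent.S5.G.Nd2

/-!
# Nodes in closed form: nodes with four half twists
-/

set_option autoImplicit false

namespace Pool.Agent.S5.G

open Complex Pool.Agent.H63.VC3 Pool.Agent.H63.VC5 Pool.Agent.H63.GV Pool.Agent.S3
open Pool.Agent.S3.G (arg_up arg_quad pi_ne fe_lim_zero)
open Filter Topology
open scoped ComplexConjugate

theorem ff_half : ff (1 / 2) = 0 := by
  have h := ff_reflect (1 / 2)
  rw [show (1 - 1 / 2 : ℂ) = 1 / 2 by norm_num] at h
  linear_combination h / 2

theorem fe_tendsto {u : ℝ → ℂ} {w : ℂ} (h : Tendsto u (𝓝[>] 0) (𝓝 w)) (h0 : 0 < w.re)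
    (h1 : w.re < 1) : Tendsto (fun t => fe (u t)) (𝓝[>] 0) (𝓝 (ff w)) := by
  have h2 := (fe_hasDerivAt (Or.inr ⟨h0, h1⟩)).continuousAt.tendsto.comp h
  rwa [fe_eq_ff h0 h1] at h2

/-- The step: `2 A - B - C` is in `(0, π)` modulo `2 π`. -/
theorem step_sin {l1 lm l3 L : ℂ} (h : exp l1 ^ 2 - exp lm * exp l3 = -exp L ^ 2)
    (hre : 0 < (exp l1 * conj (exp L)).re) (him : 0 < (exp l1 * conj (exp L)).im) :
    0 < Real.sin (2 * l1.im - lm.im - l3.im) := by
  have e0 : exp l1 * conj (exp L) = ((Real.exp (l1.re + L.re) : ℝ) : ℂ) *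
      exp (((l1.im - L.im : ℝ) : ℂ) * I) := by
    rw [← exp_conj, ← exp_add, ofReal_exp, ← exp_add]
    congr 1
    apply Complex.ext <;> simp
    ring
  rw [e0, re_ofReal_mul, exp_ofReal_mul_I_re] at hre
  rw [e0, im_ofReal_mul, exp_ofReal_mul_I_im] at him
  have hE := Real.exp_pos (l1.re + L.re)
  have hc : 0 < Real.cos (l1.im - L.im) := (pos_iff_pos_of_mul_pos hre).1 hE
  have hs : 0 < Real.sin (l1.im - L.im) := (pos_iff_pos_of_mul_pos him).1 hE
  have e1 : exp (lm + l3 - 2 * l1) = 1 + exp (2 * (L - l1)) := by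
    have h1 : exp (2 * (L - l1)) = exp L ^ 2 / exp l1 ^ 2 := by
      rw [show 2 * (L - l1) = (2 : ℕ) * L - (2 : ℕ) * l1 by push_cast; ring, exp_sub, exp_nat_mul,
        exp_nat_mul]
    have h2 : exp (lm + l3 - 2 * l1) = exp lm * exp l3 / exp l1 ^ 2 := by
      rw [show lm + l3 - 2 * l1 = lm + l3 - (2 : ℕ) * l1 by push_cast; ring, exp_sub, exp_nat_mul,
        exp_add]
    have h3 := exp_ne_zero l1
    rw [h1, h2]
    field_simp
    linear_combination -h
  have e2 := congrArg Complex.im e1
  rw [exp_im, add_im, one_im, zero_add, exp_im] at e2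
  have i1 : (2 * (L - l1)).im = -(2 * (l1.im - L.im)) := by
    simp
    ring
  have i2 : (lm + l3 - 2 * l1).im = -(2 * l1.im - lm.im - l3.im) := by
    simp
    ring
  rw [i1, i2, Real.sin_neg, Real.sin_neg, Real.sin_two_mul] at e2
  have k1 := Real.exp_pos (lm + l3 - 2 * l1).re
  have k2 := Real.exp_pos (2 * (L - l1)).re
  have k3 : 0 < Real.exp (lm + l3 - 2 * l1).re * Real.sin (2 * l1.im - lm.im - l3.im) := by
    have := mul_pos k2 (mul_pos hs hc)
    linarith only [this, e2]
  exact (pos_iff_pos_of_mul_pos k3).1 k1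

/-- The domain for four half twists. -/
structure O4 (p r : ℂ) : Prop where
  p0 : 0 < p.re
  r0 : 0 < r.re
  s0 : 0 ≤ p.im + r.im
  pe : 5 * p.im + r.im < Real.pi ∨
    (5 * p.im + r.im < Real.pi + 1 / 5 ∧ -p.im ≤ 6 * r.im ∧ p.im ≤ 2 * p.re)
  re : 5 * r.im + p.im < Real.pi ∨
    (5 * r.im + p.im < Real.pi + 1 / 5 ∧ -r.im ≤ 6 * p.im ∧ r.im ≤ 2 * r.re)
  pn : p.im < 0 → r.re ≤ 3 * p.re ∧ r.im - p.im ≤ Real.pi / 2
  rn : r.im < 0 → p.re ≤ 3 * r.re ∧ p.im - r.im ≤ Real.pi / 2

theorem O4.symm {p r : ℂ} (h : O4 p r) : O4 r p := by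
  obtain ⟨a1, a2, a3, a4, a5, a6, a7⟩ := h
  exact ⟨a2, a1, by linarith only [a3], a5, a4, a7, a6⟩

theorem O4.smul_aux {P a b t : ℝ} (h : 5 * a + b < Real.pi ∨
    (5 * a + b < Real.pi + 1 / 5 ∧ -a ≤ 6 * b ∧ a ≤ 2 * P)) (h0 : 0 < t) (h1 : t ≤ 1) :
    5 * (t * a) + t * b < Real.pi ∨
    (5 * (t * a) + t * b < Real.pi + 1 / 5 ∧ -(t * a) ≤ 6 * (t * b) ∧ t * a ≤ 2 * (t * P)) := by
  have hpi := Real.pi_pos
  rcases h with h | ⟨h, h', h''⟩
  · left
    rcases le_total (5 * a + b) 0 with h | h
    · linarith only [hpi, mul_nonneg (sub_nonneg.2 h0.le) (sub_nonneg.2 h)]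
    · nlinarith
  · right
    refine ⟨?_, by linarith only [mul_nonneg (sub_nonneg.2 h0.le) (sub_nonneg.2 h')], by linarith only [mul_nonneg (sub_nonneg.2 h0.le) (sub_nonneg.2 h'')]⟩
    rcases le_total (5 * a + b) 0 with h | h
    · linarith only [hpi, mul_nonneg (sub_nonneg.2 h0.le) (sub_nonneg.2 h)]
    · nlinarith

theorem O4.smul {p r : ℂ} (h : O4 p r) {t : ℝ} (h0 : 0 < t) (h1 : t ≤ 1) :
    O4 (t * p) (t * r) := by
  have hpi := Real.pi_pos
  obtain ⟨a1, a2, a3, a4, a5, a6, a7⟩ := h
  constructor
  · rw [re_ofReal_mul]; positivity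
  · rw [re_ofReal_mul]; positivity
  · rw [im_ofReal_mul, im_ofReal_mul]; linarith only [mul_nonneg (sub_nonneg.2 h0.le) (sub_nonneg.2 a3)]
  · rw [im_ofReal_mul, im_ofReal_mul, re_ofReal_mul]
    exact O4.smul_aux a4 h0 h1
  · rw [im_ofReal_mul, im_ofReal_mul, re_ofReal_mul]
    exact O4.smul_aux a5 h0 h1
  · intro h
    rw [im_ofReal_mul] at h
    have h2 : p.im < 0 := by
      by_contra hc
      push Not at hc
      linarith only [h, mul_nonneg (sub_nonneg.2 h0.le) (sub_nonneg.2 hc)]
    obtain ⟨b1, b2⟩ := a6 h2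
    rw [im_ofReal_mul, im_ofReal_mul, re_ofReal_mul, re_ofReal_mul]
    constructor
    · linarith only [mul_nonneg (sub_nonneg.2 h0.le) (sub_nonneg.2 b1)]
    · rcases le_total (r.im - p.im) 0 with h | h
      · linarith only [h, h2, a3]
      · linarith only [mul_nonneg (sub_nonneg.2 h1) (sub_nonneg.2 hpi.le),
          mul_nonneg (sub_nonneg.2 h0.le) (sub_nonneg.2 b2)]
  · intro h
    rw [im_ofReal_mul] at h
    have h2 : r.im < 0 := by
      by_contra hc
      push Not at hc
      linarith only [h, mul_nonneg (sub_nonneg.2 h0.le) (sub_nonneg.2 hc)]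
    obtain ⟨b1, b2⟩ := a7 h2
    rw [im_ofReal_mul, im_ofReal_mul, re_ofReal_mul, re_ofReal_mul]
    constructor
    · linarith only [mul_nonneg (sub_nonneg.2 h0.le) (sub_nonneg.2 b1)]
    · rcases le_total (p.im - r.im) 0 with h | h
      · linarith only [h, h2, a3]
      · linarith only [mul_nonneg (sub_nonneg.2 h1) (sub_nonneg.2 hpi.le),
          mul_nonneg (sub_nonneg.2 h0.le) (sub_nonneg.2 b2)]

theorem O4.zre {p r z : ℂ} (hz : 4 * z = Real.pi + I * (p + r)) :
    4 * z.re = Real.pi - p.im - r.im ∧ 4 * z.im = p.re + r.re := by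
  constructor
  · have := congrArg Complex.re hz
    simp at this
    linarith only [this]
  · have := congrArg Complex.im hz
    simpa using this

theorem O4.w {p r : ℂ} (h : O4 p r) : 5 * p.im + r.im < Real.pi + 1 / 5 := by
  rcases h.pe with h | h
  · linarith only [h]
  · exact h.1

theorem O4.b {p r : ℂ} (h : O4 p r) : -(Real.pi / 4) < p.im ∧ p.im < Real.pi / 4 ∧
    3 * r.im - p.im < Real.pi := by
  obtain ⟨a1, a2, a3, a4, a5, a6, a7⟩ := h
  have hpi := Real.pi_gt_three
  have k : ∀ {a b P : ℝ}, 0 ≤ a + b → (5 * a + b < Real.pi ∨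
      (5 * a + b < Real.pi + 1 / 5 ∧ -a ≤ 6 * b ∧ a ≤ 2 * P)) → a < Real.pi / 4 := by
    intro a b P h1 h2
    rcases h2 with h2 | ⟨h2, h3, -⟩
    · linarith only [h2, h1]
    · linarith only [h3, h2, hpi]
  have k1 := k a3 a4
  have k2 := k (by linarith only [a3]) a5
  refine ⟨by linarith only [k2, a3], k1, ?_⟩
  rcases le_total 0 p.im with h | h
  · linarith only [k2, a3]
  · rcases a5 with h5 | h5
    · linarith only [k2, a3]
    · linarith only [k2, a3]

theorem O4.slot {p r z : ℂ} (h : O4 p r) (hz : 4 * z = Real.pi + I * (p + r)) : Slot p z := by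
  have hpi := Real.pi_pos
  obtain ⟨zr, zi⟩ := O4.zre hz
  obtain ⟨b1, b2, b3⟩ := h.b
  obtain ⟨c1, c2, c3⟩ := h.symm.b
  obtain ⟨a1, a2, a3, a4, a5, a6, a7⟩ := h
  refine ⟨by linarith only [b3, b2, zr, hpi], by linarith only [c1, b1, zr, hpi], by linarith only [a2,
                                                                                       a1, zi], up_of (by linarith only [b3,
                                                                                                            b1,
                                                                                                            zr]) (by linarith only [c1,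
                                                                                                                       b2,
                                                                                                                       zr,
                                                                                                                       hpi]),
    rt_of (by linarith only [a2, a1, zi]) (by linarith only [a3, b1, zr]) (by linarith only [b3, b2,
                                                                                zr, hpi]), Or.inr ?_⟩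
  rw [yp_eq]
  have hs : 0 < Real.sin (2 * z.re) := Real.sin_pos_of_pos_of_lt_pi (by linarith only [b3, b2, zr,
                                                                          hpi]) (by linarith only [c1,
                                                                                      b1, zr, hpi])
  have k1 : 0 < Real.sinh (2 * p.re) := Real.sinh_pos_iff.2 (by linarith only [a1])
  have k2 : 0 < Real.sinh (2 * z.im) := Real.sinh_pos_iff.2 (by linarith only [a2, a1, zi])
  rcases le_or_gt 0 p.im with hp | hp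
  · have k3 : 0 ≤ Real.sin (2 * p.im) :=
      Real.sin_nonneg_of_nonneg_of_le_pi (by linarith only [hp]) (by linarith only [b2, hpi])
    have := mul_pos k1 hs
    have := mul_nonneg k2.le k3
    linarith [this]
  · obtain ⟨d1, d2⟩ := a6 hp
    have k4 : Real.sinh (2 * z.im) ≤ Real.sinh (2 * p.re) := Real.sinh_le_sinh.2 (by linarith only [d1,
                                                                                       zi])
    have k5 : Real.sin (2 * (-p.im)) < Real.sin (2 * z.re) :=
      Real.sin_lt_sin_of_lt_of_le_pi_div_two (by linarith only [b2]) (by linarith only [a3, zr]) (by linarith only [b3,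
                                                                                                       b1,
                                                                                                       zr])
    have k6 : 0 < Real.sin (2 * (-p.im)) :=
      Real.sin_pos_of_pos_of_lt_pi (by linarith only [hp]) (by linarith only [b1, hpi])
    have e : Real.sin (2 * p.im) = -Real.sin (2 * (-p.im)) := by
      rw [← Real.sin_neg]
      congr 1
      ring
    rw [e]
    have k7 : Real.sinh (2 * z.im) * Real.sin (2 * (-p.im)) <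
        Real.sinh (2 * p.re) * Real.sin (2 * z.re) :=
      mul_lt_mul' k4 k5 k6.le k1
    linarith only [k7]

/-- The real part of `y - v` is positive. -/
theorem ymv_pos {q z : ℂ} (h : Slot q z)
    (hc : Real.exp (-(2 * q.re)) * (Real.sin (2 * z.re) * Real.cos (2 * z.re)) <
      Real.cosh (2 * z.im) * (Real.sin (2 * z.re) * Real.cos (2 * q.im)) +
        Real.sinh (2 * z.im) * (Real.cos (2 * z.re) * Real.sin (2 * q.im))) :
    0 < (sy q z - z / Real.pi).re := by
  have hpi := Real.pi_pos
  have hz0 := h.z0
  have hz1 := h.z1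
  have a := h.AB
  have e1 : 2 * Real.pi * (sy q z - z / Real.pi).re =
      (lA q z).im - (lB q z).im - 2 * z.re := by
    have h4 : 2 * Real.pi * I * (sy q z - z / Real.pi) = lA q z - lB q z - 2 * (I * z) := by
      linear_combination sy_mul q z - 2 * v_mul z
    have h5 := congrArg Complex.im h4
    rw [two_pi_I_mul_im, sub_im, sub_im] at h5
    have h6 : (2 * (I * z)).im = 2 * z.re := by simp
    rw [h6] at h5
    exact h5
  have e2 : exp (lA q z) * conj (exp (lB q z)) * exp (-(2 * z.re * I)) =
      ((Real.exp ((lA q z).re + (lB q z).re) : ℝ) : ℂ) *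
        exp ((((lA q z).im - (lB q z).im - 2 * z.re : ℝ) : ℂ) * I) := by
    rw [← exp_conj, ← exp_add, ← exp_add, ofReal_exp, ← exp_add]
    congr 1
    apply Complex.ext <;> simp
    ring
  have e3 : (exp (lA q z) * conj (exp (lB q z)) * exp (-(2 * z.re * I))).im =
      (Real.cosh (2 * z.im) * (Real.sin (2 * z.re) * Real.cos (2 * q.im)) +
        Real.sinh (2 * z.im) * (Real.cos (2 * z.re) * Real.sin (2 * q.im)) -
          Real.exp (-(2 * q.re)) * (Real.sin (2 * z.re) * Real.cos (2 * z.re))) / 2 := by
    rw [h.eA, h.eB, sinh_mul_conj]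
    have f1 : q + I * z + conj (q - I * z) = ((2 * q.re : ℝ) : ℂ) + ((2 * z.re : ℝ) : ℂ) * I := by
      apply Complex.ext <;> simp <;> ring
    have f2 : q + I * z - conj (q - I * z) =
        ((-(2 * z.im) : ℝ) : ℂ) + ((2 * q.im : ℝ) : ℂ) * I := by
      apply Complex.ext <;> simp <;> ring
    have f3 : exp (-(2 * z.re * I)) = ((Real.cos (2 * z.re) : ℝ) : ℂ) -
        ((Real.sin (2 * z.re) : ℝ) : ℂ) * I := by
      rw [show -(2 * z.re * I : ℂ) = ((-(2 * z.re) : ℝ) : ℂ) * I by push_cast; ring,
        exp_mul_I, ← ofReal_cos, ← ofReal_sin, Real.cos_neg, Real.sin_neg]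
      push_cast
      ring
    rw [f1, f2, f3]
    set X := cosh (((2 * q.re : ℝ) : ℂ) + ((2 * z.re : ℝ) : ℂ) * I) with hX
    set Y := cosh (((-(2 * z.im) : ℝ) : ℂ) + ((2 * q.im : ℝ) : ℂ) * I) with hY
    have x1 : X.re = Real.cosh (2 * q.re) * Real.cos (2 * z.re) := by
      rw [hX, cosh_re]; simp
    have x2 : X.im = Real.sinh (2 * q.re) * Real.sin (2 * z.re) := by
      rw [hX, cosh_im]; simp
    have y1 : Y.re = Real.cosh (2 * z.im) * Real.cos (2 * q.im) := by
      rw [hY, cosh_re]; simp
    have y2 : Y.im = -(Real.sinh (2 * z.im) * Real.sin (2 * q.im)) := by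
      rw [hY, cosh_im]; simp
    have g : ((X - Y) / 2 * (((Real.cos (2 * z.re) : ℝ) : ℂ) -
        ((Real.sin (2 * z.re) : ℝ) : ℂ) * I)).im =
        ((X.im - Y.im) * Real.cos (2 * z.re) - (X.re - Y.re) * Real.sin (2 * z.re)) / 2 := by
      rw [mul_im, half_re, half_im, sub_re, sub_im]
      simp [-ofReal_cos, -ofReal_sin]
      ring
    rw [g, x1, x2, y1, y2]
    have c1 : Real.exp (-(2 * q.re)) = Real.cosh (2 * q.re) - Real.sinh (2 * q.re) :=
      (Real.cosh_sub_sinh _).symm
    rw [c1]
    ring
  rw [e2, im_ofReal_mul, exp_ofReal_mul_I_im] at e3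
  have h5 : 0 < Real.exp ((lA q z).re + (lB q z).re) *
      Real.sin ((lA q z).im - (lB q z).im - 2 * z.re) := by
    rw [e3]
    linarith only [hc]
  have h6 := (pos_iff_pos_of_mul_pos h5).1 (Real.exp_pos _)
  have h7 := sin_pos_range h6 (by linarith only [a.1, hz1]) (by linarith only [a.2, hz1, hz0])
  by_contra hcon
  push Not at hcon
  linarith only [h7.1, e1, mul_nonneg (sub_nonneg.2 hpi.le) (sub_nonneg.2 hcon)]

/-- the second case of `O4.pe`: `p.im` is slightly larger than `z.re` -/
theorem O4.big {p r z : ℂ} (h : O4 p r) (hz : 4 * z = Real.pi + I * (p + r))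
    (hx : z.re ≤ p.im) : p.im ≤ z.re + 1 / 20 ∧ -p.im ≤ 6 * r.im ∧ 1 / 4 ≤ p.re ∧
      1 / 2 ≤ z.re ∧ 2 * z.re ≤ Real.pi / 2 - 27 / 100 := by
  have hpi := Real.pi_gt_d2
  have hpi' := Real.pi_lt_d2
  obtain ⟨zr, zi⟩ := O4.zre hz
  have w := h.symm.w
  rcases h.pe with h1 | ⟨h1, h2, h3⟩
  · exfalso
    linarith only [h1, zr, hx]
  · have k1 : 1 / 2 ≤ z.re := by linarith only [h1, w, zr, hpi', hpi]
    exact ⟨by linarith only [h1, zr], h2, by linarith only [h3, w, zr, hpi', hpi, hx], k1, by linarith only [h2,
                                                                                                zr,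
                                                                                                hpi',
                                                                                                hpi,
                                                                                                hx]⟩

theorem exp_neg_half_lt {x : ℝ} (h : 1 / 4 ≤ x) : Real.exp (-(2 * x)) < 61 / 100 := by
  have h1 : Real.exp (-(2 * x)) ≤ Real.exp (-(1 / 2)) := Real.exp_le_exp.2 (by linarith only [h])
  have h2 : Real.exp (-(1 / 2)) * Real.exp (-(1 / 2)) = (Real.exp 1)⁻¹ := by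
    rw [← Real.exp_add, ← Real.exp_neg]
    norm_num
  have h3 : (Real.exp 1)⁻¹ < 3721 / 10000 := by
    rw [inv_lt_comm₀ (Real.exp_pos 1) (by norm_num)]
    exact lt_trans (by norm_num) Real.exp_one_gt_d9
  have h4 := Real.exp_pos (-(1 / 2))
  (refine lt_of_not_ge fun hng => ?_; linarith only [hng, h3, h2, h1,
    mul_nonneg (sub_nonneg.2 h1) (sub_nonneg.2 h1), mul_nonneg (sub_nonneg.2 hng) (sub_nonneg.2 h1),
    mul_nonneg (sub_nonneg.2 hng) (sub_nonneg.2 hng)])

theorem O4.ymv {p r z : ℂ} (h : O4 p r) (hz : 4 * z = Real.pi + I * (p + r)) :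
    0 < (sy p z - z / Real.pi).re := by
  have hpi := Real.pi_pos
  have hs := h.slot hz
  obtain ⟨zr, zi⟩ := O4.zre hz
  obtain ⟨b1, b2, b3⟩ := h.b
  obtain ⟨c1, c2, c3⟩ := h.symm.b
  have hO := h
  obtain ⟨a1, a2, a3, a4, a5, a6, a7⟩ := h
  have k1 : 0 < Real.sin (2 * z.re) := Real.sin_pos_of_pos_of_lt_pi (by linarith only [b3, b2, zr,
                                                                          hpi]) (by linarith only [c1,
                                                                                      b1, zr, hpi])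
  have k2 : 0 < Real.sinh (2 * z.im) := Real.sinh_pos_iff.2 (by linarith only [a2, a1, zi])
  have k3 := Real.one_le_cosh (2 * z.im)
  have k4 : 0 ≤ Real.cos (2 * z.re) :=
    Real.cos_nonneg_of_neg_pi_div_two_le_of_le (by linarith only [b3, b2, zr, hpi]) (by linarith only [a3,
                                                                                          zr])
  have k5 : Real.exp (-(2 * p.re)) < 1 := Real.exp_lt_one_iff.2 (by linarith only [a1])
  have k6 := Real.exp_pos (-(2 * p.re))
  apply ymv_pos hs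
  rcases le_or_gt 0 p.im with hp | hp
  · have k7 : 0 ≤ Real.sin (2 * p.im) :=
      Real.sin_nonneg_of_nonneg_of_le_pi (by linarith only [hp]) (by linarith only [b2, hpi])
    rcases le_or_gt z.re p.im with hx | hx
    · obtain ⟨g1, g2, g3, g4, g5⟩ := hO.big hz hx
      have u1 := exp_neg_half_lt g3
      have u2 : 26 / 100 ≤ Real.cos (2 * z.re) := by
        rw [← Real.sin_pi_div_two_sub]
        have v1 : Real.sin (27 / 100) ≤ Real.sin (Real.pi / 2 - 2 * z.re) :=
          Real.sin_le_sin_of_le_of_le_pi_div_two (by linarith only [hpi]) (by linarith only [b3, b2,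
                                                                                zr, hpi]) (by linarith only [g5])
        have v2 := Real.sin_gt_sub_cube (x := 27 / 100) (by norm_num)
        norm_num at v2
        linarith only [v2, v1, k6, k5]
      have u3 : Real.cos (2 * z.re + 1 / 10) ≤ Real.cos (2 * p.im) :=
        Real.cos_le_cos_of_nonneg_of_le_pi (by linarith only [hp]) (by linarith only [g4, hx, c2,
                                                                         b2, zr]) (by linarith only [g1])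
      have u4 : 995 / 1000 ≤ Real.cos (1 / 10) := by
        have := Real.one_sub_sq_div_two_le_cos (x := 1 / 10)
        norm_num at this
        linarith only [this]
      have u5 : Real.sin (1 / 10) ≤ 1 / 10 := Real.sin_le (by norm_num)
      rw [Real.cos_add] at u3
      have u6 := Real.sin_le_one (2 * z.re)
      have u7 : 61 / 100 * Real.cos (2 * z.re) ≤ Real.cos (2 * p.im) := by
        have w1 := mul_le_mul_of_nonneg_left u4 k4
        have w0 : 0 ≤ Real.sin (1 / 10) :=
          Real.sin_nonneg_of_nonneg_of_le_pi (by norm_num) (by linarith only [g4, hx, c2, b2, zr])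
        have w2 : Real.sin (2 * z.re) * Real.sin (1 / 10) ≤ 1 * (1 / 10) :=
          mul_le_mul u6 u5 w0 zero_le_one
        linarith only [w2, w1, u3, u2, k6, k5]
      have u8 : 0 < Real.sin (2 * z.re) * Real.cos (2 * z.re) := mul_pos k1 (by linarith only [u2,
                                                                                  k6, k5])
      have m1 := mul_lt_mul_of_pos_right u1 u8
      have m2 : 61 / 100 * (Real.sin (2 * z.re) * Real.cos (2 * z.re)) ≤
          Real.sin (2 * z.re) * Real.cos (2 * p.im) := by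
        have := mul_le_mul_of_nonneg_left u7 k1.le
        linarith only [this]
      have m3 : 1 * (Real.sin (2 * z.re) * Real.cos (2 * p.im)) ≤
          Real.cosh (2 * z.im) * (Real.sin (2 * z.re) * Real.cos (2 * p.im)) :=
        mul_le_mul_of_nonneg_right k3 (by linarith only [m2, u8])
      have m4 : 0 ≤ Real.sinh (2 * z.im) * (Real.cos (2 * z.re) * Real.sin (2 * p.im)) :=
        mul_nonneg k2.le (mul_nonneg k4 k7)
      linarith only [m4, m3, m2, m1]
    have k8 : Real.cos (2 * z.re) < Real.cos (2 * p.im) :=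
      Real.cos_lt_cos_of_nonneg_of_le_pi (by linarith only [hp]) (by linarith only [c1, b1, zr, hpi]) (by linarith only [hx])
    have k9 : 0 < Real.cos (2 * p.im) := lt_of_le_of_lt k4 k8
    have m1 : Real.exp (-(2 * p.re)) * (Real.sin (2 * z.re) * Real.cos (2 * z.re)) ≤
        1 * (Real.sin (2 * z.re) * Real.cos (2 * z.re)) :=
      mul_le_mul_of_nonneg_right k5.le (mul_nonneg k1.le k4)
    have m2 : Real.sin (2 * z.re) * Real.cos (2 * z.re) <
        Real.sin (2 * z.re) * Real.cos (2 * p.im) := mul_lt_mul_of_pos_left k8 k1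
    have m3 : 1 * (Real.sin (2 * z.re) * Real.cos (2 * p.im)) ≤
        Real.cosh (2 * z.im) * (Real.sin (2 * z.re) * Real.cos (2 * p.im)) :=
      mul_le_mul_of_nonneg_right k3 (mul_pos k1 k9).le
    have m4 : 0 ≤ Real.sinh (2 * z.im) * (Real.cos (2 * z.re) * Real.sin (2 * p.im)) :=
      mul_nonneg k2.le (mul_nonneg k4 k7)
    linarith only [m4, m3, m2, m1]
  · obtain ⟨d1, d2⟩ := a6 hp
    have hcs : Real.sinh (2 * z.im) < Real.cosh (2 * z.im) := Real.sinh_lt_cosh _
    have k7 : Real.sin (2 * p.im) < 0 := by
      apply Real.sin_neg_of_neg_of_neg_pi_lt <;> linarith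
    have m1 : Real.exp (-(2 * p.re)) * (Real.sin (2 * z.re) * Real.cos (2 * z.re)) ≤
        1 * (Real.sin (2 * z.re) * Real.cos (2 * z.re)) :=
      mul_le_mul_of_nonneg_right k5.le (mul_nonneg k1.le k4)
    have m2 : Real.cosh (2 * z.im) * (Real.cos (2 * z.re) * Real.sin (2 * p.im)) ≤
        Real.sinh (2 * z.im) * (Real.cos (2 * z.re) * Real.sin (2 * p.im)) :=
      mul_le_mul_of_nonpos_right hcs.le (mul_nonpos_of_nonneg_of_nonpos k4 k7.le)
    have m3 : Real.sin (2 * z.re) * Real.cos (2 * p.im) +
        Real.cos (2 * z.re) * Real.sin (2 * p.im) = Real.sin (2 * z.re + 2 * p.im) := by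
      rw [Real.sin_add]
    have m4 : 0 < Real.sin (2 * z.re + 2 * p.im) :=
      Real.sin_pos_of_pos_of_lt_pi (by linarith only [b3, b1, zr]) (by linarith only [c1, b2, zr])
    have m5 : Real.sin (2 * z.re + 2 * p.im) ≤
        Real.cosh (2 * z.im) * Real.sin (2 * z.re + 2 * p.im) := le_mul_of_one_le_left m4.le k3
    have m6 : Real.cos (2 * z.re) ≤ Real.sin (2 * z.re + 2 * p.im) := by
      rw [← Real.cos_pi_div_two_sub (2 * z.re + 2 * p.im)]
      exact Real.cos_le_cos_of_nonneg_of_le_pi (by linarith only [hp, a3, zr]) (by linarith only [c1,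
                                                                                     b1, zr, hpi]) (by linarith only [b3,
                                                                                                         b1,
                                                                                                         zr])
    have m8 : Real.sin (2 * z.re) * Real.cos (2 * z.re) < Real.sin (2 * z.re + 2 * p.im) := by
      rcases k4.eq_or_lt with h0 | h0
      · rw [← h0, mul_zero]
        exact m4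
      · have : Real.sin (2 * z.re) < 1 := by
          have s1 := Real.sin_sq_add_cos_sq (2 * z.re)
          by_contra hcon
          push Not at hcon
          have s2 := one_le_pow₀ (n := 2) hcon
          have s3 := pow_pos h0 2
          linarith only [s3, s2, s1]
        have := mul_lt_mul_of_pos_right this h0
        linarith only [this, m6]
    have m7 : Real.cosh (2 * z.im) * (Real.sin (2 * z.re) * Real.cos (2 * p.im)) +
        Real.cosh (2 * z.im) * (Real.cos (2 * z.re) * Real.sin (2 * p.im)) =
        Real.cosh (2 * z.im) * Real.sin (2 * z.re + 2 * p.im) := by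
      rw [← m3]
      ring
    linarith only [m7, m8, m5, m2, m1]

theorem O4.L2 {p r z : ℂ} (h : O4 p r) (hz : 4 * z = Real.pi + I * (p + r)) :
    0 ≤ (L2 z).im ∧ (L2 z).im < Real.pi / 2 := by
  have hpi := Real.pi_pos
  obtain ⟨zr, zi⟩ := O4.zre hz
  have hs := h.slot hz
  obtain ⟨b1, b2, b3⟩ := h.b
  obtain ⟨c1, c2, c3⟩ := h.symm.b
  obtain ⟨a1, a2, a3, a4, a5, a6, a7⟩ := h
  refine ⟨?_, (L2_im hs.z0 hs.z1).2⟩
  unfold G.L2
  rw [log_im, arg_nonneg_iff, sin_im]
  have e : (2 * z).re = 2 * z.re := by simp
  have e' : (2 * z).im = 2 * z.im := by simp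
  rw [e, e']
  exact mul_nonneg (Real.cos_nonneg_of_neg_pi_div_two_le_of_le (by linarith only [b3, b2, zr, hpi]) (by linarith only [a3,
                                                                                                          zr]))
    (Real.sinh_nonneg_iff.2 (by linarith only [a2, a1, zi]))

/-- The imaginary part of `S1 conj sin 2z` is positive. -/
theorem O4.him {p r z : ℂ} (h : O4 p r) (hz : 4 * z = Real.pi + I * (p + r)) :
    0 < (sinh (p + I * z) * conj (sin (2 * z))).im := by
  have hpi := Real.pi_pos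
  obtain ⟨zr, zi⟩ := O4.zre hz
  obtain ⟨b1, b2, b3⟩ := h.b
  obtain ⟨c1, c2, c3⟩ := h.symm.b
  obtain ⟨a1, a2, a3, a4, a5, a6, a7⟩ := h
  rw [S1_im, show p.im + 3 * z.re = Real.pi - (z.re + r.im) by linarith only [zr], Real.cos_pi_sub]
  have k1 : 0 < Real.cos (p.im - z.re) := Real.cos_pos_of_mem_Ioo ⟨by linarith only [a3, b1, zr], by linarith only [b3,
                                                                                                       b2,
                                                                                                       zr,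
                                                                                                       hpi]⟩
  have k2 : 0 < Real.cos (z.re + r.im) := Real.cos_pos_of_mem_Ioo ⟨by linarith only [c1, b2, zr,
                                                                        hpi], by linarith only [b3,
                                                                                   zr]⟩
  have := mul_pos (Real.cosh_pos (p.re - 3 * z.im)) k1
  have := mul_pos (Real.cosh_pos (p.re + z.im)) k2
  linarith [this]

theorem O4.hr {p r z : ℂ} (hz : 4 * z = Real.pi + I * (p + r)) :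
    sinh (r + I * z) = sinh (p + 3 * (I * z)) := by
  have hr' : r = Real.pi * I - 4 * (I * z) - p := by
    linear_combination I * hz + (p + r) * I_sq
  rw [show r + I * z = Real.pi * I - (p + 3 * (I * z)) by rw [hr']; ring, sinh_pi_sub]

/-- The range of the first gap. -/
theorem O4.gap {p r z : ℂ} (h : O4 p r) (hz : 4 * z = Real.pi + I * (p + r)) :
    0 < 2 * (lA p z).im - (lB p z).im - (lA r z).im ∧
      2 * (lA p z).im - (lB p z).im - (lA r z).im < 2 * Real.pi := by
  have hpi := Real.pi_pos
  have sp := h.slot hz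
  have hz' : 4 * z = Real.pi + I * (r + p) := by rw [hz]; ring
  have sr := h.symm.slot hz'
  have him := h.him hz
  have a1 := sp.AB
  have a2 := sp.A_im
  have a3 := sr.A_im
  refine ⟨?_, by linarith only [a3.1, a2.2, a1.2]⟩
  rcases lt_or_ge 0 (sinh (p + I * z) * conj (sin (2 * z))).re with h1 | h1
  · have hst : 0 < Real.sin (2 * (lA p z).im - (lB p z).im - (lA r z).im) := by
      apply step_sin (L := G.L2 z)
      · rw [sp.eA, sp.eB, sr.eA, exp_L2 sp.z0 sp.z1, O4.hr hz]
        exact sinh_step p z
      · rw [sp.eA, exp_L2 sp.z0 sp.z1]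
        exact h1
      · rw [sp.eA, exp_L2 sp.z0 sp.z1]
        exact him
    exact (sin_pos_range hst (by linarith only [a3.2, a2.1, a1.1])
      (by linarith only [a3.1, a2.2, a1.2])).1
  · obtain ⟨zr, zi⟩ := O4.zre hz
    obtain ⟨b1, b2, b3⟩ := h.b
    obtain ⟨c1, c2, c3⟩ := h.symm.b
    have hO := h
    obtain ⟨d1, d2, d3, d4, d5, d6, d7⟩ := h
    rw [S1_re, show p.im + 3 * z.re = Real.pi - (z.re + r.im) by linarith only [zr], Real.sin_pi_sub,
      show p.re - 3 * z.im = -(r.re - z.im) by linarith only [zi], Real.sinh_neg,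
      show p.im - z.re = -(z.re - p.im) by ring, Real.sin_neg] at h1
    have hx : p.im < z.re := by
      by_contra hc
      push Not at hc
      obtain ⟨g1, g2, g3, g4, g5⟩ := hO.big hz hc
      have u1 : 0 < Real.sinh (p.re + z.im) := Real.sinh_pos_iff.2 (by linarith only [d2, d1, zi])
      have u2 : -Real.sinh (p.re + z.im) ≤ Real.sinh (r.re - z.im) := by
        rw [← Real.sinh_neg]
        exact Real.sinh_le_sinh.2 (by linarith only [d2, d1])
      have u3 : Real.sin (p.im - z.re) < Real.sin (z.re + r.im) :=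
        Real.sin_lt_sin_of_lt_of_le_pi_div_two (by linarith only [d3, b1, zr]) (by linarith only [b3,
                                                                                     zr]) (by linarith only [c1,
                                                                                                b2,
                                                                                                zr])
      have u4 : 0 ≤ Real.sin (p.im - z.re) :=
        Real.sin_nonneg_of_nonneg_of_le_pi (by linarith only [hc]) (by linarith only [b3, b2, zr,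
                                                                         a2.2, a2.1])
      have u5 : Real.sin (z.re - p.im) = -Real.sin (p.im - z.re) := by
        rw [← Real.sin_neg]
        congr 1
        ring
      rw [u5] at h1
      have u6 := mul_le_mul_of_nonneg_right u2 u4
      have u7 := mul_lt_mul_of_pos_left u3 u1
      linarith only [u7, u6, h1]
    have k1 : 0 < Real.sin (z.re - p.im) :=
      Real.sin_pos_of_pos_of_lt_pi (by linarith only [hx]) (by linarith only [c1, b1, zr, a2.2,
                                                                 a2.1])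
    have k2 : Real.sin (z.re - p.im) ≤ Real.sin (z.re + r.im) :=
      Real.sin_le_sin_of_le_of_le_pi_div_two (by linarith only [b3, b2, zr, a2.2, a2.1]) (by linarith only [b3,
                                                                                               zr]) (by linarith only [d3])
    have k3 : 0 < Real.sinh (p.re + z.im) := Real.sinh_pos_iff.2 (by linarith only [d2, d1, zi])
    have k4 : Real.sinh (p.re + z.im) * Real.sin (z.re - p.im) ≤
        Real.sinh (r.re - z.im) * Real.sin (z.re - p.im) := by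
      have := mul_le_mul_of_nonneg_left k2 k3.le
      linarith only [this, h1]
    have k5 : p.re + z.im ≤ r.re - z.im := by
      have := le_of_mul_le_mul_right k4 k1
      exact Real.sinh_le_sinh.1 this
    -- now the argument of `S1` is at least `π / 2`, the one of `S3` is less
    have m1 : Real.pi / 2 ≤ (lA p z).im := by
      rw [lA_im_eq]
      have hu := sp.up
      have hre : (sinh (p + I * z)).re ≤ 0 := by
        rw [sinh_re, addI_re, addI_im]
        apply mul_nonpos_of_nonpos_of_nonneg
        · exact Real.sinh_nonpos_iff.2 (by linarith only [k5, zi])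
        · exact Real.cos_nonneg_of_neg_pi_div_two_le_of_le (by linarith only [b3, b1, zr, a2.2,
                                                                 a2.1]) (by linarith only [c1, b2,
                                                                              zr])
      by_contra hcon
      push Not at hcon
      have h5 := Complex.abs_arg_lt_pi_div_two_iff.1 (abs_lt.2
        ⟨by linarith only [(arg_up hu).1, hpi], hcon⟩)
      rcases h5 with h5 | h5
      · linarith only [h5, hre]
      · rw [h5] at hu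
        simp at hu
    have m2 : (lA r z).im < Real.pi / 2 := by
      rw [lA_im_eq]
      apply (arg_right _).2
      rw [sinh_re, addI_re, addI_im]
      exact mul_pos (Real.sinh_pos_iff.2 (by linarith only [k5, d2, zi]))
        (Real.cos_pos_of_mem_Ioo ⟨by linarith only [c1, b2, zr, a2.2, a2.1], by linarith only [b3,
                                                                                  zr]⟩)
    linarith only [m2, m1, a1.1]

/-- The own variable of the node. -/
noncomputable def zz4 (p r z : ℂ) : ℂ := (lA r z - lA p z) / (2 * Real.pi * I)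

theorem zz4_mul (p r z : ℂ) : 2 * Real.pi * I * zz4 p r z = lA r z - lA p z := by
  unfold zz4
  rw [mul_div_cancel₀ _ Complex.two_pi_I_ne_zero]

/-- The facts at a node with four half twists. -/
structure N4 (p r z : ℂ) : Prop where
  sp : Slot p z
  sr : Slot r z
  dp : 0 < (sy p z - z / Real.pi).re
  dr : 0 < (sy r z - z / Real.pi).re
  b0 : (sy p z).re < 1 / 2
  b1 : (sy r z).re < 1 / 2
  g0 : 0 < (sy p z - zz4 p r z).re ∧ (sy p z - zz4 p r z).re < 1
  g1 : 0 < (zz4 p r z + sy r z).re ∧ (zz4 p r z + sy r z).re < 1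
  g2 : |(zz4 p r z).re| < 1 / 2
  e1 : he (sy p z - z / Real.pi) = -p + L2 z - lA p z / 2 - lB p z / 2
  e2 : he (sy p z + z / Real.pi) = p + L2 z - lA p z / 2 - lB p z / 2
  e3 : he (sy r z - z / Real.pi) = -r + L2 z - lA r z / 2 - lB r z / 2
  e4 : he (sy r z + z / Real.pi) = r + L2 z - lA r z / 2 - lB r z / 2
  e5 : he (sy p z - zz4 p r z) = Real.pi * I / 2 + 2 * L2 z - lA p z - lB p z / 2 - lA r z / 2
  e6 : he (zz4 p r z + sy r z) = Real.pi * I / 2 + 2 * L2 z - lA r z - lB r z / 2 - lA p z / 2

theorem O4.e12 {p r z : ℂ} (h : O4 p r) (hz : 4 * z = Real.pi + I * (p + r)) :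
    he (sy p z - z / Real.pi) = -p + G.L2 z - lA p z / 2 - lB p z / 2 ∧
      he (sy p z + z / Real.pi) = p + G.L2 z - lA p z / 2 - lB p z / 2 := by
  have hpi := Real.pi_pos
  have sp := h.slot hz
  have a1 := sp.A_im
  have a2 := sp.B_im
  have a3 := h.L2 hz
  obtain ⟨b1, b2, b3⟩ := h.b
  have h0 := h.ymv hz
  have h1 := sp.ymv
  have h2 : (sy p z - z / Real.pi).re < 1 := by linarith only [h1.2]
  have h3 := hh_im_lt h0 h2
  refine ⟨?_, sp.hp (by linarith only [b1, a3.1, a2.2, a1.2, a1.1]) (by linarith only [b2, a3.2,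
                                                                          a2.1, a1.2, a1.1])⟩
  refine sp.hm (Or.inr ⟨h0, h2⟩) ?_ ?_
  · rw [he_eq_hh h0 h2]
    linarith only [h3.1, b1, a3.2, a2.1, a1.2, a1.1]
  · rw [he_eq_hh h0 h2]
    linarith only [h3.2, b2, a3.1, a2.2, a1.2, a1.1]

theorem re_of_im {u : ℂ} {x : ℝ} (h : (2 * Real.pi * I * u : ℂ).im = x) :
    2 * Real.pi * u.re = x := by
  rw [← h, two_pi_I_mul_im]

theorem O4.N4 {p r z : ℂ} (h : O4 p r) (hz : 4 * z = Real.pi + I * (p + r)) : N4 p r z := by
  have hpi := Real.pi_pos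
  have hz' : 4 * z = Real.pi + I * (r + p) := by rw [hz]; ring
  have sp := h.slot hz
  have sr := h.symm.slot hz'
  have a1 := sp.A_im
  have a3 := sr.A_im
  have c1 := h.gap hz
  have c2 := h.symm.gap hz'
  have i1 : 2 * Real.pi * I * (sy p z - zz4 p r z) = 2 * lA p z - lB p z - lA r z := by
    linear_combination sy_mul p z - zz4_mul p r z
  have i2 : 2 * Real.pi * I * (zz4 p r z + sy r z) = 2 * lA r z - lB r z - lA p z := by
    linear_combination sy_mul r z + zz4_mul p r z
  have j1 : 2 * Real.pi * (sy p z - zz4 p r z).re =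
      2 * (lA p z).im - (lB p z).im - (lA r z).im := by
    apply re_of_im
    rw [i1]
    simp
  have j2 : 2 * Real.pi * (zz4 p r z + sy r z).re =
      2 * (lA r z).im - (lB r z).im - (lA p z).im := by
    apply re_of_im
    rw [i2]
    simp
  have j3 : 2 * Real.pi * (zz4 p r z).re = (lA r z).im - (lA p z).im := by
    apply re_of_im
    rw [zz4_mul]
    simp
  have g0 : 0 < (sy p z - zz4 p r z).re ∧ (sy p z - zz4 p r z).re < 1 := by
    constructor
    · by_contra hc
      push Not at hc
      linarith only [j1, c1.1, mul_nonneg (sub_nonneg.2 hpi.le) (sub_nonneg.2 hc)]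
    · by_contra hc
      push Not at hc
      linarith only [j1, c1.2, mul_nonneg (sub_nonneg.2 hpi.le) (sub_nonneg.2 hc)]
  have g1 : 0 < (zz4 p r z + sy r z).re ∧ (zz4 p r z + sy r z).re < 1 := by
    constructor
    · by_contra hc
      push Not at hc
      linarith only [j2, c2.1, mul_nonneg (sub_nonneg.2 hpi.le) (sub_nonneg.2 hc)]
    · by_contra hc
      push Not at hc
      linarith only [j2, c2.2, mul_nonneg (sub_nonneg.2 hpi.le) (sub_nonneg.2 hc)]
  have hp0 : p ≠ 0 := fun h0 => by
    have := h.p0
    rw [h0] at this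
    simp at this
  have hr0 : r ≠ 0 := fun h0 => by
    have := h.r0
    rw [h0] at this
    simp at this
  have hL1 := sp.LA (h.him hz)
  have hL2 := sr.LA (h.symm.him hz')
  refine ⟨sp, sr, h.ymv hz, h.symm.ymv hz', sp.sy_lt hp0, sr.sy_lt hr0, g0, g1, ?_,
    (h.e12 hz).1, (h.e12 hz).2, (h.symm.e12 hz').1, (h.symm.e12 hz').2, ?_, ?_⟩
  · rw [abs_lt]
    constructor
    · by_contra hc
      push Not at hc
      linarith only [j3, a3.1, a1.2, mul_nonneg (sub_nonneg.2 hpi.le) (sub_nonneg.2 hc)]
    · by_contra hc
      push Not at hc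
      linarith only [j3, a3.2, a1.1, mul_nonneg (sub_nonneg.2 hpi.le) (sub_nonneg.2 hc)]
  · rw [he_eq_hh g0.1 g0.2]
    refine LB ?_ i1 g0.1 g0.2 hL1.1 hL1.2
    rw [sp.eA, sp.eB, sr.eA, exp_L2 sp.z0 sp.z1, O4.hr hz]
    exact sinh_step p z
  · rw [he_eq_hh g1.1 g1.2]
    refine LB ?_ i2 g1.1 g1.2 hL2.1 hL2.2
    rw [sr.eA, sr.eB, sp.eA, exp_L2 sp.z0 sp.z1, O4.hr hz']
    exact sinh_step r z

theorem N4.da {p r z : ℂ} (h : N4 p r z) :
    -he (sy p z - z / Real.pi) - he (sy p z + z / Real.pi) =
      -(Real.pi * I * (sy p z + zz4 p r z - 1 / 2)) - he (sy p z - zz4 p r z) := by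
  rw [h.e1, h.e2, h.e5]
  linear_combination (sy_mul p z) / 2 + (zz4_mul p r z) / 2

theorem N4.db {p r z : ℂ} (h : N4 p r z) :
    -he (sy r z - z / Real.pi) - he (sy r z + z / Real.pi) =
      Real.pi * I * (zz4 p r z - sy r z + 1 / 2) - he (zz4 p r z + sy r z) := by
  rw [h.e3, h.e4, h.e6]
  linear_combination (sy_mul r z) / 2 - (zz4_mul p r z) / 2

/-- The equation of the own variable. -/
theorem N4.dz {p r z : ℂ} (h : N4 p r z) :
    he (sy p z - zz4 p r z) - he (zz4 p r z + sy r z) -
      Real.pi * I * (sy p z + 2 * zz4 p r z - sy r z) = 0 := by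
  rw [h.e5, h.e6]
  linear_combination -(sy_mul p z) / 2 + (sy_mul r z) / 2 - (zz4_mul p r z)

theorem N4.dv {p r z : ℂ} (h : N4 p r z) (hz : 4 * z = Real.pi + I * (p + r)) :
    2 * Real.pi * I * (2 * (-2) * (z / Real.pi) + 1) +
      (he (sy p z - z / Real.pi) - he (sy p z + z / Real.pi)) +
      (he (sy r z - z / Real.pi) - he (sy r z + z / Real.pi)) = 0 := by
  rw [h.e1, h.e2, h.e3, h.e4]
  linear_combination -8 * v_mul z - 2 * I * hz - 2 * (p + r) * I_sq

/-- The difference of the potentials on the path. -/
noncomputable def F4 (p r : ℂ) (t : ℝ) : ℂ :=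
  pV (-2) (vt 4 (p + r) t) (sy (t * p) (zt 4 (p + r) t)) (sy (t * r) (zt 4 (p + r) t)) -
    (pB (-1) (sy (t * p) (zt 4 (p + r) t)) (zz4 (t * p) (t * r) (zt 4 (p + r) t)) +
      pC (-1) (zz4 (t * p) (t * r) (zt 4 (p + r) t)) (sy (t * r) (zt 4 (p + r) t)))

theorem four_zt (p r : ℂ) (t : ℝ) :
    4 * zt 4 (p + r) t = Real.pi + I * (t * p + t * r) := by
  unfold zt
  push_cast
  ring

theorem F4_hasDerivAt {p r : ℂ} (h : O4 p r) {t : ℝ} (h0 : 0 < t) (h1 : t ≤ 1) :
    HasDerivAt (F4 p r) 0 t := by
  have hN := (h.smul h0 h1).N4 (four_zt p r t)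
  have ha := (sy_diff hN.sp).hasDerivAt
  have hb := (sy_diff hN.sr).hasDerivAt
  have hc := (((lA_diff hN.sr.slA).sub (lA_diff hN.sp.slA)).div_const
    (2 * Real.pi * I)).hasDerivAt
  have hv := vt_hasDerivAt 4 (p + r) t
  have u1 : (sy (t * p) (zt 4 (p + r) t) - zt 4 (p + r) t / Real.pi).re < 1 := by
    linarith only [hN.sp.ymv.2]
  have u2 : (sy (t * r) (zt 4 (p + r) t) - zt 4 (p + r) t / Real.pi).re < 1 := by
    linarith only [hN.sr.ymv.2]
  have i1 := hN.da
  have i2 := hN.db
  have i3 := hN.dv (four_zt p r t)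
  have i4 := hN.dz
  set z := zt 4 (p + r) t with hzdef
  set a' := deriv (fun t : ℝ => sy (t * p) (zt 4 (p + r) t)) t
  set b' := deriv (fun t : ℝ => sy (t * r) (zt 4 (p + r) t)) t
  set v' := I * (p + r) / (4 : ℕ) / Real.pi
  generalize hc' : deriv (fun x : ℝ => ((fun t : ℝ => lA (t * r) (zt 4 (p + r) t)) -
    fun t : ℝ => lA (t * p) (zt 4 (p + r) t)) x / (2 * Real.pi * I)) t = c' at hc
  change HasDerivAt (fun t : ℝ => zz4 (t * p) (t * r) (zt 4 (p + r) t)) c' t at hc
  have k1 : HasDerivAt (fun t : ℝ => fe (sy (t * p) (zt 4 (p + r) t) - vt 4 (p + r) t))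
      (he (sy (t * p) z - z / Real.pi) * (a' - v')) t :=
    HasDerivAt.comp t (fe_hasDerivAt (Or.inr ⟨hN.dp, u1⟩)) (ha.sub hv)
  have k2 : HasDerivAt (fun t : ℝ => fe (sy (t * p) (zt 4 (p + r) t) + vt 4 (p + r) t))
      (he (sy (t * p) z + z / Real.pi) * (a' + v')) t :=
    HasDerivAt.comp t (fe_hasDerivAt (Or.inr hN.sp.yv)) (ha.add hv)
  have k3 : HasDerivAt (fun t : ℝ => fe (sy (t * r) (zt 4 (p + r) t) - vt 4 (p + r) t))
      (he (sy (t * r) z - z / Real.pi) * (b' - v')) t :=
    HasDerivAt.comp t (fe_hasDerivAt (Or.inr ⟨hN.dr, u2⟩)) (hb.sub hv)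
  have k4 : HasDerivAt (fun t : ℝ => fe (sy (t * r) (zt 4 (p + r) t) + vt 4 (p + r) t))
      (he (sy (t * r) z + z / Real.pi) * (b' + v')) t :=
    HasDerivAt.comp t (fe_hasDerivAt (Or.inr hN.sr.yv)) (hb.add hv)
  have k5 : HasDerivAt (fun t : ℝ => fe (sy (t * p) (zt 4 (p + r) t) -
      zz4 (t * p) (t * r) (zt 4 (p + r) t)))
        (he (sy (t * p) z - zz4 (t * p) (t * r) z) * (a' - c')) t :=
    HasDerivAt.comp t (fe_hasDerivAt (Or.inr hN.g0)) (ha.sub hc)
  have k5' : HasDerivAt (fun t : ℝ => fe (zz4 (t * p) (t * r) (zt 4 (p + r) t) +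
      sy (t * r) (zt 4 (p + r) t)))
        (he (zz4 (t * p) (t * r) z + sy (t * r) z) * (c' + b')) t :=
    HasDerivAt.comp t (fe_hasDerivAt (Or.inr hN.g1)) (hc.add hb)
  have k6 : HasDerivAt (fun t => wr (-2) (vt 4 (p + r) t)) (2 * Real.pi * I *
      (((-2 : ℝ) : ℂ) * (2 * (z / Real.pi) * v') + v')) t := by
    have := (((hv.pow 2).const_mul ((-2 : ℝ) : ℂ)).add hv).const_mul (2 * Real.pi * I : ℂ)
    refine HasDerivAt.congr_deriv (f := fun t => wr (-2) (vt 4 (p + r) t)) this ?_
    simp [vt, hzdef]
  have k7 : HasDerivAt (fun t : ℝ => qC (-1) (zz4 (t * p) (t * r) (zt 4 (p + r) t))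
      (sy (t * r) (zt 4 (p + r) t))) ((((-1 : ℤ) : ℂ) * Real.pi * I) *
        ((zz4 (t * p) (t * r) z - sy (t * r) z) * (c' - b') + (-c' - b') / 2)) t := by
    have := (((((hc.sub hb).pow 2).div_const 2)).add
      ((((hc.const_sub 1).sub hb)).div_const 2)).const_mul (((-1 : ℤ) : ℂ) * Real.pi * I)
    refine HasDerivAt.congr_deriv (f := fun t : ℝ => qC (-1) (zz4 (t * p) (t * r)
      (zt 4 (p + r) t)) (sy (t * r) (zt 4 (p + r) t))) this ?_
    simp
    ring
  have k7' : HasDerivAt (fun t : ℝ => qB (-1) (sy (t * p) (zt 4 (p + r) t))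
      (zz4 (t * p) (t * r) (zt 4 (p + r) t))) ((((-1 : ℤ) : ℂ) * Real.pi * I) *
        ((sy (t * p) z + zz4 (t * p) (t * r) z) * (a' + c') - (a' - c') / 2)) t := by
    have := (((((ha.add hc).pow 2).div_const 2)).sub
      ((ha.sub hc).div_const 2)).const_mul (((-1 : ℤ) : ℂ) * Real.pi * I)
    refine HasDerivAt.congr_deriv (f := fun t : ℝ => qB (-1) (sy (t * p) (zt 4 (p + r) t))
      (zz4 (t * p) (t * r) (zt 4 (p + r) t))) this ?_
    simp
    ring
  have k8 := ((((k6.sub k1).sub k2).sub k3).sub k4).sub ((k7'.sub k5).add (k7.sub k5'))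
  refine HasDerivAt.congr_deriv (f := F4 p r) k8 ?_
  push_cast
  linear_combination a' * i1 + b' * i2 + v' * i3 - c' * i4

theorem zz4_lim (p r : ℂ) : Tendsto (fun t : ℝ => zz4 (t * p) (t * r) (zt 4 (p + r) t))
    (𝓝[>] 0) (𝓝 0) := by
  have h1 := lA_lim (n := 4) (by norm_num) r (p + r)
  have h2 := lA_lim (n := 4) (by norm_num) p (p + r)
  have h3 := (h1.sub h2).div_const (2 * Real.pi * I : ℂ)
  have e : lA (((0 : ℝ) : ℂ) * r) (zt 4 (p + r) 0) - lA (((0 : ℝ) : ℂ) * p) (zt 4 (p + r) 0) =
      0 := by
    simp
  rw [e, zero_div] at h3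
  exact h3

theorem F4_lim {p r : ℂ} : Tendsto (F4 p r) (𝓝[>] 0) (𝓝 (Real.pi * I / 2)) := by
  have ha := sy_lim (n := 4) (by norm_num) p (p + r)
  have hb := sy_lim (n := 4) (by norm_num) r (p + r)
  have hc := zz4_lim p r
  have hv : Tendsto (vt 4 (p + r)) (𝓝[>] 0) (𝓝 (1 / 4)) := by
    have := vt_lim (n := 4) (p + r)
    push_cast at this
    exact this
  have l1 : Tendsto (fun t : ℝ => sy (t * p) (zt 4 (p + r) t) - vt 4 (p + r) t) (𝓝[>] 0)
      (𝓝 (1 / 4)) := by
    have := ha.sub hv
    rwa [show (1 / 2 - 1 / 4 : ℂ) = 1 / 4 by norm_num] at this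
  have l2 : Tendsto (fun t : ℝ => sy (t * p) (zt 4 (p + r) t) + vt 4 (p + r) t) (𝓝[>] 0)
      (𝓝 (3 / 4)) := by
    have := ha.add hv
    rwa [show (1 / 2 + 1 / 4 : ℂ) = 3 / 4 by norm_num] at this
  have l3 : Tendsto (fun t : ℝ => sy (t * r) (zt 4 (p + r) t) - vt 4 (p + r) t) (𝓝[>] 0)
      (𝓝 (1 / 4)) := by
    have := hb.sub hv
    rwa [show (1 / 2 - 1 / 4 : ℂ) = 1 / 4 by norm_num] at this
  have l4 : Tendsto (fun t : ℝ => sy (t * r) (zt 4 (p + r) t) + vt 4 (p + r) t) (𝓝[>] 0)
      (𝓝 (3 / 4)) := by
    have := hb.add hv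
    rwa [show (1 / 2 + 1 / 4 : ℂ) = 3 / 4 by norm_num] at this
  have l5 : Tendsto (fun t : ℝ => sy (t * p) (zt 4 (p + r) t) -
      zz4 (t * p) (t * r) (zt 4 (p + r) t)) (𝓝[>] 0) (𝓝 (1 / 2)) := by
    have := ha.sub hc
    rwa [sub_zero] at this
  have l6 : Tendsto (fun t : ℝ => zz4 (t * p) (t * r) (zt 4 (p + r) t) +
      sy (t * r) (zt 4 (p + r) t)) (𝓝[>] 0) (𝓝 (1 / 2)) := by
    have := hc.add hb
    rwa [zero_add] at this
  have k1 := fe_tendsto l1 (by norm_num) (by norm_num)
  have k2 := fe_tendsto l2 (by norm_num) (by norm_num)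
  have k3 := fe_tendsto l3 (by norm_num) (by norm_num)
  have k4 := fe_tendsto l4 (by norm_num) (by norm_num)
  have k5 := fe_tendsto l5 (by norm_num) (by norm_num)
  have k5' := fe_tendsto l6 (by norm_num) (by norm_num)
  rw [ff_half] at k5 k5'
  have hq : ff (3 / 4) = -ff (1 / 4) := by
    rw [← ff_reflect]
    norm_num
  rw [hq] at k2 k4
  have k6 : Tendsto (fun t : ℝ => wr (-2) (vt 4 (p + r) t)) (𝓝[>] 0) (𝓝 (Real.pi * I / 4)) := by
    have := (((hv.pow 2).const_mul ((-2 : ℝ) : ℂ)).add hv).const_mul (2 * Real.pi * I : ℂ)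
    have e : (2 * Real.pi * I : ℂ) * (((-2 : ℝ) : ℂ) * (1 / 4) ^ 2 + 1 / 4) = Real.pi * I / 4 := by
      push_cast
      ring
    rw [e] at this
    exact this
  have k7 : Tendsto (fun t : ℝ => qC (-1) (zz4 (t * p) (t * r) (zt 4 (p + r) t))
      (sy (t * r) (zt 4 (p + r) t))) (𝓝[>] 0) (𝓝 (-(3 * Real.pi * I / 8))) := by
    have := (((((hc.sub hb).pow 2).div_const 2)).add
      ((((hc.const_sub 1).sub hb)).div_const 2)).const_mul (((-1 : ℤ) : ℂ) * Real.pi * I)
    have e : (((-1 : ℤ) : ℂ) * Real.pi * I) * ((0 - 1 / 2) ^ 2 / 2 + (1 - 0 - 1 / 2) / 2) =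
      -(3 * Real.pi * I / 8) := by
      push_cast
      ring
    rw [e] at this
    exact this
  have k7' : Tendsto (fun t : ℝ => qB (-1) (sy (t * p) (zt 4 (p + r) t))
      (zz4 (t * p) (t * r) (zt 4 (p + r) t))) (𝓝[>] 0) (𝓝 (Real.pi * I / 8)) := by
    have := (((((ha.add hc).pow 2).div_const 2)).sub
      ((ha.sub hc).div_const 2)).const_mul (((-1 : ℤ) : ℂ) * Real.pi * I)
    have e : (((-1 : ℤ) : ℂ) * Real.pi * I) * ((1 / 2 + 0) ^ 2 / 2 - (1 / 2 - 0) / 2) =
      Real.pi * I / 8 := by
      push_cast
      ring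
    rw [e] at this
    exact this
  have k8 := ((((k6.sub k1).sub k2).sub k3).sub k4).sub ((k7'.sub k5).add (k7.sub k5'))
  rw [show (Real.pi * I / 4 - ff (1 / 4) - -ff (1 / 4) - ff (1 / 4) - -ff (1 / 4) -
    (Real.pi * I / 8 - 0 + (-(3 * Real.pi * I / 8) - 0)) : ℂ) = Real.pi * I / 2 by ring] at k8
  exact k8

/-- **The closed form of a node with four half twists.** -/
theorem O4.value {p r z : ℂ} (h : O4 p r) (hz : 4 * z = Real.pi + I * (p + r)) :
    pV (-2) (z / Real.pi) (sy p z) (sy r z) = pB (-1) (sy p z) (zz4 p r z) +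
      pC (-1) (zz4 p r z) (sy r z) + Real.pi * I / 2 := by
  have h1 := const_path (fun t h0 h1 => F4_hasDerivAt h h0 h1) F4_lim
  have e : zt 4 (p + r) 1 = z := by
    unfold zt
    push_cast
    linear_combination -hz / 4
  unfold F4 vt at h1
  rw [e, ofReal_one, one_mul, one_mul] at h1
  linear_combination h1

end Pool.Agent.S5.G
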