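import Pool.Agent.H63.VC3.CritB
import Pool.Agent.H63.VC3.Upper
import Pool.Agent.H63.VC4.KBN
import Pool.Agent.H63.VC4.UpperN
import Pool.Agent.H63.VC5.Defs
import Pool.Agent.H63.VC6.LocU
import Pool.Agent.H63.VC6.SlotU
import Pool.Agent.H63.VC7.Link
import Pool.Agent.H63.VC7.QcLL
import Pool.Agent.S3.G.Vol
import Pool.Agent.S5.G.Fan

/-!
# Stage 3b, block G2: the critical value of a mixed chain is the volume
-/

namespace Pool.Agent.S5.G

open Complex Pool.Agent.H63.VC Pool.Agent.H63.VC3 Pool.Agent.H63.VC4 Pool.Agent.H63.VC7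
open Pool.Agent.H1TB Pool.Agent.S3 Pool.Agent.S3.G
open scoped ComplexConjugate BigOperators

variable {R : ℕ} {a : ℕ → ℕ} {S : ℕ → Bool} {z ql qr : ℕ → ℂ}

/-- `Y` of the right slot of the vertex `i`. -/
noncomputable def YrM (S : ℕ → Bool) (z qr : ℕ → ℂ) (i : ℕ) : ℂ :=
  Yy (kp (S i) (cos (z (i + 1)))) (cosh (qr i))

/-- `Y` of the left slot of the vertex `i + 1`. -/
noncomputable def YlM (S : ℕ → Bool) (z ql : ℕ → ℂ) (i : ℕ) : ℂ :=
  Yy (kp (S i) (cos (z i))) (cosh (ql (i + 1)))

theorem kp_sq_conj (s : Bool) (c : ℂ) : conj (kp s c) ^ 2 = kp s (conj c) ^ 2 := by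
  cases s <;> simp

theorem CrtM.zz_end (h : CrtM R a S z ql qr) (i : ℕ) (hi : i < R) :
    S3.G.zz z ql i (a i) = -(cos (z i) / kp (S i) (cos (z (i + 1)))) ^ 2 := by
  unfold S3.G.zz
  rw [h.X_end i hi, cos_conj, map_div₀, conj_conj, conj_conj, div_pow, div_pow, inv_div]

theorem CrtM.zz_start (h : CrtM R a S z ql qr) (i : ℕ) (hi : i < R) :
    S3.G.zz z ql (i + 1) 0 = -(cos (z (i + 1)) / kp (S i) (cos (z i))) ^ 2 := by
  unfold S3.G.zz
  rw [h.X_start i hi, cos_conj, map_div₀, conj_conj, conj_conj, div_pow, div_pow, inv_div]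

theorem CrtM.kp_ne' (h : CrtM R a S z ql qr) (i j : ℕ) (hj : j ≤ R) :
    kp (S i) (cos (z j)) ≠ 0 := kp_ne (cos_ne (h.zre j hj))

theorem CrtM.hinge_ne (h : CrtM R a S z ql qr) (i : ℕ) (hi : i < R) :
    kp (S i) (cos (z (i + 1))) ^ 2 + cos (z i) ^ 2 ≠ 0 ∧
      kp (S i) (cos (z i)) ^ 2 + cos (z (i + 1)) ^ 2 ≠ 0 := by
  rcases hS : S i with _ | _
  · rw [kp_false, kp_false]
    have hn : conj (cos (z (i + 1))) ≠ 0 := by
      rw [Ne, map_eq_zero]
      exact cos_ne (h.zre (i + 1) hi)
    have h1 := im_shape (h.X_end_quad i hi hS)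
    have h2 : 0 < (S3.G.zz z ql i (a i)).im := h1
    have h3 : conj (cos (z (i + 1))) ^ 2 + cos (z i) ^ 2 ≠ 0 := by
      intro h0
      rw [h.zz_end i hi, hS, kp_false] at h2
      have : -(cos (z i) / conj (cos (z (i + 1)))) ^ 2 = 1 := by
        rw [div_pow, ← neg_div, div_eq_one_iff_eq (pow_ne_zero 2 hn)]
        linear_combination -h0
      rw [this] at h2
      simp at h2
    refine ⟨h3, fun h0 => h3 ?_⟩
    have h4 := congrArg conj h0
    rw [map_add, map_pow, map_pow, conj_conj, map_zero] at h4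
    linear_combination h4
  · rw [kp_true, kp_true]
    obtain ⟨a1, a2, a3⟩ := h.cosz i hi.le
    obtain ⟨b1, b2, b3⟩ := h.cosz (i + 1) hi
    have key : cos (z (i + 1)) ^ 2 + cos (z i) ^ 2 ≠ 0 := by
      intro h0
      have h1 := congrArg Complex.re h0
      rw [sq, sq, add_re, mul_re, mul_re, zero_re] at h1
      nlinarith
    exact ⟨key, fun h0 => key (by linear_combination h0)⟩

theorem CrtM.sD_right (h : CrtM R a S z ql qr) (i : ℕ) (hi : i < R) :
    2 * sD (z i) (qr i) = sW (YrM S z qr i) (exp (2 * I * z i)) -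
      blochWigner (S3.G.zz z ql i (a i)) := by
  rw [h.zz_end i hi]
  exact sD_eq _ _ _ (cos_ne (h.zre i hi.le)) (sin_ne (h.zre i hi.le)) (h.kp_ne' i (i + 1) hi)
    (h.sr i hi) (h.hinge_ne i hi).1

theorem CrtM.sD_left (h : CrtM R a S z ql qr) (i : ℕ) (hi : i < R) :
    2 * sD (z (i + 1)) (ql (i + 1)) = sW (YlM S z ql i) (exp (2 * I * z (i + 1))) -
      blochWigner (S3.G.zz z ql (i + 1) 0) := by
  rw [h.zz_start i hi]
  exact sD_eq _ _ _ (cos_ne (h.zre (i + 1) hi)) (sin_ne (h.zre (i + 1) hi))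
    (h.kp_ne' i i hi.le) (h.sl i hi) (h.hinge_ne i hi).2

/-- The two `Y` of an edge with opposite signs. -/
theorem CrtM.Y_opp (h : CrtM R a S z ql qr) (i : ℕ) (hi : i < R) (hS : S i = false) :
    YlM S z ql i * conj (YrM S z qr i) = 1 := by
  obtain ⟨n1, n2, -⟩ := slot_alg (z i) (qr i) (kp (S i) (cos (z (i + 1))))
    (cos_ne (h.zre i hi.le)) (h.kp_ne' i (i + 1) hi) (h.sr i hi) (h.hinge_ne i hi).1
  obtain ⟨m1, m2, -⟩ := slot_alg (z (i + 1)) (ql (i + 1)) (kp (S i) (cos (z i)))
    (cos_ne (h.zre (i + 1) hi)) (h.kp_ne' i i hi.le) (h.sl i hi) (h.hinge_ne i hi).2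
  have hs := h.sign_opp i hi hS
  unfold YlM YrM Yy
  rw [hS] at n1 n2 m1 m2 ⊢
  rw [kp_false] at n1 n2 m1 m2
  rw [kp_false, kp_false, map_div₀, map_add, map_sub, map_mul, conj_conj, conj_I]
  have k1 : cos (z (i + 1)) - -I * conj (cosh (qr i)) ≠ 0 := by
    have : conj (conj (cos (z (i + 1))) - I * cosh (qr i)) ≠ 0 := by
      rw [Ne, map_eq_zero]
      exact n1
    rw [map_sub, map_mul, conj_conj, conj_I] at this
    exact this
  rw [div_mul_div_comm, div_eq_one_iff_eq (mul_ne_zero m1 k1)]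
  linear_combination (-2 * I) * hs

/-- The two `Y` of an edge with equal signs. -/
theorem CrtM.Y_same (h : CrtM R a S z ql qr) (i : ℕ) (hi : i < R) (hS : S i = true) :
    YlM S z ql i = YrM S z qr i := by
  obtain ⟨n1, n2, -⟩ := slot_alg (z i) (qr i) (kp (S i) (cos (z (i + 1))))
    (cos_ne (h.zre i hi.le)) (h.kp_ne' i (i + 1) hi) (h.sr i hi) (h.hinge_ne i hi).1
  obtain ⟨m1, m2, -⟩ := slot_alg (z (i + 1)) (ql (i + 1)) (kp (S i) (cos (z i)))
    (cos_ne (h.zre (i + 1) hi)) (h.kp_ne' i i hi.le) (h.sl i hi) (h.hinge_ne i hi).2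
  have hs := h.sign_same i hi hS
  unfold YlM YrM Yy
  rw [hS] at n1 n2 m1 m2 ⊢
  rw [kp_true] at n1 n2 m1 m2
  rw [kp_true, kp_true, div_eq_div_iff m1 n1]
  linear_combination (-2 * I) * hs

/-- **The volume of a mixed chain as a sum over the edges.** -/
theorem CrtM.volume' (h : CrtM R a S z ql qr) (r : ℕ → ℤ)
    (hra : ∀ i, i ≤ R → (r i).natAbs = a i)
    (hrs : ∀ i, i < R → (S i = true ↔ 0 < r i * r (i + 1))) :
    IsGreatest (structureVolumes (conwayH ((List.range (R + 1)).map r)))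
      (∑ i ∈ Finset.range R, (sW (YrM S z qr i) (exp (2 * I * z i)) +
        sW (YlM S z ql i) (exp (2 * I * z (i + 1))))) := by
  have e0 : ∀ w : ℂ, sD w 0 = 0 := by
    intro w
    unfold sD
    by_cases hw : exp (2 * I * w) - 1 = 0
    · rw [mul_zero, Complex.exp_zero, mul_one, sub_self (1 : ℂ), div_zero, FanSum_zero, hw,
        div_zero, FanSum_zero, sub_zero]
    · rw [mul_zero, Complex.exp_zero, mul_one, sub_self (1 : ℂ), div_zero, FanSum_zero,
        div_self hw, FanSum_one, sub_zero]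
  have key := h.volume r hra hrs
  have e1 : (2 * ∑ i ∈ Finset.range (R + 1), ∑ k ∈ Finset.Icc 1 (a i - 1),
          blochWigner (S3.G.zz z ql i k) +
        2 * ∑ i ∈ Finset.range R, if S i then 0 else blochWigner (S3.G.zz z ql i (a i))) =
      ∑ i ∈ Finset.range R, (sW (YrM S z qr i) (exp (2 * I * z i)) +
        sW (YlM S z ql i) (exp (2 * I * z (i + 1)))) := by
    have e2 : ∑ i ∈ Finset.range (R + 1), ∑ k ∈ Finset.Icc 1 (a i - 1),
        blochWigner (S3.G.zz z ql i k) =
        ∑ i ∈ Finset.range (R + 1), (sD (z i) (ql i) + sD (z i) (qr i)) :=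
      Finset.sum_congr rfl (fun i hi => h.fan_sum i (by
        have := Finset.mem_range.1 hi
        omega))
    rw [e2, Finset.sum_add_distrib, Finset.sum_range_succ', Finset.sum_range_succ (fun i =>
      sD (z i) (qr i)), h.l0, h.rR, e0, e0, add_zero, add_zero, ← Finset.sum_add_distrib,
      Finset.mul_sum, Finset.mul_sum, ← Finset.sum_add_distrib]
    refine Finset.sum_congr rfl (fun i hi => ?_)
    have hi' := Finset.mem_range.1 hi
    have h1 := h.sD_right i hi'
    have h2 := h.sD_left i hi'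
    rcases hS : S i with _ | _
    · have h3 : blochWigner (S3.G.zz z ql i (a i)) = blochWigner (S3.G.zz z ql (i + 1) 0) := by
        have h4 := h.opp_start i hi' hS
        rw [eq_inv_of_mul_eq_one_left h4, SWpath_inv, bw_conj, neg_neg]
      simp only [Bool.false_eq_true, if_false]
      linarith
    · have h3 := h.bw_same i hi' hS
      simp only [if_true]
      linarith
  rw [e1] at key
  exact key

/-- The value of the potential with all the twist regions open. -/
noncomputable def WV {m : ℕ} (r : Fin (m + 1) → ℝ) (y : Fin m → ℂ) (v : Fin (m + 1) → ℂ) : ℂ :=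
  ∑ j, (sP (y j) (.op (v j.castSucc)) + sP (y j) (.op (v j.succ))) + ∑ i, wr (r i) (v i)

theorem WV_eq {m : ℕ} (r : Fin (m + 1) → ℝ) (s : Fin (m + 1) → ℤ) (y : Fin m → ℂ)
    (v : Fin (m + 1) → ℂ) : Wc r Finset.univ s y v = WV r y v := by
  unfold Wc WV slv
  simp

/-- The critical equations with all the twist regions open (the imaginary parts are enough for the
volume). -/
structure CritV {m : ℕ} (r : Fin (m + 1) → ℝ) (y : Fin m → ℂ) (v : Fin (m + 1) → ℂ) : Prop where
  yre : ∀ j, -(1 / 2) < (y j).re ∧ (y j).re < 1 / 2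
  doml : ∀ j : Fin m, fdo (y j - v j.castSucc) ∧ fdo (y j + v j.castSucc)
  domr : ∀ j : Fin m, fdo (y j - v j.succ) ∧ fdo (y j + v j.succ)
  ey : ∀ j, (dsP (y j) (.op (v j.castSucc)) + dsP (y j) (.op (v j.succ))).im = 0
  ev : ∀ i, (dwr (r i) (v i) +
    ∑ j ∈ inc (Fin.castSucc (n := m)) Fin.succ i, vsP (y j) (v i)).im = 0

theorem CritV.critP {m : ℕ} {r : Fin (m + 1) → ℝ} {y : Fin m → ℂ} {v : Fin (m + 1) → ℂ}
    (h : CritV r y v) (s : Fin (m + 1) → ℤ) : CritP r Finset.univ s y v := by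
  refine ⟨h.yre, ?_, ?_, fun i _ => h.ev i⟩
  · intro j i _ hi
    rcases hi with rfl | rfl
    · exact h.doml j
    · exact h.domr j
  · intro j
    have := h.ey j
    unfold slv
    rw [if_pos (Finset.mem_univ _), if_pos (Finset.mem_univ _)]
    exact this

/-- **The critical value is the volume.** -/
theorem CrtM.vol (h : CrtM R a S z ql qr) (r : ℕ → ℤ)
    (hra : ∀ i, i ≤ R → (r i).natAbs = a i)
    (hrs : ∀ i, i < R → (S i = true ↔ 0 < r i * r (i + 1)))
    (rr : Fin (R + 1) → ℝ) (y : Fin R → ℂ) (v : Fin (R + 1) → ℂ) (hc : CritV rr y v)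
    (hv : ∀ i : Fin (R + 1), exp (2 * Real.pi * I * v i) =
      if r i < 0 then exp (2 * I * z i) else conj (exp (2 * I * z i)))
    (hY : ∀ j : Fin R, exp (2 * Real.pi * I * y j) =
      if r j < 0 then YrM S z qr j else (conj (YrM S z qr j))⁻¹) :
    IsGreatest (structureVolumes (conwayH ((List.range (R + 1)).map r)))
      (2 * Real.pi * (WV rr y v).re) := by
  have key := h.volume' r hra hrs
  have hcv := (hc.critP (fun _ => 0)).value
  rw [WV_eq] at hcv
  rw [hcv]
  have hs : ∑ i ∈ Finset.range R, (sW (YrM S z qr i) (exp (2 * I * z i)) +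
        sW (YlM S z ql i) (exp (2 * I * z (i + 1)))) =
      ∑ j : Fin R, (bwP (y j) (slv Finset.univ (fun _ => 0) v j.castSucc) +
        bwP (y j) (slv Finset.univ (fun _ => 0) v j.succ)) := by
    rw [Finset.sum_range]
    refine Finset.sum_congr rfl (fun j _ => ?_)
    have hj := j.isLt
    have hn : ∀ i, i ≤ R → r i ≠ 0 := by
      intro i hi h0
      have h1 := hra i hi
      have h2 := h.ha i hi
      rw [h0] at h1
      simp at h1
      omega
    have hn0 := hn j hj.le
    have hn1 := hn (j + 1) hj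
    have c1 : ((j.castSucc : Fin (R + 1)) : ℕ) = j := by simp
    have c2 : ((j.succ : Fin (R + 1)) : ℕ) = j + 1 := by simp
    have el : slv Finset.univ (fun _ => 0) v j.castSucc = .op (v j.castSucc) := by
      unfold slv
      rw [if_pos (Finset.mem_univ _)]
    have er : slv Finset.univ (fun _ => 0) v j.succ = .op (v j.succ) := by
      unfold slv
      rw [if_pos (Finset.mem_univ _)]
    have hv0 := hv j.castSucc
    have hv1 := hv j.succ
    rw [c1] at hv0
    rw [c2] at hv1
    rw [el, er, bwP_op, bwP_op, hY, hv0, hv1]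
    have hl : sW (if r j < 0 then YrM S z qr j else (conj (YrM S z qr j))⁻¹)
        (if r j < 0 then exp (2 * I * z j) else conj (exp (2 * I * z j))) =
        sW (YrM S z qr j) (exp (2 * I * z j)) := by
      by_cases hn : r j < 0
      · rw [if_pos hn, if_pos hn]
      · rw [if_neg hn, if_neg hn]
        exact sW_inv_conj _ _
    rw [hl]
    congr 1
    rcases hS : S j with _ | _
    · -- opposite signs
      have hrel := h.Y_opp j hj hS
      have hYl : YlM S z ql j = (conj (YrM S z qr j))⁻¹ := eq_inv_of_mul_eq_one_left hrel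
      have hYr : YrM S z qr j = (conj (YlM S z ql j))⁻¹ := by
        rw [hYl, map_inv₀, conj_conj, inv_inv]
      have hlt : ¬ 0 < r j * r (j + 1) := fun h0 => by
        have := (hrs j hj).2 h0
        rw [hS] at this
        exact absurd this (by simp)
      by_cases hn : r j < 0
      · have hn' : ¬ r (j + 1) < 0 := fun h0 => hlt (mul_pos_of_neg_of_neg hn h0)
        rw [if_pos hn, if_neg hn', hYr]
        exact (sW_inv_conj _ _).symm
      · have hn' : r (j + 1) < 0 := by
          by_contra h0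
          exact hlt (mul_pos (by omega) (by omega))
        rw [if_neg hn, if_pos hn', ← hYl]
    · -- equal signs
      have hYl := h.Y_same j hj hS
      have hlt := (hrs j hj).1 hS
      by_cases hn : r j < 0
      · have hn' : r (j + 1) < 0 := by
          by_contra h0
          have := mul_nonpos_of_nonpos_of_nonneg hn.le (not_lt.1 h0)
          omega
        rw [if_pos hn, if_pos hn', hYl]
      · have hn' : ¬ r (j + 1) < 0 := fun h0 => by
          have := mul_nonpos_of_nonneg_of_nonpos (not_lt.1 hn) h0.le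
          omega
        rw [if_neg hn, if_neg hn', hYl]
        exact (sW_inv_conj _ _).symm
  rw [hs] at key
  exact key

end Pool.Agent.S5.G
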