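import Pool.Agent.S5.G.Sh

/-!
# Nodes with three half twists: definitions
-/

set_option autoImplicit false

namespace Pool.Agent.S5.G

open Complex

/-- The own variable of a node with three half twists, in the frame of the vertex. -/
noncomputable def zz3 (p r z : ℂ) : ℂ := (log (sinh r) - lA p z) / (2 * Real.pi * I)

/-- Three half twists: the domain of the two slots, `p` the slot of the Bailey step (`p = 0` at an
end of the chain). -/
structure O3 (p r : ℂ) : Prop where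
  p0 : p = 0 ∨ (0 < p.re ∧ (0 < p.im ∨ (-(16 * p.im) ≤ r.im ∧ -(24 * p.im) ≤ p.re + r.re ∧
    r.re ≤ p.re ∧ p.re ≤ 1)))
  r0 : 0 < r.re
  r1 : 0 < r.im
  r2 : r.im ≤ Real.pi / 2
  s1 : p.im + r.im ≤ Real.pi / 2
  c1 : 2 * p.im - r.im < Real.pi / 2
  c2 : r.im ≤ Real.pi / 4 + 2 * p.im ∨ p = 0 ∨ (r.im ≤ Real.pi / 4 + 1 / 6 + 2 * p.im ∧
    p.re ≤ 1 ∧ (0 ≤ p.im ∨ (p.re ≤ 4 / 5 ∧ -(34 * p.im) ≤ p.re + r.re)))
  c3 : p.im ≤ Real.pi / 4 + 2 * r.im
  c4 : p.re ≤ 6 * r.re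

end Pool.Agent.S5.G
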