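import Pool.Agent.S3.G.Layers

/-!
# Stage 3b, block G: positivity of the layers (real inequalities)
-/

namespace Pool.Agent.S5.G

open Real Pool.Agent.S3.G

/-- One step to the next layer. -/
theorem PosPair_step {ga ep s y : ℝ} (g0 : 0 < ga) (g1 : ga < π / 2) (e0 : 0 < ep)
    (y0 : 0 < y) (hy : y + ga ≤ π / 2) (h : PosPair ga ep s y) :
    PosPair ga ep (s - ep) (y + ga) := by
  obtain ⟨h1, h2⟩ := h
  have hcg : 0 < cos ga := cos_pos_of_mem_Ioo ⟨by linarith [pi_pos], g1⟩
  have hsg : 0 < sin ga := sin_pos_of_pos_of_lt_pi g0 (by linarith [pi_pos])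
  have hse : 0 < sinh ep := sinh_pos_iff.2 e0
  have hce : 0 < cosh ep := cosh_pos ep
  have hcy : 0 < cos y := cos_pos_of_mem_Ioo ⟨by linarith [pi_pos], by linarith⟩
  have hsy : 0 < sin y := sin_pos_of_pos_of_lt_pi y0 (by linarith [pi_pos])
  have hcy' : 0 ≤ cos (y + ga) :=
    cos_nonneg_of_neg_pi_div_two_le_of_le (by linarith [pi_pos]) hy
  have hsy' : 0 < sin (y + ga) := sin_pos_of_pos_of_lt_pi (by linarith) (by linarith [pi_pos])
  have hcs := cosh_pos s
  have hcs' := cosh_pos (s - ep)
  rcases le_or_gt 0 (s - ep) with hs | hs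
  · have hss' : 0 ≤ sinh (s - ep) := sinh_nonneg_iff.2 hs
    have hss : 0 < sinh s := sinh_pos_iff.2 (by linarith)
    refine ⟨by positivity, ?_⟩
    have k1 : sinh (s - ep) * cosh s ≤ sinh s * cosh (s - ep) := by
      have := sinh_nonneg_iff.2 (show 0 ≤ s - (s - ep) by linarith)
      rw [sinh_sub] at this
      linarith
    have k2 : cos (y + ga) * sin y ≤ sin (y + ga) * cos y := by
      have := sin_nonneg_of_nonneg_of_le_pi (x := (y + ga) - y) (by linarith)
        (by linarith [pi_pos])
      rw [sin_sub] at this
      linarith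
    have k3 : (sinh (s - ep) * cosh s) * (cos (y + ga) * sin y) ≤
        (sinh s * cosh (s - ep)) * (sin (y + ga) * cos y) :=
      mul_le_mul k1 k2 (by positivity) (by positivity)
    have k4 := mul_le_mul_of_nonneg_right k3 (show 0 ≤ cos ga * sinh ep by positivity)
    have k5 := mul_lt_mul_of_pos_left h2 (show 0 < cosh (s - ep) * sin (y + ga) by positivity)
    have k6 : 0 < cosh s * sin y := by positivity
    by_contra hcon
    have k7 := mul_le_mul_of_nonneg_left (not_lt.1 hcon) k6.le
    linarith
  · have hss' : sinh (s - ep) < 0 := by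
      have := sinh_pos_iff.2 (show 0 < -(s - ep) by linarith)
      rw [sinh_neg] at this
      linarith
    refine ⟨?_, ?_⟩
    · rcases le_or_gt 0 s with hs0 | hs0
      · have k1 : 0 ≤ cosh (s - ep) * sinh ep + sinh (s - ep) * cosh ep := by
          have := sinh_nonneg_iff.2 (show 0 ≤ (s - ep) + ep by linarith)
          rw [sinh_add] at this
          linarith
        have k2 : cos (y + ga) * sin ga < sin (y + ga) * cos ga := by
          have := sin_pos_of_pos_of_lt_pi (x := (y + ga) - ga) (by linarith)
            (by linarith [pi_pos])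
          rw [sin_sub] at this
          linarith
        have k3 : 0 ≤ cos (y + ga) * sin ga := by positivity
        have k4 := mul_nonneg k1 k3
        have k5 := mul_lt_mul_of_pos_left k2 (show 0 < cosh (s - ep) * sinh ep by positivity)
        linarith
      · have hss : 0 < -sinh s := by
          have := sinh_pos_iff.2 (show 0 < -s by linarith)
          rwa [sinh_neg] at this
        have k1 : cosh s * cosh ep ≤ cosh (s - ep) := by
          rw [cosh_sub]
          have := mul_pos hss hse
          linarith
        have k2 : cos (y + ga) ≤ cos y * cos ga := by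
          rw [cos_add]
          have := mul_pos hsy hsg
          linarith
        have k3 : 0 < sin (y + ga) * cos ga * sinh ep := by positivity
        have k4 := mul_le_mul_of_nonneg_right k1 k3.le
        have k5 := mul_le_mul_of_nonneg_right k2
          (show 0 ≤ -sinh (s - ep) * (sin ga * cosh ep) by
            have : 0 < -sinh (s - ep) := by linarith
            positivity)
        have k6 := mul_pos (show 0 < cos ga * cosh ep by positivity) h1
        have e1 : sin (y + ga) = sin y * cos ga + cos y * sin ga := sin_add y ga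
        have e2 : sinh (s - ep) = sinh s * cosh ep - cosh s * sinh ep := sinh_sub s ep
        have e3 : cosh s * cosh ep * (sin (y + ga) * cos ga * sinh ep) -
            cos y * cos ga * (-sinh (s - ep) * (sin ga * cosh ep)) =
            cos ga * cosh ep * (sinh s * cos y * (sin ga * cosh ep) +
              cosh s * sin y * (cos ga * sinh ep)) := by
          rw [e1, e2]
          ring
        linarith
    · have k1 : sinh (s - ep) * cos (y + ga) * (cos ga * sinh ep) ≤ 0 := by
        have : 0 ≤ -sinh (s - ep) * (cos (y + ga) * (cos ga * sinh ep)) := by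
          have : 0 < -sinh (s - ep) := by linarith
          positivity
        linarith
      have k2 : 0 < cosh (s - ep) * sin (y + ga) * (sin ga * cosh ep) := by positivity
      linarith

/-- The angle is positive. -/
theorem PosPair_y {ga ep s y : ℝ} (g0 : 0 < ga) (g1 : ga < π / 2) (e0 : 0 < ep)
    (y0 : -(π / 2) < y) (h : PosPair ga ep s y) : 0 < y := by
  by_contra hcon
  obtain ⟨h1, h2⟩ := h
  have hcg : 0 < cos ga := cos_pos_of_mem_Ioo ⟨by linarith [pi_pos], g1⟩
  have hsg : 0 < sin ga := sin_pos_of_pos_of_lt_pi g0 (by linarith [pi_pos])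
  have hse : 0 < sinh ep := sinh_pos_iff.2 e0
  have hce : 0 < cosh ep := cosh_pos ep
  have hcy : 0 < cos y := cos_pos_of_mem_Ioo ⟨y0, by linarith [pi_pos]⟩
  have hsy : 0 ≤ -sin y := by
    have := sin_nonneg_of_nonneg_of_le_pi (x := -y) (by linarith) (by linarith [pi_pos])
    rwa [sin_neg] at this
  have hcs := cosh_pos s
  have k1 : 0 ≤ cosh s * (-sin y) * (cos ga * sinh ep) := by positivity
  have k2 : 0 ≤ cosh s * (-sin y) * (sin ga * cosh ep) := by positivity
  rcases le_or_gt 0 (sinh s) with hs | hs
  · have : 0 ≤ sinh s * cos y * (cos ga * sinh ep) := by positivity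
    linarith
  · have : 0 < -sinh s * cos y * (sin ga * cosh ep) := by
      have : 0 < -sinh s := by linarith
      positivity
    linarith

/-- All layers after a layer in the quadrant. -/
theorem PosPair_from {ga ep lr li : ℝ} (k : ℕ) (g0 : 0 < ga) (g1 : ga < π / 2) (e0 : 0 < ep)
    (i0 : -(π / 2) < li) (hk : 1 ≤ k) (hy : ga * k + li ≤ π / 2)
    (h : PosPair ga ep (lr - ep) (ga + li)) :
    PosPair ga ep (lr - ep * k) (ga * k + li) := by
  obtain ⟨j, rfl⟩ : ∃ j, k = j + 1 := ⟨k - 1, by omega⟩
  clear hk
  induction j with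
  | zero => simpa using h
  | succ j ih =>
    push_cast at hy ih ⊢
    have hj : (0 : ℝ) ≤ ga * j := by positivity
    have h1 := ih (by linarith)
    have h2 : 0 < ga + li := PosPair_y g0 g1 e0 (by linarith) h
    have h3 := PosPair_step g0 g1 e0 (by linarith) (by linarith) h1
    have e1 : lr - ep * ((j : ℝ) + 1 + 1) = lr - ep * (j + 1) - ep := by ring
    have e2 : ga * ((j : ℝ) + 1 + 1) + li = ga * (j + 1) + li + ga := by ring
    rw [e1, e2]
    exact h3

end Pool.Agent.S5.G
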