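import Pool.Agent.H63.VC.Asym
import Pool.Agent.H63.VC.Cross
import Pool.Agent.H63.VC.EndB
import Pool.Agent.H63.VC.Riem
import Pool.Agent.H63.VC.SlowL
import Pool.Agent.H63.VC.SlowU
import Pool.Agent.H63.VC.Small
import Pool.Agent.H63.VC3.StepDefs
import Pool.Agent.S3.G.Fan
import Pool.Agent.S5.G.Layers

/-!
# Stage 3b, block G1: the shape parameters of the critical point of a mixed chain

`S i = true`: the edge from `i` to `i + 1` joins two twist regions of the same sign (no complex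
conjugation in the critical equations); `S i = false`: opposite signs.
-/

namespace Pool.Agent.S5.G

open Complex Pool.Agent.H63.VC Pool.Agent.H1TB Pool.Agent.S3.G
open scoped ComplexConjugate

/-- The factor `κ` of a slot. -/
noncomputable def kp (s : Bool) (c : ℂ) : ℂ := if s then c else conj c

@[simp] theorem kp_true (c : ℂ) : kp true c = c := if_pos rfl

@[simp] theorem kp_false (c : ℂ) : kp false c = conj c := if_neg (by simp)

theorem kp_ne {s : Bool} {c : ℂ} (h : c ≠ 0) : kp s c ≠ 0 := by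
  cases s
  · rwa [kp_false, Ne, map_eq_zero]
  · rwa [kp_true]

/-- The critical point of a mixed chain. -/
structure CrtM (R : ℕ) (a : ℕ → ℕ) (S : ℕ → Bool) (z ql qr : ℕ → ℂ) : Prop where
  hR : 1 ≤ R
  ha : ∀ i, i ≤ R → 2 ≤ a i
  hmid : ∀ i, i + 1 < R → S i = true → S (i + 1) = true → 3 ≤ a (i + 1)
  hfst : S 0 = true → 3 ≤ a 0
  hlst : ∀ i, i + 1 = R → S i = true → 3 ≤ a (i + 1)
  zre : ∀ i, i ≤ R → 0 < (z i).re ∧ (z i).re < Real.pi / 2
  zim : ∀ i, i ≤ R → 0 < (z i).im
  arg : ∀ i, i ≤ R → -(Real.pi / 4) < (cos (z i)).arg ∧ (cos (z i)).arg < 0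
  l0 : ql 0 = 0
  rR : qr R = 0
  sl : ∀ i, i < R → sinh (ql (i + 1)) = kp (S i) (cos (z i)) * tan (z (i + 1))
  sr : ∀ i, i < R → sinh (qr i) = kp (S i) (cos (z (i + 1))) * tan (z i)
  lre : ∀ i, i < R → 0 < (ql (i + 1)).re
  lim : ∀ i, i < R → -(Real.pi / 2) < (ql (i + 1)).im ∧ (ql (i + 1)).im < Real.pi / 2
  limo : ∀ i, i < R → S i = false → 0 < (ql (i + 1)).im
  rre : ∀ i, i < R → 0 < (qr i).re
  rim : ∀ i, i < R → -(Real.pi / 2) < (qr i).im ∧ (qr i).im < Real.pi / 2
  rimo : ∀ i, i < R → S i = false → 0 < (qr i).im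
  ssl : ∀ i, i < R → S i = true → 0 < (cos (z i) + I * cosh (ql (i + 1))).re ∧
    0 < (cos (z i) + I * cosh (ql (i + 1))).im
  ssr : ∀ i, i < R → S i = true → 0 < (cos (z (i + 1)) + I * cosh (qr i)).re ∧
    0 < (cos (z (i + 1)) + I * cosh (qr i)).im
  eq : ∀ i, i ≤ R → (a i : ℂ) * z i = Real.pi + I * (ql i + qr i)

section general

theorem nbM {w q κ : ℂ} (hw : 0 < w.re ∧ w.re < Real.pi / 2) (h : sinh q = κ * tan w) :
    sinh (conj q) / sin (conj w) = conj κ / cos (conj w) := by
  have h1 : sin (conj w) ≠ 0 := sin_ne (by simpa using hw)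
  have h2 : cos (conj w) ≠ 0 := cos_ne (by simpa using hw)
  rw [sinh_conj, h, map_mul, ← tan_conj, tan_eq_sin_div_cos]
  field_simp

end general

section crt

variable {R : ℕ} {a : ℕ → ℕ} {S : ℕ → Bool} {z ql qr : ℕ → ℂ} (h : CrtM R a S z ql qr)
include h

theorem CrtM.cre (i : ℕ) (hi : i ≤ R) : 0 < (conj (z i)).re ∧ (conj (z i)).re < Real.pi / 2 := by
  simpa using h.zre i hi

theorem CrtM.cosz (i : ℕ) (hi : i ≤ R) : 0 < (cos (z i)).re ∧ (cos (z i)).im < 0 ∧
    -(cos (z i)).im < (cos (z i)).re := by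
  have h1 := h.zre i hi
  have h2 := h.zim i hi
  have h3 : 0 < (cos (z i)).re := by
    rw [(cos_split (z i)).1]
    exact mul_pos (Real.cos_pos_of_mem_Ioo ⟨by linarith only [h1.2, h1.1], h1.2⟩) (Real.cosh_pos _)
  have h4 : (cos (z i)).im < 0 := by
    rw [(cos_split (z i)).2]
    exact neg_neg_of_pos (mul_pos (Real.sin_pos_of_pos_of_lt_pi h1.1
      (by linarith only [h1.2, h1.1])) (Real.sinh_pos_iff.2 h2))
  refine ⟨h3, h4, ?_⟩
  have h5 := h.arg i hi
  have h6 : Real.tan (-(Real.pi / 4)) < Real.tan (cos (z i)).arg :=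
    Real.tan_lt_tan_of_lt_of_lt_pi_div_two (by linarith only [h1.2, h1.1])
      (by linarith only [h5.2, h1.2, h1.1]) h5.1
  rw [Real.tan_neg, Real.tan_pi_div_four, tan_arg, lt_div_iff₀ h3] at h6
  linarith only [h6]

theorem CrtM.eq_re (i : ℕ) (hi : i ≤ R) :
    (a i : ℝ) * (z i).re = Real.pi - ((ql i).im + (qr i).im) := by
  have h1 := congrArg Complex.re (h.eq i hi)
  simp at h1
  linarith only [h1]

theorem CrtM.eq_im (i : ℕ) (hi : i ≤ R) :
    (a i : ℝ) * (z i).im = (ql i).re + (qr i).re := by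
  have h1 := congrArg Complex.im (h.eq i hi)
  simp at h1
  linarith only [h1]

theorem CrtM.X_iff (i k : ℕ) (hi : i ≤ R) :
    (0 < (Xx z ql i k).re ∧ (Xx z ql i k).im < 0) ↔
      PosPair (z i).re (z i).im ((ql i).re - (z i).im * k) ((z i).re * k + (ql i).im) := by
  unfold Xx
  rw [posPair_iff (h.zre i hi), ze_re, ze_im, neg_neg]

/-- `ζ` at the end of the twist region. -/
theorem CrtM.ze_end (i : ℕ) (hi : i ≤ R) : ze z ql i (a i) = -(conj (qr i) + Real.pi * I) := by
  have h1 := congrArg conj (h.eq i hi)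
  rw [map_mul, map_add, map_mul, map_add, conj_I, conj_ofReal, Complex.conj_natCast] at h1
  unfold ze
  linear_combination -I * h1 + (conj (ql i) + conj (qr i)) * I_sq

theorem CrtM.X_end (i : ℕ) (hi : i < R) :
    Xx z ql i (a i) = conj (kp (S i) (cos (z (i + 1)))) / cos (conj (z i)) := by
  unfold Xx
  rw [h.ze_end i hi.le, sinh_neg, sinh_add_pi_mul_I, neg_neg]
  exact nbM (h.zre i hi.le) (h.sr i hi)

theorem CrtM.X_start (i : ℕ) (hi : i < R) :
    Xx z ql (i + 1) 0 = conj (kp (S i) (cos (z i))) / cos (conj (z (i + 1))) := by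
  unfold Xx ze
  rw [Nat.cast_zero, mul_zero, zero_mul, sub_zero]
  exact nbM (h.zre (i + 1) hi) (h.sl i hi)

/-- The layer before the end of a twist region. -/
theorem CrtM.X_end1 (i : ℕ) (hi : i < R) :
    Xx z ql i (a i - 1) = conj (kp (S i) (cos (z (i + 1))) + I * cosh (qr i)) := by
  have n1 : cos (conj (z i)) ≠ 0 := cos_ne (h.cre i hi.le)
  have n3 : sin (conj (z i)) ≠ 0 := sin_ne (h.cre i hi.le)
  have ha := h.ha i hi.le
  have e : ze z ql i (a i - 1) = -((conj (qr i) - conj (z i) * I) + Real.pi * I) := by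
    have e0 : ze z ql i (a i - 1) = ze z ql i (a i) + conj (z i) * I := by
      unfold ze
      rw [Nat.cast_sub (by omega)]
      push_cast
      ring
    rw [e0, h.ze_end i hi.le]; ring
  have h2 := nbM (h.zre i hi.le) (h.sr i hi)
  rw [div_eq_div_iff n3 n1] at h2
  unfold Xx
  rw [e, sinh_neg, sinh_add_pi_mul_I, neg_neg, sinh_sub, cosh_mul_I, sinh_mul_I,
    div_eq_iff n3, map_add, map_mul, conj_I, cosh_conj]
  linear_combination h2

/-- The first layer of a twist region. -/
theorem CrtM.X_start1 (i : ℕ) (hi : i < R) :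
    Xx z ql (i + 1) 1 = conj (kp (S i) (cos (z i)) + I * cosh (ql (i + 1))) := by
  have n3 : sin (conj (z (i + 1))) ≠ 0 := sin_ne (h.cre (i + 1) hi)
  have n1 : cos (conj (z (i + 1))) ≠ 0 := cos_ne (h.cre (i + 1) hi)
  have e : ze z ql (i + 1) 1 = conj (ql (i + 1)) - conj (z (i + 1)) * I := by
    unfold ze
    push_cast
    ring
  have h2 := nbM (h.zre (i + 1) hi) (h.sl i hi)
  rw [div_eq_div_iff n3 n1] at h2
  unfold Xx
  rw [e, sinh_sub, cosh_mul_I, sinh_mul_I, div_eq_iff n3, map_add, map_mul, conj_I, cosh_conj]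
  linear_combination h2

theorem CrtM.X_end_quad (i : ℕ) (hi : i < R) (hS : S i = false) :
    0 < (Xx z ql i (a i)).re ∧ (Xx z ql i (a i)).im < 0 := by
  rw [h.X_end i hi, hS, kp_false, conj_conj]
  obtain ⟨h1, h2, h3⟩ := h.cosz i hi.le
  obtain ⟨h1', h2', h3'⟩ := h.cosz (i + 1) hi
  exact quad h1 h2 h3 h1' h2' h3'

theorem CrtM.X_start_quad (i : ℕ) (hi : i < R) (hS : S i = false) :
    0 < (Xx z ql (i + 1) 0).re ∧ (Xx z ql (i + 1) 0).im < 0 := by
  rw [h.X_start i hi, hS, kp_false, conj_conj]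
  obtain ⟨h1, h2, h3⟩ := h.cosz i hi.le
  obtain ⟨h1', h2', h3'⟩ := h.cosz (i + 1) hi
  exact quad h1' h2' h3' h1 h2 h3

theorem CrtM.X_end1_quad (i : ℕ) (hi : i < R) (hS : S i = true) :
    0 < (Xx z ql i (a i - 1)).re ∧ (Xx z ql i (a i - 1)).im < 0 := by
  rw [h.X_end1 i hi, hS, kp_true, conj_re, conj_im]
  have := h.ssr i hi hS
  exact ⟨this.1, by linarith only [this.2]⟩

theorem CrtM.X_start1_quad (i : ℕ) (hi : i < R) (hS : S i = true) :
    0 < (Xx z ql (i + 1) 1).re ∧ (Xx z ql (i + 1) 1).im < 0 := by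
  rw [h.X_start1 i hi, hS, kp_true, conj_re, conj_im]
  have := h.ssl i hi hS
  exact ⟨this.1, by linarith only [this.2]⟩

theorem CrtM.X_pos (i k : ℕ) (hi : i ≤ R) (hk : 1 ≤ k) (hk2 : k ≤ a i - 1)
    (hf : ¬(i = 0 ∧ k = 1)) (hl : ¬(i = R ∧ k = a i - 1)) :
    0 < (Xx z ql i k).re ∧ (Xx z ql i k).im < 0 := by
  rw [h.X_iff i k hi]
  have ha := h.ha i hi
  have hz := h.zre i hi
  have hy := h.zim i hi
  have e1 := h.eq_re i hi
  have e2 := h.eq_im i hi
  rcases le_or_gt ((z i).re * k + (ql i).im) (Real.pi / 2) with hh | hh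
  · rcases Nat.eq_zero_or_pos i with h0 | hp
    · subst h0
      have hl0 : ql 0 = 0 := h.l0
      refine PosPair_half k hz.1 hz.2 hy (by rw [hl0]; simp) (by rw [hl0]; simp) hk
        (fun h1 => absurd ⟨rfl, h1⟩ hf) hh (fun h1 => ?_)
      rw [hl0] at h1
      simp at h1
    · obtain ⟨j, rfl⟩ : ∃ j, i = j + 1 := ⟨i - 1, by omega⟩
      rcases hS : S j with _ | _
      · refine PosPair_half k hz.1 hz.2 hy (h.lre j (by omega)).le (h.limo j (by omega) hS).le hk
          (fun _ => h.lre j (by omega)) hh (fun _ => ⟨h.limo j (by omega) hS, ?_⟩)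
        have h2 := ((h.X_iff (j + 1) 0 hi).1 (h.X_start_quad j (by omega) hS)).2
        simpa using h2
      · refine PosPair_from k hz.1 hz.2 hy (h.lim j (by omega)).1 hk hh ?_
        have h2 := (h.X_iff (j + 1) 1 hi).1 (h.X_start1_quad j (by omega) hS)
        simpa using h2
  · have hcast : ((a i - k : ℕ) : ℝ) = a i - k := by
      rw [Nat.cast_sub (by omega)]
    have e3 : (qr i).re - (z i).im * ((a i - k : ℕ) : ℝ) = -((ql i).re - (z i).im * k) := by
      rw [hcast]; linarith only [e2]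
    have e4 : (z i).re * ((a i - k : ℕ) : ℝ) + (qr i).im =
        Real.pi - ((z i).re * k + (ql i).im) := by
      rw [hcast]; linarith only [e1]
    rw [← PosPair.mirror, ← e3, ← e4]
    rcases Nat.lt_or_ge i R with hp | hp
    · rcases hS : S i with _ | _
      · refine PosPair_half (a i - k) hz.1 hz.2 hy (h.rre i hp).le (h.rimo i hp hS).le (by omega)
          (fun _ => h.rre i hp) (by rw [e4]; linarith only [hh]) (fun _ => ⟨h.rimo i hp hS, ?_⟩)
        have h2 := (h.X_iff i (a i) hi).1 (h.X_end_quad i hp hS)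
        rw [← PosPair.mirror] at h2
        have e5 : -((ql i).re - (z i).im * (a i)) = (qr i).re := by linarith only [e2]
        have e6 : Real.pi - ((z i).re * (a i) + (ql i).im) = (qr i).im := by linarith only [e1]
        rw [e5, e6] at h2
        exact h2.2
      · refine PosPair_from (a i - k) hz.1 hz.2 hy (h.rim i hp).1 (by omega)
          (by rw [e4]; linarith only [hh]) ?_
        have h2 := (h.X_iff i (a i - 1) hi).1 (h.X_end1_quad i hp hS)
        rw [← PosPair.mirror] at h2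
        have hc : ((a i - 1 : ℕ) : ℝ) = a i - 1 := by
          rw [Nat.cast_sub (by omega)]
          norm_num
        have e5 : -((ql i).re - (z i).im * ((a i - 1 : ℕ) : ℝ)) = (qr i).re - (z i).im := by
          rw [hc]
          linarith only [e2]
        have e6 : Real.pi - ((z i).re * ((a i - 1 : ℕ) : ℝ) + (ql i).im) =
            (z i).re + (qr i).im := by
          rw [hc]
          linarith only [e1]
        rw [e5, e6] at h2
        exact h2
    · have hiR : i = R := by omega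
      have hr0 : qr i = 0 := by rw [hiR]; exact h.rR
      refine PosPair_half (a i - k) hz.1 hz.2 hy (by rw [hr0]; simp) (by rw [hr0]; simp)
        (by omega) (fun h1 => absurd ⟨hiR, by omega⟩ hl) (by rw [e4]; linarith only [hh]) (fun h1 => ?_)
      rw [hr0] at h1
      simp at h1

theorem CrtM.X_first : Xx z ql 0 1 = -I := by
  have h1 := sin_ne (h.cre 0 (Nat.zero_le _))
  unfold Xx ze
  rw [h.l0, map_zero, zero_sub, Nat.cast_one, mul_one, mul_comm, sinh_neg, sinh_mul_I]
  field_simp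

theorem CrtM.X_last : Xx z ql R (a R - 1) = -I := by
  have h1 := sin_ne (h.cre R le_rfl)
  have h2 := h.ze_end R le_rfl
  have ha := h.ha R le_rfl
  have e : ze z ql R (a R - 1) = ze z ql R (a R) + conj (z R) * I := by
    unfold ze
    rw [Nat.cast_sub (by omega)]
    push_cast
    ring
  have e2 : ze z ql R (a R - 1) = -(-(conj (z R) * I) + Real.pi * I) := by
    rw [e, h2, h.rR, map_zero]; ring
  unfold Xx
  rw [e2, sinh_neg, sinh_add_pi_mul_I, sinh_neg, sinh_mul_I]
  field_simp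

theorem CrtM.X_ne (i k : ℕ) (hi : i ≤ R) (hk : k ≤ a i) (hf : i = 0 → 1 ≤ k)
    (hl : i = R → k ≤ a i - 1) : Xx z ql i k ≠ 0 := by
  have hne : ∀ x : ℂ, 0 < x.re ∧ x.im < 0 → x ≠ 0 := by
    rintro x hx rfl
    simp at hx
  by_cases c1 : i = 0 ∧ k = 1
  · obtain ⟨rfl, rfl⟩ := c1
    rw [h.X_first]; simp
  by_cases c2 : i = R ∧ k = a i - 1
  · obtain ⟨rfl, rfl⟩ := c2
    rw [h.X_last]; simp
  rcases Nat.eq_zero_or_pos k with rfl | hkp
  · obtain ⟨j, rfl⟩ : ∃ j, i = j + 1 := ⟨i - 1, by omega⟩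
    rw [h.X_start j (by omega)]
    have n1 := kp_ne (s := S j) (cos_ne (h.zre j (by omega)))
    exact div_ne_zero (by rwa [Ne, map_eq_zero]) (cos_ne (h.cre (j + 1) hi))
  · rcases Nat.lt_or_ge k (a i) with hka | hka
    · exact hne _ (h.X_pos i k hi hkp (by omega) c1 c2)
    · have hke : k = a i := by omega
      have hiR : i < R := by
        rcases Nat.lt_or_ge i R with hp | hp
        · exact hp
        · have := hl (by omega)
          have := h.ha i hi
          omega
      rw [hke, h.X_end i hiR]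
      have n1 := kp_ne (s := S i) (cos_ne (h.zre (i + 1) hiR))
      exact div_ne_zero (by rwa [Ne, map_eq_zero]) (cos_ne (h.cre i hi))

/-- The relation of the fans. -/
theorem CrtM.fan (i k : ℕ) (hi : i ≤ R) (hk : 1 ≤ k) (hk2 : k ≤ a i - 1)
    (hf : ¬(i = 0 ∧ k = 1)) (hl : ¬(i = R ∧ k = a i - 1)) :
    (1 - (S3.G.zz z ql i k)⁻¹) ^ 2 * S3.G.zz z ql i (k - 1) * S3.G.zz z ql i (k + 1) = 1 := by
  obtain ⟨k, rfl⟩ : ∃ k', k = k' + 1 := ⟨k - 1, by omega⟩
  have ha := h.ha i hi
  rw [Nat.add_sub_cancel]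
  have h1 := h.X_ne i k hi (by omega) (by omega) (by omega)
  have h2 := h.X_ne i (k + 1 + 1) hi (by omega) (by omega) (by omega)
  have h3 := X_rec z ql i k (sin_ne (h.cre i hi))
  have h4 := congrArg conj h3
  rw [map_mul, map_add, map_pow, map_one] at h4
  have h1' : conj (Xx z ql i k) ≠ 0 := by simpa using h1
  have h2' : conj (Xx z ql i (k + 2)) ≠ 0 := by simpa using h2
  unfold S3.G.zz
  rw [inv_neg, inv_inv, sub_neg_eq_add, add_comm 1, ← h4]
  field_simp

/-- The squares of the two sides of `sign`. -/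
theorem CrtM.sign_sq (i : ℕ) (hi : i < R) :
    (kp (S i) (cos (z i)) * (if S i then cosh (qr i) else conj (cosh (qr i)))) ^ 2 =
      (cos (z (i + 1)) * cosh (ql (i + 1))) ^ 2 := by
  have n1 : cos (z i) ≠ 0 := cos_ne (h.zre i hi.le)
  have n2 : cos (z (i + 1)) ≠ 0 := cos_ne (h.zre (i + 1) hi)
  have s1 : sinh (qr i) * cos (z i) = kp (S i) (cos (z (i + 1))) * sin (z i) := by
    rw [h.sr i hi, tan_eq_sin_div_cos]
    field_simp
  have s2 : sinh (ql (i + 1)) * cos (z (i + 1)) = kp (S i) (cos (z i)) * sin (z (i + 1)) := by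
    rw [h.sl i hi, tan_eq_sin_div_cos]
    field_simp
  have q1 := cosh_sq (qr i)
  have q2 := cosh_sq (ql (i + 1))
  have t1 := sin_sq_add_cos_sq (z i)
  have t2 := sin_sq_add_cos_sq (z (i + 1))
  rcases hS : S i with _ | _
  · rw [hS] at s1 s2
    simp only [kp_false, Bool.false_eq_true, if_false] at s1 s2 ⊢
    have s1' := congrArg conj s1
    have q1' := congrArg conj q1
    have t1' := congrArg conj t1
    simp only [map_mul, map_add, map_pow, map_one, conj_conj] at s1' q1' t1'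
    have s1'' : (conj (sinh (qr i)) * conj (cos (z i))) ^ 2 =
        (cos (z (i + 1)) * conj (sin (z i))) ^ 2 := by rw [s1']
    have s2' : (sinh (ql (i + 1)) * cos (z (i + 1))) ^ 2 =
        (conj (cos (z i)) * sin (z (i + 1))) ^ 2 := by rw [s2]
    linear_combination conj (cos (z i)) ^ 2 * q1' - cos (z (i + 1)) ^ 2 * q2 + s1'' - s2' +
      cos (z (i + 1)) ^ 2 * t1' - conj (cos (z i)) ^ 2 * t2
  · rw [hS] at s1 s2
    simp only [kp_true, if_true] at s1 s2 ⊢
    have s1' : (sinh (qr i) * cos (z i)) ^ 2 = (cos (z (i + 1)) * sin (z i)) ^ 2 := by rw [s1]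
    have s2' : (sinh (ql (i + 1)) * cos (z (i + 1))) ^ 2 =
        (cos (z i) * sin (z (i + 1))) ^ 2 := by rw [s2]
    linear_combination cos (z i) ^ 2 * q1 - cos (z (i + 1)) ^ 2 * q2 + s1' - s2' +
      cos (z (i + 1)) ^ 2 * t1 - cos (z i) ^ 2 * t2

theorem CrtM.sign_opp (i : ℕ) (hi : i < R) (hS : S i = false) :
    conj (cos (z i)) * conj (cosh (qr i)) = cos (z (i + 1)) * cosh (ql (i + 1)) := by
  obtain ⟨h1, h2, h3⟩ := h.cosz i hi.le
  obtain ⟨h1', h2', h3'⟩ := h.cosz (i + 1) hi
  have key := h.sign_sq i hi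
  rw [hS] at key
  simp only [kp_false, Bool.false_eq_true, if_false] at key
  rcases sq_eq_sq_iff_eq_or_eq_neg.1 key with h4 | h4
  · exact h4
  · exfalso
    rw [← cosh_conj] at h4
    have c1 : 0 < (cosh (conj (qr i))).re ∧ (cosh (conj (qr i))).im < 0 := by
      rw [(cosh_split _).1, (cosh_split _).2, conj_re, conj_im, Real.cos_neg, Real.sin_neg]
      have h5 := h.rim i hi
      refine ⟨mul_pos (Real.cosh_pos _)
        (Real.cos_pos_of_mem_Ioo ⟨h5.1, h5.2⟩), ?_⟩
      rw [mul_neg]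
      exact neg_neg_of_pos (mul_pos (Real.sinh_pos_iff.2 (h.rre i hi))
        (Real.sin_pos_of_pos_of_lt_pi (h.rimo i hi hS) (by linarith only [h5.2, h5.1])))
    have c2 : 0 < (cosh (ql (i + 1))).re ∧ 0 < (cosh (ql (i + 1))).im := by
      rw [(cosh_split _).1, (cosh_split _).2]
      have h5 := h.lim i hi
      exact ⟨mul_pos (Real.cosh_pos _)
        (Real.cos_pos_of_mem_Ioo ⟨h5.1, h5.2⟩),
        mul_pos (Real.sinh_pos_iff.2 (h.lre i hi))
        (Real.sin_pos_of_pos_of_lt_pi (h.limo i hi hS) (by linarith only [h5.2, h5.1]))⟩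
    have h6 := congrArg Complex.re h4
    rw [mul_re, neg_re, mul_re, conj_re, conj_im] at h6
    have p1 := mul_pos h1 c1.1
    have p2 := mul_pos (neg_pos.2 h2) (neg_pos.2 c1.2)
    have p3 := mul_pos h1' c2.1
    have p4 := mul_pos (neg_pos.2 h2') c2.2
    linarith only [p4, p3, p2, p1, h6]

theorem CrtM.sign_same (i : ℕ) (hi : i < R) (hS : S i = true) :
    cos (z i) * cosh (qr i) = cos (z (i + 1)) * cosh (ql (i + 1)) := by
  obtain ⟨h1, h2, h3⟩ := h.cosz i hi.le
  obtain ⟨h1', h2', h3'⟩ := h.cosz (i + 1) hi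
  have key := h.sign_sq i hi
  rw [hS] at key
  simp only [kp_true, if_true] at key
  rcases sq_eq_sq_iff_eq_or_eq_neg.1 key with h4 | h4
  · exact h4
  · exfalso
    obtain ⟨l1, l2⟩ := h.ssl i hi hS
    obtain ⟨r1, r2⟩ := h.ssr i hi hS
    -- `Re (C conj κ) > 0`
    have gen : ∀ κ C : ℂ, 0 < κ.re → κ.im < 0 → 0 < (κ + I * C).re → 0 < (κ + I * C).im →
        0 < (C * conj κ).re := by
      intro κ C c1 c2 c3 c4
      rw [mul_re, conj_re, conj_im]
      rw [add_re, I_mul_re] at c3
      rw [add_im, I_mul_im] at c4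
      have e1 := mul_pos c4 c1
      have e2 := mul_pos c3 (neg_pos.2 c2)
      linarith only [e2, e1]
    have g1 := gen _ _ h1' h2' r1 r2
    have g2 := gen _ _ h1 h2 l1 l2
    have m1 : cosh (qr i) * conj (cos (z (i + 1))) * (normSq (cos (z i)) : ℂ) =
        -(cosh (ql (i + 1)) * conj (cos (z i)) * (normSq (cos (z (i + 1))) : ℂ)) := by
      rw [← mul_conj (cos (z i)), ← mul_conj (cos (z (i + 1)))]
      linear_combination conj (cos (z i)) * conj (cos (z (i + 1))) * h4
    have m2 := congrArg Complex.re m1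
    rw [neg_re, re_mul_ofReal, re_mul_ofReal] at m2
    have n1 : 0 < normSq (cos (z i)) := normSq_pos.2 (cos_ne (h.zre i hi.le))
    have n2 : 0 < normSq (cos (z (i + 1))) := normSq_pos.2 (cos_ne (h.zre (i + 1) hi))
    have p1 := mul_pos g1 n1
    have p2 := mul_pos g2 n2
    linarith only [p2, p1, m2]

theorem CrtM.hinge (i : ℕ) (hi : i < R) (hS : S i = false) :
    Xx z ql i (a i - 1) * conj (Xx z ql (i + 1) 1) =
      Xx z ql i (a i) + (Xx z ql i (a i))⁻¹ := by
  have n1 : cos (conj (z i)) ≠ 0 := cos_ne (h.cre i hi.le)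
  have n2 : cos (z (i + 1)) ≠ 0 := cos_ne (h.zre (i + 1) hi)
  have n3 : sin (conj (z i)) ≠ 0 := sin_ne (h.cre i hi.le)
  have x1 : Xx z ql i (a i - 1) = cos (z (i + 1)) - I * cosh (conj (qr i)) := by
    rw [h.X_end1 i hi, hS, kp_false, map_add, conj_conj, map_mul, conj_I, cosh_conj]
    ring
  have x2 : conj (Xx z ql (i + 1) 1) = cos (conj (z i)) + I * cosh (ql (i + 1)) := by
    rw [h.X_start1 i hi, hS, kp_false, conj_conj, cos_conj]
  have hs := h.sign_opp i hi hS
  rw [← cos_conj, ← cosh_conj] at hs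
  have s1 : sinh (conj (qr i)) * cos (conj (z i)) = cos (z (i + 1)) * sin (conj (z i)) := by
    have h2 := nbM (h.zre i hi.le) (h.sr i hi)
    rw [hS, kp_false, conj_conj, div_eq_div_iff n3 n1] at h2
    exact h2
  have s1' : (sinh (conj (qr i)) * cos (conj (z i))) ^ 2 =
      (cos (z (i + 1)) * sin (conj (z i))) ^ 2 := by rw [s1]
  have q1 := cosh_sq (conj (qr i))
  have t1 := sin_sq_add_cos_sq (conj (z i))
  rw [x1, x2, h.X_end i hi, hS, kp_false, conj_conj, inv_div]
  have key : cosh (conj (qr i)) * cosh (ql (i + 1)) * (cos (z (i + 1)) * cos (conj (z i))) =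
      cos (conj (z i)) ^ 2 + cos (z (i + 1)) ^ 2 - cos (conj (z i)) ^ 2 * cos (z (i + 1)) ^ 2 := by
    linear_combination -(cos (conj (z i)) * cosh (conj (qr i))) * hs +
      cos (conj (z i)) ^ 2 * q1 + s1' + cos (z (i + 1)) ^ 2 * t1
  have e3 : (cos (z (i + 1)) - I * cosh (conj (qr i))) * (cos (conj (z i)) + I * cosh (ql (i + 1)))
      = cos (z (i + 1)) * cos (conj (z i)) + cosh (conj (qr i)) * cosh (ql (i + 1)) := by
    linear_combination I * hs * (-1) - cosh (conj (qr i)) * cosh (ql (i + 1)) * I_sq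
  rw [e3, div_add_div _ _ n1 n2, eq_div_iff (mul_ne_zero n1 n2)]
  linear_combination key

/-- The relation of the two layers at a hinge. -/
theorem CrtM.opp_start (i : ℕ) (hi : i < R) (hS : S i = false) :
    S3.G.zz z ql (i + 1) 0 * conj (S3.G.zz z ql i (a i)) = 1 := by
  have n1 : cos (conj (z i)) ≠ 0 := cos_ne (h.cre i hi.le)
  have n2 : cos (z (i + 1)) ≠ 0 := cos_ne (h.zre (i + 1) hi)
  have e : conj (Xx z ql (i + 1) 0) = (Xx z ql i (a i))⁻¹ := by
    rw [h.X_start i hi, h.X_end i hi, hS, kp_false, kp_false, conj_conj, conj_conj, inv_div,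
      map_div₀, ← cos_conj, ← cos_conj, conj_conj]
  have n3 : Xx z ql i (a i) ≠ 0 := by
    rw [h.X_end i hi, hS, kp_false, conj_conj]
    exact div_ne_zero n2 n1
  unfold S3.G.zz
  rw [e, map_neg, map_inv₀, map_pow, conj_conj]
  field_simp

theorem CrtM.opp_hinge (i : ℕ) (hi : i < R) (hS : S i = false) :
    (1 - S3.G.zz z ql i (a i)) ^ 2 * S3.G.zz z ql i (a i - 1) * conj (S3.G.zz z ql (i + 1) 1) =
      -S3.G.zz z ql i (a i) := by
  have ha := h.ha i hi.le
  have ha' := h.ha (i + 1) hi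
  have n1 : conj (Xx z ql i (a i)) ≠ 0 := by
    simpa using h.X_ne i (a i) hi.le le_rfl (by omega) (by omega)
  have n2 : conj (Xx z ql i (a i - 1)) ≠ 0 := by
    simpa using h.X_ne i (a i - 1) hi.le (by omega) (by omega) (by omega)
  have n3 : Xx z ql (i + 1) 1 ≠ 0 :=
    h.X_ne (i + 1) 1 hi (by omega) (by omega) (by omega)
  have h1 := congrArg conj (h.hinge i hi hS)
  rw [map_mul, conj_conj, map_add, map_inv₀] at h1
  unfold S3.G.zz
  rw [map_neg, map_inv₀, map_pow, conj_conj]
  generalize conj (Xx z ql i (a i)) = x at *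
  generalize conj (Xx z ql i (a i - 1)) = y at *
  generalize Xx z ql (i + 1) 1 = w at *
  have h2 : y * w * x = x ^ 2 + 1 := by
    rw [h1]
    field_simp
  have h3 : (x ^ 2 + 1) ^ 2 = (y * w * x) ^ 2 := by rw [h2]
  field_simp
  linear_combination h3

/-- The relation of the shapes at an edge between twist regions of the same sign. -/
theorem CrtM.same_start (i : ℕ) (hi : i < R) (hS : S i = true) :
    S3.G.zz z ql (i + 1) 0 * S3.G.zz z ql i (a i) = 1 := by
  have n1 : cos (z i) ≠ 0 := cos_ne (h.zre i hi.le)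
  have n2 : cos (z (i + 1)) ≠ 0 := cos_ne (h.zre (i + 1) hi)
  unfold S3.G.zz
  rw [h.X_start i hi, h.X_end i hi, hS, kp_true, kp_true, cos_conj, cos_conj, map_div₀,
    map_div₀, conj_conj, conj_conj]
  field_simp

theorem CrtM.same_next (i : ℕ) (hi : i < R) (hS : S i = true) :
    S3.G.zz z ql i (a i - 1) = -(S3.G.zz z ql i (a i) * S3.G.zz z ql (i + 1) 1) := by
  have n1 : cos (z i) ≠ 0 := cos_ne (h.zre i hi.le)
  have n2 : cos (z (i + 1)) ≠ 0 := cos_ne (h.zre (i + 1) hi)
  have n3 : cos (z i) + I * cosh (ql (i + 1)) ≠ 0 := by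
    intro h0
    have := (h.ssl i hi hS).1
    rw [h0] at this
    simp at this
  have n4 : cos (z (i + 1)) + I * cosh (qr i) ≠ 0 := by
    intro h0
    have := (h.ssr i hi hS).1
    rw [h0] at this
    simp at this
  have hs := h.sign_same i hi hS
  have hs2 : (cos (z i) + I * cosh (ql (i + 1))) * cos (z (i + 1)) =
      (cos (z (i + 1)) + I * cosh (qr i)) * cos (z i) := by
    linear_combination -I * hs
  have hs3 : ((cos (z i) + I * cosh (ql (i + 1))) * cos (z (i + 1))) ^ 2 =
      ((cos (z (i + 1)) + I * cosh (qr i)) * cos (z i)) ^ 2 := by rw [hs2]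
  unfold S3.G.zz
  rw [h.X_start1 i hi, h.X_end1 i hi, h.X_end i hi, hS, kp_true, kp_true, cos_conj, map_div₀,
    conj_conj, conj_conj, conj_conj, conj_conj]
  generalize cos (z i) + I * cosh (ql (i + 1)) = x at *
  generalize cos (z (i + 1)) + I * cosh (qr i) = y at *
  field_simp
  linear_combination -hs3

theorem CrtM.bw_same (i : ℕ) (hi : i < R) (hS : S i = true) :
    blochWigner (S3.G.zz z ql (i + 1) 0) = -blochWigner (S3.G.zz z ql i (a i)) := by
  have h1 := h.same_start i hi hS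
  rw [eq_inv_of_mul_eq_one_left h1, SWpath_inv]

/-- **The volume of the link of a mixed chain in terms of the critical point.** -/
theorem CrtM.volume (r : ℕ → ℤ) (hra : ∀ i, i ≤ R → (r i).natAbs = a i)
    (hrs : ∀ i, i < R → (S i = true ↔ 0 < r i * r (i + 1))) :
    IsGreatest (structureVolumes (conwayH ((List.range (R + 1)).map r)))
      (2 * ∑ i ∈ Finset.range (R + 1), ∑ k ∈ Finset.Icc 1 (a i - 1),
          blochWigner (S3.G.zz z ql i k) +
        2 * ∑ i ∈ Finset.range R, if S i then 0 else blochWigner (S3.G.zz z ql i (a i))) := by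
  have hR := h.hR
  have hr0 : ∀ i, i < R → r i * r (i + 1) ≠ 0 := by
    intro i hi h0
    rcases mul_eq_zero.1 h0 with h1 | h1
    · have h2 := hra i hi.le
      rw [h1] at h2
      have := h.ha i hi.le
      simp at h2
      omega
    · have h2 := hra (i + 1) hi
      rw [h1] at h2
      have := h.ha (i + 1) hi
      simp at h2
      omega
  have hsh : ∀ i k, i ≤ R → Xx z ql i k = -I → S3.G.zz z ql i k = 1 := by
    intro i k _ e
    unfold S3.G.zz
    rw [e, map_neg, conj_I, neg_neg, I_sq]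
    norm_num
  have key := chain_geoH r R h.hR
    (fun i hi => by rw [hra i (by omega)]; exact h.ha i (by omega))
    (fun i h1 h2 h3 h4 => by
      obtain ⟨j, rfl⟩ : ∃ j, i = j + 1 := ⟨i - 1, by omega⟩
      rw [hra (j + 1) (by omega)]
      rw [Nat.add_sub_cancel] at h3
      exact h.hmid j (by omega) ((hrs j (by omega)).2 h3) ((hrs (j + 1) (by omega)).2 h4))
    (fun h1 => by
      rw [hra 0 (by omega)]
      exact h.hfst ((hrs 0 (by omega)).2 h1))
    (fun h1 => by
      obtain ⟨j, hj⟩ : ∃ j, R = j + 1 := ⟨R - 1, by omega⟩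
      rw [hra R le_rfl]
      subst hj
      rw [Nat.add_sub_cancel] at h1
      exact h.hlst j rfl ((hrs j (by omega)).2 h1))
    hr0 (S3.G.zz z ql)
    (fun i k hi h1 h2 h3 h4 => by
      rw [hra i (by omega)] at h2 h4
      exact im_shape (h.X_pos i k (by omega) h1 h2 h3 h4))
    (hsh 0 1 (by omega) h.X_first)
    (by rw [hra R le_rfl]; exact hsh R _ le_rfl h.X_last)
    (fun i k hi h1 h2 h3 h4 => by
      rw [hra i (by omega)] at h2 h4
      exact h.fan i k (by omega) h1 h2 h3 h4)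
    (fun i hi h1 => by
      have hS : S i = false := by
        rcases hS : S i with _ | _
        · rfl
        · have := (hrs i hi).1 hS
          omega
      rw [hra i hi.le]
      exact ⟨im_shape (h.X_end_quad i hi hS), h.opp_start i hi hS, h.opp_hinge i hi hS⟩)
    (fun i hi h1 => by
      have hS : S i = true := (hrs i hi).2 h1
      rw [hra i hi.le]
      exact ⟨h.same_start i hi hS, h.same_next i hi hS⟩)
  have e1 : ∑ i ∈ Finset.range (R + 1), ∑ k ∈ Finset.Icc 1 ((r i).natAbs - 1),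
      blochWigner (S3.G.zz z ql i k) = ∑ i ∈ Finset.range (R + 1), ∑ k ∈ Finset.Icc 1 (a i - 1),
      blochWigner (S3.G.zz z ql i k) :=
    Finset.sum_congr rfl fun i hi => by
      rw [hra i (by have := Finset.mem_range.1 hi; omega)]
  have e2 : ∑ i ∈ Finset.range R, (if r i * r (i + 1) < 0 then
      blochWigner (S3.G.zz z ql i ((r i).natAbs)) else 0) =
      ∑ i ∈ Finset.range R, if S i then 0 else blochWigner (S3.G.zz z ql i (a i)) :=
    Finset.sum_congr rfl fun i hi => by
      have hi' := Finset.mem_range.1 hi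
      rw [hra i hi'.le]
      rcases hS : S i with _ | _
      · have h1 : ¬ 0 < r i * r (i + 1) := fun h0 => by
          have := (hrs i hi').2 h0
          rw [hS] at this
          exact Bool.false_ne_true this
        have := hr0 i hi'
        rw [if_pos (by omega)]
        simp
      · have := (hrs i hi').1 hS
        rw [if_neg (by omega)]
        simp
  rw [e1, e2] at key
  exact key

end crt

end Pool.Agent.S5.G
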