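import Pool.Agent.S5.G.NodeM

/-!
# Mixed chains: the nodes in the frame of the vertex
-/

set_option autoImplicit false

namespace Pool.Agent.S5.G

open Complex Pool.Agent.H63.VC Pool.Agent.H63.VC3 Pool.Agent.H63.VC5 Pool.Agent.H63.GV Pool.Agent.S3
open Pool.Agent.S3.G (arg_up arg_quad pi_ne fe_lim_zero Yy sin_ne cos_ne)
open Filter Topology
open scoped ComplexConjugate

theorem abs_lt_one_of {x : ℝ} (h : 0 < x ∧ x < 1) : |x| < 1 := by
  rw [abs_lt]
  constructor <;> linarith [h.1, h.2]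

theorem abs_lt_one_of' {x : ℝ} (h : -(1 / 2) < x ∧ x < 1 / 2) : |x| < 1 := by
  rw [abs_lt]
  constructor <;> linarith [h.1, h.2]

/-! ### The slots -/

theorem N2.sfp {p r z : ℂ} (h : N2 p r z) : SF p z := ⟨h.sp, Or.inl h.lp.ne, h.e1, h.e2⟩

theorem N2.sfr {p r z : ℂ} (h : N2 p r z) : SF r z := ⟨h.sr, Or.inl h.lr.ne, h.e3, h.e4⟩

theorem N3.sfp {p r z : ℂ} (h : N3 p r z) : SF p z := ⟨h.sp, Or.inl h.lp.ne, h.e1, h.e2⟩

theorem N3.sfr {p r z : ℂ} (h : N3 p r z) : SF r z := ⟨h.sr, Or.inl h.lr.ne, h.e3, h.e4⟩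

theorem N4.sfp {p r z : ℂ} (h : N4 p r z) : SF p z :=
  ⟨h.sp, Or.inr ⟨h.dp, by linarith [h.sp.ymv.2]⟩, h.e1, h.e2⟩

theorem N4.sfr {p r z : ℂ} (h : N4 p r z) : SF r z :=
  ⟨h.sr, Or.inr ⟨h.dr, by linarith [h.sr.ymv.2]⟩, h.e3, h.e4⟩

/-- The domains of the potential with integration variable. -/
theorem SF.vd {p r z : ℂ} (hp : SF p z) (hr : SF r z) (fl : Bool) :
    Fd Ty.vn fl (z / Real.pi) (sy p z) (sy r z) := ⟨hp.dm, hp.dp, hr.dm, hr.dp⟩

/-- The equation of a vertex. -/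
theorem SF.dv {p r z : ℂ} (hp : SF p z) (hr : SF r z) {n : ℂ}
    (hz : n * z = Real.pi + I * (p + r)) :
    2 * Real.pi * I * (2 * (-n / 2) * (z / Real.pi) + 1) +
      (he (sy p z - z / Real.pi) - he (sy p z + z / Real.pi)) +
      (he (sy r z - z / Real.pi) - he (sy r z + z / Real.pi)) = 0 := by
  rw [hp.e1, hp.e2, hr.e1, hr.e2]
  linear_combination (-2 * n) * v_mul z - 2 * I * hz - 2 * (p + r) * I_sq

/-! ### Two half twists -/

theorem O2.node {p r z : ℂ} (h : O2 p r) (hz : 2 * z = Real.pi + I * (p + r)) (fl : Bool)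
    (o : ℂ) : NodeF (-2) Ty.cl fl o (sy p z) (sy r z) (z / Real.pi) (-(Real.pi * I / 2)) := by
  have hN := h.N2 hz
  have hf : fdom (sy p z + sy r z) := Or.inr hN.ab
  refine ⟨hf, hN.sfp.vd hN.sfr fl, ?_, ?_, fun h0 => absurd rfl h0, ?_,
    fun _ => abs_lt_one_of hN.ab, fun h0 => by simp at h0, fun h0 => by simp at h0,
    fun h0 => by simp at h0⟩
  · show HasDerivAt (fun w => pC (-1) w (sy r z)) _ _
    refine (pC_da (-1) hf).congr_deriv ?_
    push_cast
    linear_combination -hN.da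
  · show HasDerivAt (fun w => pC (-1) (sy p z) w) _ _
    refine (pC_db (-1) hf).congr_deriv ?_
    push_cast
    linear_combination -hN.db
  · show pC (-1) _ _ = _
    have := h.value hz
    rw [show ((-2 : ℤ) : ℝ) / 2 = -1 by norm_num, this]
    ring

theorem O2.node' {p r z : ℂ} (h : O2 p r) (hz : 2 * z = Real.pi + I * (p + r)) (fl : Bool)
    (o : ℂ) : NodeF (-2) Ty.cl fl o (sy r z) (sy p z) (z / Real.pi) (-(Real.pi * I / 2)) := by
  have hN := h.N2 hz
  have hf : fdom (sy r z + sy p z) := by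
    rw [add_comm]
    exact Or.inr hN.ab
  have hab := hN.ab
  rw [add_comm] at hab
  refine ⟨hf, hN.sfr.vd hN.sfp fl, ?_, ?_, fun h0 => absurd rfl h0, ?_,
    fun _ => abs_lt_one_of hab, fun h0 => by simp at h0, fun h0 => by simp at h0,
    fun h0 => by simp at h0⟩
  · show HasDerivAt (fun w => pC (-1) w (sy p z)) _ _
    refine (pC_da (-1) hf).congr_deriv ?_
    push_cast
    rw [add_comm (sy r z)]
    linear_combination -hN.db
  · show HasDerivAt (fun w => pC (-1) (sy r z) w) _ _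
    refine (pC_db (-1) hf).congr_deriv ?_
    push_cast
    rw [add_comm (sy r z)]
    linear_combination -hN.da
  · show pC (-1) _ _ = _
    have h1 := h.value hz
    have h2 : pC (-1) (sy r z) (sy p z) = pC (-1) (sy p z) (sy r z) := by
      unfold pC qC
      rw [add_comm (sy r z)]
      ring
    have h3 : pV (-1) (z / Real.pi) (sy r z) (sy p z) = pV (-1) (z / Real.pi) (sy p z) (sy r z) := by
      unfold pV
      ring
    rw [show ((-2 : ℤ) : ℝ) / 2 = -1 by norm_num, h2, h3, h1]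
    ring

/-! ### Three half twists -/

theorem O3.node {p r z : ℂ} (h : O3 p r) (hz : 3 * z = Real.pi + I * (p + r)) :
    NodeF (-3) Ty.zn false (zz3 p r z) (sy p z) (sy r z) (z / Real.pi) (Real.pi * I / 4) := by
  have hN := h.N3 hz
  have hf : fdom (sy p z - zz3 p r z) := Or.inr hN.g0
  have hf' : fdom (zz3 p r z + sy r z) := Or.inr hN.g1
  have hb : |(sy r z).re| < 1 / 2 := by
    rw [abs_lt]
    constructor <;> linarith [hN.sr.sy_re.1, hN.b0]
  have h3 : |(-3 : ℤ)| = 3 := rfl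
  refine ⟨⟨hf, hf'⟩, hN.sfp.vd hN.sfr false, ?_, ?_, fun _ => ?_, ?_,
    fun h0 => by simp at h0, fun _ => ⟨abs_lt_one_of hN.g0, abs_lt_one_of hN.g1, hN.g2⟩,
    fun _ _ => hb, fun h0 => by simp at h0⟩
  · show HasDerivAt (fun w => pB (-1) w (zz3 p r z) + pH (-1) (zz3 p r z) (sy r z)) _ _
    refine ((pB_dy (-1) hf).add_const _).congr_deriv ?_
    push_cast
    linear_combination -hN.da
  · show HasDerivAt (fun w => pB (-1) (sy p z) (zz3 p r z) + pH (-1) (zz3 p r z) w) _ _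
    refine ((pH_db (-1) hf' hb).const_add _).congr_deriv ?_
    push_cast
    linear_combination -hN.db
  · show HasDerivAt (fun w => pB (-1) (sy p z) w + pH (-1) w (sy r z)) _ _
    refine ((pB_dz (-1) hf).add (pH_dz (-1) hf' hN.g2)).congr_deriv ?_
    push_cast
    linear_combination hN.dz
  · show pB (-1) _ _ + pH (-1) _ _ = _
    have := h.value hz
    rw [show ((-3 : ℤ) : ℝ) / 2 = -(3 / 2) by norm_num, this]
    ring

theorem O3.node' {p r z : ℂ} (h : O3 p r) (hz : 3 * z = Real.pi + I * (p + r)) :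
    NodeF (-3) Ty.zn true (zz3 p r z) (sy r z) (sy p z) (z / Real.pi) (Real.pi * I / 4) := by
  have hN := h.N3 hz
  have hf : fdom (sy p z - zz3 p r z) := Or.inr hN.g0
  have hf' : fdom (zz3 p r z + sy r z) := Or.inr hN.g1
  have hb : |(sy r z).re| < 1 / 2 := by
    rw [abs_lt]
    constructor <;> linarith [hN.sr.sy_re.1, hN.b0]
  refine ⟨⟨hf, hf'⟩, hN.sfr.vd hN.sfp true, ?_, ?_, fun _ => ?_, ?_,
    fun h0 => by simp at h0, fun _ => ⟨abs_lt_one_of hN.g0, abs_lt_one_of hN.g1, hN.g2⟩,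
    fun _ _ => hb, fun h0 => by simp at h0⟩
  · show HasDerivAt (fun w => pB (-1) (sy p z) (zz3 p r z) + pH (-1) (zz3 p r z) w) _ _
    refine ((pH_db (-1) hf' hb).const_add _).congr_deriv ?_
    push_cast
    linear_combination -hN.db
  · show HasDerivAt (fun w => pB (-1) w (zz3 p r z) + pH (-1) (zz3 p r z) (sy r z)) _ _
    refine ((pB_dy (-1) hf).add_const _).congr_deriv ?_
    push_cast
    linear_combination -hN.da
  · show HasDerivAt (fun w => pB (-1) (sy p z) w + pH (-1) w (sy r z)) _ _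
    refine ((pB_dz (-1) hf).add (pH_dz (-1) hf' hN.g2)).congr_deriv ?_
    push_cast
    linear_combination hN.dz
  · show pB (-1) _ _ + pH (-1) _ _ = _
    have h1 := h.value hz
    have h3 : pV (-(3 / 2)) (z / Real.pi) (sy r z) (sy p z) =
        pV (-(3 / 2)) (z / Real.pi) (sy p z) (sy r z) := by
      unfold pV
      ring
    rw [show ((-3 : ℤ) : ℝ) / 2 = -(3 / 2) by norm_num, h3, h1]
    ring

/-! ### Four half twists -/

theorem O4.node {p r z : ℂ} (h : O4 p r) (hz : 4 * z = Real.pi + I * (p + r)) :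
    NodeF (-4) Ty.zn false (zz4 p r z) (sy p z) (sy r z) (z / Real.pi)
      (-(Real.pi * I / 2)) := by
  have hN := h.N4 hz
  have hf : fdom (sy p z - zz4 p r z) := Or.inr hN.g0
  have hf' : fdom (zz4 p r z + sy r z) := Or.inr hN.g1
  have h3 : ¬ |(-4 : ℤ)| = 3 := by decide
  refine ⟨⟨hf, hf'⟩, hN.sfp.vd hN.sfr false, ?_, ?_, fun _ => ?_, ?_,
    fun h0 => by simp at h0, fun _ => ⟨abs_lt_one_of hN.g0, abs_lt_one_of hN.g1, hN.g2⟩,
    fun _ h0 => absurd h0 h3, fun h0 => by simp at h0⟩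
  · show HasDerivAt (fun w => pB (-1) w (zz4 p r z) + pC (-1) (zz4 p r z) (sy r z)) _ _
    refine ((pB_dy (-1) hf).add_const _).congr_deriv ?_
    push_cast
    linear_combination -hN.da
  · show HasDerivAt (fun w => pB (-1) (sy p z) (zz4 p r z) + pC (-1) (zz4 p r z) w) _ _
    refine ((pC_db (-1) hf').const_add _).congr_deriv ?_
    push_cast
    linear_combination -hN.db
  · show HasDerivAt (fun w => pB (-1) (sy p z) w + pC (-1) w (sy r z)) _ _
    refine ((pB_dz (-1) hf).add (pC_da (-1) hf')).congr_deriv ?_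
    push_cast
    linear_combination hN.dz
  · show pB (-1) _ _ + pC (-1) _ _ = _
    have := h.value hz
    rw [show ((-4 : ℤ) : ℝ) / 2 = -2 by norm_num, this]
    ring

theorem O4.node' {p r z : ℂ} (h : O4 p r) (hz : 4 * z = Real.pi + I * (p + r)) :
    NodeF (-4) Ty.zn true (zz4 p r z) (sy r z) (sy p z) (z / Real.pi)
      (-(Real.pi * I / 2)) := by
  have hN := h.N4 hz
  have hf : fdom (sy p z - zz4 p r z) := Or.inr hN.g0
  have hf' : fdom (zz4 p r z + sy r z) := Or.inr hN.g1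
  have h3 : ¬ |(-4 : ℤ)| = 3 := by decide
  refine ⟨⟨hf, hf'⟩, hN.sfr.vd hN.sfp true, ?_, ?_, fun _ => ?_, ?_,
    fun h0 => by simp at h0, fun _ => ⟨abs_lt_one_of hN.g0, abs_lt_one_of hN.g1, hN.g2⟩,
    fun _ h0 => absurd h0 h3, fun h0 => by simp at h0⟩
  · show HasDerivAt (fun w => pB (-1) (sy p z) (zz4 p r z) + pC (-1) (zz4 p r z) w) _ _
    refine ((pC_db (-1) hf').const_add _).congr_deriv ?_
    push_cast
    linear_combination -hN.db
  · show HasDerivAt (fun w => pB (-1) w (zz4 p r z) + pC (-1) (zz4 p r z) (sy r z)) _ _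
    refine ((pB_dy (-1) hf).add_const _).congr_deriv ?_
    push_cast
    linear_combination -hN.da
  · show HasDerivAt (fun w => pB (-1) (sy p z) w + pC (-1) w (sy r z)) _ _
    refine ((pB_dz (-1) hf).add (pC_da (-1) hf')).congr_deriv ?_
    push_cast
    linear_combination hN.dz
  · show pB (-1) _ _ + pC (-1) _ _ = _
    have h1 := h.value hz
    have h3 : pV (-2) (z / Real.pi) (sy r z) (sy p z) =
        pV (-2) (z / Real.pi) (sy p z) (sy r z) := by
      unfold pV
      ring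
    rw [show ((-4 : ℤ) : ℝ) / 2 = -2 by norm_num, h3, h1]
    ring

/-! ### More half twists -/

theorem SF.node {p r z : ℂ} (hp : SF p z) (hr : SF r z) {n : ℕ}
    (hz : (n : ℂ) * z = Real.pi + I * (p + r)) (fl : Bool) :
    NodeF (-(n : ℤ)) Ty.vn fl (z / Real.pi) (sy p z) (sy r z) (z / Real.pi) 0 := by
  have vd := hp.vd hr fl
  obtain ⟨v1, v2, v3, v4⟩ := vd
  refine ⟨hp.vd hr fl, hp.vd hr fl, pV_da _ v1 v2, pV_db _ v3 v4, fun _ => ?_,
    (add_zero _).symm, fun h0 => by simp at h0, fun h0 => by simp at h0,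
    fun h0 => by simp at h0, fun _ => ⟨abs_lt_one_of' hp.sl.ymv, abs_lt_one_of hp.sl.yv,
      abs_lt_one_of' hr.sl.ymv, abs_lt_one_of hr.sl.yv⟩⟩
  refine (pV_dv _ v1 v2 v3 v4).congr_deriv ?_
  have := hp.dv hr hz
  push_cast
  linear_combination this

end Pool.Agent.S5.G
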