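import Pool.Agent.S5.G.Nd3V
import Pool.Agent.S5.G.Vol

/-!
# Mixed chains: the slots of the critical point
-/

set_option autoImplicit false

namespace Pool.Agent.S5.G

open Complex Pool.Agent.H63.VC Pool.Agent.H63.VC3 Pool.Agent.H63.VC5 Pool.Agent.H63.GV Pool.Agent.S3
open Pool.Agent.S3.G (arg_up arg_quad pi_ne fe_lim_zero Yy sin_ne cos_ne)
open Filter Topology
open scoped ComplexConjugate

/-- The data of a slot of an edge; `c` is the cosine of the other vertex. -/
structure Sd (s : Bool) (c q z : ℂ) : Prop where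
  z0 : 0 < z.re
  z1 : z.re < Real.pi / 2
  zi : 0 < z.im
  c0 : 0 < c.re
  c1 : c.im < 0
  c2 : -c.im < c.re
  sn : sinh q = kp s c * tan z
  q0 : 0 < q.re
  q1 : -(Real.pi / 2) < q.im
  q2 : q.im < Real.pi / 2
  op : s = false → 0 < q.im
  ss : s = true → 0 < (c + I * cosh q).re ∧ 0 < (c + I * cosh q).im
  bx : s = true → z.re - q.im < Real.pi / 2

theorem Sd.cz {s : Bool} {c q z : ℂ} (h : Sd s c q z) : cos z ≠ 0 := cos_ne ⟨h.z0, h.z1⟩

theorem Sd.sz {s : Bool} {c q z : ℂ} (h : Sd s c q z) : sin z ≠ 0 := sin_ne ⟨h.z0, h.z1⟩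

theorem Sd.c_ne {s : Bool} {c q z : ℂ} (h : Sd s c q z) : c ≠ 0 := fun h0 => by
  have := h.c0
  rw [h0] at this
  simp at this

theorem Sd.k_ne {s : Bool} {c q z : ℂ} (h : Sd s c q z) : kp s c ≠ 0 := kp_ne h.c_ne

theorem Sd.sn' {s : Bool} {c q z : ℂ} (h : Sd s c q z) :
    sinh q * cos z = kp s c * sin z := by
  have hc := h.cz
  rw [h.sn, tan_eq_sin_div_cos]
  field_simp

theorem Sd.A {s : Bool} {c q z : ℂ} (h : Sd s c q z) :
    sinh (q + I * z) = sin z * (kp s c + I * cosh q) := by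
  rw [sinh_addI, h.sn']
  ring

theorem Sd.B {s : Bool} {c q z : ℂ} (h : Sd s c q z) :
    sinh (q - I * z) = sin z * (kp s c - I * cosh q) := by
  rw [sinh_subI, h.sn']
  ring

theorem Sd.pos {s : Bool} {c q z : ℂ} (h : Sd s c q z) : 0 < (cosh q * conj (kp s c)).re := by
  have hq0 := h.q0
  have hq1 := h.q1
  have hq2 := h.q2
  have hc0 := h.c0
  have hc1 := h.c1
  have hc2 := h.c2
  cases s
  · have h0 := h.op rfl
    have k1 : 0 < (cosh q).re := by
      rw [cosh_re]
      exact mul_pos (Real.cosh_pos _) (Real.cos_pos_of_mem_Ioo ⟨hq1, hq2⟩)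
    have k2 : 0 < (cosh q).im := by
      rw [cosh_im]
      exact mul_pos (Real.sinh_pos_iff.2 hq0)
        (Real.sin_pos_of_pos_of_lt_pi h0 (by linarith [Real.pi_pos]))
    rw [kp_false, conj_conj, mul_re]
    nlinarith
  · obtain ⟨h1, h2⟩ := h.ss rfl
    rw [add_re, I_mul_re] at h1
    rw [add_im, I_mul_im] at h2
    rw [kp_true, mul_re, conj_re, conj_im]
    rcases le_or_gt (cosh q).im 0 with h3 | h3
    · nlinarith
    · nlinarith

theorem Sd.slot {s : Bool} {c q z : ℂ} (h : Sd s c q z) : Slot q z := by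
  have hpi := Real.pi_pos
  have hq0 := h.q0
  have hq1 := h.q1
  have hq2 := h.q2
  have hz0 := h.z0
  have hz1 := h.z1
  have hzi := h.zi
  obtain ⟨s1, s2⟩ := sin_quad hz0 hz1 hzi
  refine ⟨hz0, hz1, hzi, ?_, ?_, Or.inr ?_⟩
  · cases s
    · have h0 := h.op rfl
      exact up_of (by linarith) (by linarith)
    · obtain ⟨h1, h2⟩ := h.ss rfl
      rw [h.A, kp_true, mul_im]
      positivity
  · apply rt_of (by linarith) _ (by linarith)
    cases s
    · have h0 := h.op rfl
      linarith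
    · have := h.bx rfl
      linarith
  · have e : (sinh (q + I * z) * conj (sinh (q - I * z))).im =
        2 * (normSq (sin z) * (cosh q * conj (kp s c)).re) := by
      rw [h.A, h.B]
      simp only [map_mul, map_sub, conj_I]
      rw [show sin z * (kp s c + I * cosh q) * (conj (sin z) * (conj (kp s c) - -I * conj (cosh q))) =
        (sin z * conj (sin z)) * ((kp s c + I * cosh q) * (conj (kp s c) + I * conj (cosh q))) by
          ring, mul_conj, im_ofReal_mul]
      simp only [mul_re, mul_im, add_re, add_im, conj_re, conj_im, I_re, I_im]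
      ring
    rw [e]
    have := normSq_pos.2 h.sz
    have := h.pos
    positivity

/-! ### The tangent -/

theorem exp_sy {q z : ℂ} (h : Slot q z) : exp (2 * Real.pi * I * sy q z) =
    sinh (q + I * z) / sinh (q - I * z) := by
  rw [sy_mul, exp_sub, h.eA, h.eB]

theorem Sd.den {s : Bool} {c q z : ℂ} (h : Sd s c q z) : kp s c - I * cosh q ≠ 0 := by
  have h1 := exp_ne_zero (lB q z)
  rw [h.slot.eB, h.B] at h1
  exact right_ne_zero_of_mul h1

theorem Sd.num {s : Bool} {c q z : ℂ} (h : Sd s c q z) : kp s c + I * cosh q ≠ 0 := by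
  have h1 := exp_ne_zero (lA q z)
  rw [h.slot.eA, h.A] at h1
  exact right_ne_zero_of_mul h1

theorem Sd.expY {s : Bool} {c q z : ℂ} (h : Sd s c q z) : exp (2 * Real.pi * I * sy q z) =
    Yy (kp s c) (cosh q) := by
  have h1 := h.den
  have h2 := h.sz
  rw [exp_sy h.slot, h.A, h.B]
  unfold Yy
  field_simp

theorem Sd.tan_eq {s : Bool} {c q z : ℂ} (h : Sd s c q z) :
    tan (Real.pi * sy q z) = cosh q / kp s c := by
  have h1 := h.den
  have h2 := h.k_ne
  have h3 := h.expY
  unfold Yy at h3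
  have h4 : exp (Real.pi * sy q z * I) ≠ 0 := exp_ne_zero _
  have h5 : exp (2 * Real.pi * I * sy q z) = exp (Real.pi * sy q z * I) ^ 2 := by
    rw [← exp_nat_mul]
    congr 1
    push_cast
    ring
  rw [h5, eq_div_iff h1] at h3
  rw [tan_eq_sin_div_cos, Complex.sin, Complex.cos]
  have h6 : exp (-(Real.pi * sy q z) * I) = (exp (Real.pi * sy q z * I))⁻¹ := by
    rw [← exp_neg]
    congr 1
    ring
  rw [h6]
  set E := exp (Real.pi * sy q z * I)
  have h7 : E ^ 2 + 1 ≠ 0 := by
    intro h0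
    have : E ^ 2 = -1 := by linear_combination h0
    rw [this] at h3
    apply h2
    linear_combination -h3 / 2
  have h8 : E + E⁻¹ ≠ 0 := by
    intro h0
    apply h7
    have : E * (E + E⁻¹) = 0 := by rw [h0, mul_zero]
    rw [mul_add, mul_inv_cancel₀ h4] at this
    linear_combination this
  have h9 : (E⁻¹ - E) * I * kp s c = cosh q * (E + E⁻¹) := by
    have : E * ((E⁻¹ - E) * I * kp s c) = E * (cosh q * (E + E⁻¹)) := by
      have e1 : E * E⁻¹ = 1 := mul_inv_cancel₀ h4
      linear_combination (I * kp s c - cosh q) * e1 - I * h3 - cosh q * (E ^ 2 + 1) * I_sq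
    exact mul_left_cancel₀ h4 this
  rw [div_eq_div_iff (by
    intro h0
    apply h8
    linear_combination 2 * h0) h2]
  linear_combination h9 / 2

theorem Sd.tan_sq {s : Bool} {c q z : ℂ} (h : Sd s c q z) :
    (cosh q / kp s c) ^ 2 = 1 / (cos z) ^ 2 + 1 / (kp s c) ^ 2 - 1 := by
  have h1 := h.cz
  have h2 := h.k_ne
  have h3 := cosh_sq q
  have h4 := h.sn'
  have h5 := sin_sq_add_cos_sq z
  field_simp
  linear_combination (cos z ^ 2) * h3 + (sinh q * cos z + kp s c * sin z) * h4 +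
    (kp s c ^ 2) * h5

theorem Sd.re_lt {s : Bool} {c q z : ℂ} (h : Sd s c q z) : (sy q z).re < 1 / 2 :=
  h.slot.sy_lt fun h0 => by
    have := h.q0
    rw [h0] at this
    simp at this

theorem sy_unique {u w : ℂ} (h : exp (2 * Real.pi * I * u) = exp (2 * Real.pi * I * w))
    (h0 : 0 < u.re) (h1 : u.re < 1) (h2 : 0 < w.re) (h3 : w.re < 1) : u = w := by
  have hpi := Real.pi_pos
  have e := log_unique h (by
    rw [two_pi_I_mul_im, two_pi_I_mul_im]
    nlinarith) (by
    rw [two_pi_I_mul_im, two_pi_I_mul_im]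
    nlinarith)
  exact mul_left_cancel₀ Complex.two_pi_I_ne_zero e

/-! ### The facts at a slot -/

/-- The facts at a slot, in the frame of the vertex. -/
structure SF (q z : ℂ) : Prop where
  sl : Slot q z
  dm : fdom (sy q z - z / Real.pi)
  e1 : he (sy q z - z / Real.pi) = -q + L2 z - lA q z / 2 - lB q z / 2
  e2 : he (sy q z + z / Real.pi) = q + L2 z - lA q z / 2 - lB q z / 2

theorem slot_zero {z : ℂ} (h0 : 0 < z.re) (h1 : z.re < Real.pi / 2) (h2 : 0 < z.im) :
    Slot 0 z := by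
  obtain ⟨s1, s2⟩ := sin_quad h0 h1 h2
  refine ⟨h0, h1, h2, ?_, ?_, Or.inl rfl⟩
  · rw [zero_add, mul_comm I z, sinh_mul_I, mul_comm, I_mul_im]
    exact s1
  · rw [zero_sub, sinh_neg, mul_comm I z, sinh_mul_I, mul_comm, neg_re, I_mul_re, neg_neg]
    exact s2

/-- The dummy slot. -/
theorem SF_zero {z : ℂ} (h0 : 0 < z.re) (h1 : z.re < Real.pi / 2) (h2 : 0 < z.im) :
    SF 0 z := by
  have hpi := Real.pi_pos
  have sl := slot_zero h0 h1 h2
  have hi : (sy 0 z - z / Real.pi).im < 0 := by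
    rw [sy_zero h0 h1 h2, sub_im, v_im]
    have := div_pos h2 hpi
    norm_num
    exact this
  have a1 := sl.A_im
  have a2 := sl.B_im
  have a3 := L2_im h0 h1
  refine ⟨sl, Or.inl hi.ne, ?_, ?_⟩
  · apply sl.hm_low hi
    · rw [zero_im]
      linarith
    · rw [zero_im]
      linarith
  · apply sl.hp
    · rw [zero_im]
      linarith
    · rw [zero_im]
      linarith

/-- The slots of a vertex with integration variable. -/
theorem SF_v {q z : ℂ} (sl : Slot q z) (hq : |q.im| < Real.pi / 4)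
    (hy : 0 < (sy q z - z / Real.pi).re) : SF q z := by
  have hpi := Real.pi_pos
  obtain ⟨q1, q2⟩ := abs_lt.1 hq
  have a1 := sl.A_im
  have a2 := sl.B_im
  have a3 := L2_im sl.z0 sl.z1
  have h1 := sl.ymv
  have h2 : (sy q z - z / Real.pi).re < 1 := by linarith [h1.2]
  have h3 := hh_im_lt hy h2
  refine ⟨sl, Or.inr ⟨hy, h2⟩, ?_, sl.hp (by linarith) (by linarith)⟩
  refine sl.hm (Or.inr ⟨hy, h2⟩) ?_ ?_
  · rw [he_eq_hh hy h2]
    linarith [h3.1]
  · rw [he_eq_hh hy h2]
    linarith [h3.2]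

theorem SF.dp {q z : ℂ} (h : SF q z) : fdom (sy q z + z / Real.pi) := Or.inr h.sl.yv

/-- The derivative of a slot. -/
theorem SF.id {s : Bool} {c q z : ℂ} (h : SF q z) (hd : Sd s c q z)
    (hk : -(Real.pi / 4) < (kp s c).arg ∧ (kp s c).arg < Real.pi / 4) :
    2 * hh (sy q z + 1 / 2) - he (sy q z - z / Real.pi) - he (sy q z + z / Real.pi) =
      2 * (log (kp s c) - log (cos z)) := by
  have hpi := Real.pi_pos
  obtain ⟨c1, c2, c3, c4, c5, c6, c7⟩ := sincos hd.z0 hd.z1 hd.zi
  have a1 := h.sl.A_im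
  have a2 := h.sl.B_im
  have hb0 := hd.re_lt
  have hb1 := h.sl.sy_re
  have q0 : 0 < (sy q z + 1 / 2).re := by
    rw [add_re]
    norm_num
    linarith
  have q1 : (sy q z + 1 / 2).re < 1 := by
    rw [add_re]
    norm_num
    linarith
  have hb := hh_im_lt q0 q1
  have ek : (log (kp s c)).im = (kp s c).arg := log_im _
  have e : hh (sy q z + 1 / 2) =
      log 2 + log (kp s c) + log (sin z) - lA q z / 2 - lB q z / 2 := by
    apply log_unique
    · rw [exp_hh q0 q1, h.sl.sh, show log 2 + log (kp s c) + log (sin z) - lA q z / 2 -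
        lB q z / 2 = log 2 + log (kp s c) + log (sin z) + (-(lA q z + lB q z) / 2) by ring,
        exp_add, exp_add, exp_add, exp_log two_ne_zero, exp_log hd.k_ne, c1]
      linear_combination (2 * exp (-(lA q z + lB q z) / 2)) * hd.sn'
    · simp only [sub_im, add_im, half_im, log2_im, ek]
      linarith [hb.1]
    · simp only [sub_im, add_im, half_im, log2_im, ek]
      linarith [hb.2]
  rw [e, h.e1, h.e2]
  linear_combination -2 * c7

end Pool.Agent.S5.G
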