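import Pool.Agent.H25.RK.DGf
import Pool.Agent.S3.Gr3b
import Pool.Agent.S3.Gr5
import Pool.Agent.S5.G.SlotM

/-!
# Mixed chains: the nodes at the critical point
-/

set_option autoImplicit false

namespace Pool.Agent.S5.G

open Complex Pool.Agent.H63.VC Pool.Agent.H63.VC3 Pool.Agent.H63.VC5 Pool.Agent.H63.GV Pool.Agent.S3
open Pool.Agent.S3.G (arg_up arg_quad pi_ne fe_lim_zero Yy sin_ne cos_ne)
open Filter Topology
open scoped ComplexConjugate

/-! ### Partial derivatives -/

theorem strip_half {u : ℂ} (h : |u.re| < 1 / 2) : 0 < (u + 1 / 2).re ∧ (u + 1 / 2).re < 1 := by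
  obtain ⟨h1, h2⟩ := abs_lt.1 h
  rw [add_re]
  norm_num
  constructor <;> linarith

theorem pC_da (s : ℤ) {a b : ℂ} (h : fdom (a + b)) :
    HasDerivAt (fun w => pC s w b) (s * Real.pi * I * (a - b - 1 / 2) - he (a + b)) a := by
  have h1 : HasDerivAt (fun w : ℂ => w + b) 1 a := (hasDerivAt_id a).add_const b
  have h2 := HasDerivAt.comp a (fe_hasDerivAt h) h1
  have h3 := ((((((hasDerivAt_id a).sub_const b).pow 2).div_const 2)).add
    ((((hasDerivAt_id a).const_sub 1).sub_const b).div_const 2)).const_mul ((s : ℂ) * Real.pi * I)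
  refine HasDerivAt.congr_deriv (f := fun w => pC s w b) (h3.sub h2) ?_
  simp [-mul_eq_mul_left_iff]
  ring

theorem pC_db (s : ℤ) {a b : ℂ} (h : fdom (a + b)) :
    HasDerivAt (fun w => pC s a w) (-(s * Real.pi * I * (a - b + 1 / 2)) - he (a + b)) b := by
  have h1 : HasDerivAt (fun w : ℂ => a + w) 1 b := (hasDerivAt_id b).const_add a
  have h2 := HasDerivAt.comp b (fe_hasDerivAt h) h1
  have h3 := ((((((hasDerivAt_id b).const_sub a).pow 2).div_const 2)).add
    (((hasDerivAt_id b).const_sub (1 - a)).div_const 2)).const_mul ((s : ℂ) * Real.pi * I)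
  refine HasDerivAt.congr_deriv (f := fun w => pC s a w) (h3.sub h2) ?_
  simp [-mul_eq_mul_left_iff]
  ring

theorem pB_dy (s : ℤ) {y z : ℂ} (h : fdom (y - z)) :
    HasDerivAt (fun w => pB s w z) (s * Real.pi * I * (y + z - 1 / 2) - he (y - z)) y := by
  have h1 : HasDerivAt (fun w : ℂ => w - z) 1 y := (hasDerivAt_id y).sub_const z
  have h2 := HasDerivAt.comp y (fe_hasDerivAt h) h1
  have h3 := ((((((hasDerivAt_id y).add_const z).pow 2).div_const 2)).sub
    (((hasDerivAt_id y).sub_const z).div_const 2)).const_mul ((s : ℂ) * Real.pi * I)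
  refine HasDerivAt.congr_deriv (f := fun w => pB s w z) (h3.sub h2) ?_
  simp [-mul_eq_mul_left_iff]

theorem pB_dz (s : ℤ) {y z : ℂ} (h : fdom (y - z)) :
    HasDerivAt (fun w => pB s y w) (s * Real.pi * I * (y + z + 1 / 2) + he (y - z)) z := by
  have h1 : HasDerivAt (fun w : ℂ => y - w) (-1) z := (hasDerivAt_id z).const_sub y
  have h2 := HasDerivAt.comp z (fe_hasDerivAt h) h1
  have h3 := ((((((hasDerivAt_id z).const_add y).pow 2).div_const 2)).sub
    (((hasDerivAt_id z).const_sub y).div_const 2)).const_mul ((s : ℂ) * Real.pi * I)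
  refine HasDerivAt.congr_deriv (f := fun w => pB s y w) (h3.sub h2) ?_
  simp [-mul_eq_mul_left_iff]
  ring

theorem pH_dz (s : ℤ) {z b : ℂ} (h : fdom (z + b)) (hz : |z.re| < 1 / 2) :
    HasDerivAt (fun w => pH s w b)
      (-(s * Real.pi * I * (b + 1 / 2)) - hh (z + 1 / 2) - he (z + b)) z := by
  have h1 : HasDerivAt (fun w : ℂ => w + b) 1 z := (hasDerivAt_id z).add_const b
  have h2 := HasDerivAt.comp z (fe_hasDerivAt h) h1
  have h4 : HasDerivAt (fun w : ℂ => w + 1 / 2) 1 z := (hasDerivAt_id z).add_const _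
  have h5 := HasDerivAt.comp z (ff_hasDerivAt _ (strip_half hz).1 (strip_half hz).2) h4
  have h3 := ((h4.mul_const (b + 1 / 2)).const_mul ((s : ℂ) * Real.pi * I)).neg
  have h6 := ((h3.sub h5).sub_const (ff (b + 1 / 2))).sub h2
  refine HasDerivAt.congr_deriv (f := fun w => pH s w b) h6 ?_
  simp

theorem pH_db (s : ℤ) {z b : ℂ} (h : fdom (z + b)) (hb : |b.re| < 1 / 2) :
    HasDerivAt (fun w => pH s z w)
      (-(s * Real.pi * I * (z + 1 / 2)) - hh (b + 1 / 2) - he (z + b)) b := by
  have h1 : HasDerivAt (fun w : ℂ => z + w) 1 b := (hasDerivAt_id b).const_add z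
  have h2 := HasDerivAt.comp b (fe_hasDerivAt h) h1
  have h4 : HasDerivAt (fun w : ℂ => w + 1 / 2) 1 b := (hasDerivAt_id b).add_const _
  have h5 := HasDerivAt.comp b (ff_hasDerivAt _ (strip_half hb).1 (strip_half hb).2) h4
  have h3 := ((h4.const_mul (z + 1 / 2)).const_mul ((s : ℂ) * Real.pi * I)).neg
  have h6 := ((h3.sub_const (ff (z + 1 / 2))).sub h5).sub h2
  refine HasDerivAt.congr_deriv (f := fun w => pH s z w) h6 ?_
  simp

theorem pV_da (r : ℝ) {v a b : ℂ} (h : fdom (a - v)) (h' : fdom (a + v)) :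
    HasDerivAt (fun w => pV r v w b) (-he (a - v) - he (a + v)) a := by
  have h1 : HasDerivAt (fun w : ℂ => w - v) 1 a := (hasDerivAt_id a).sub_const v
  have h2 := HasDerivAt.comp a (fe_hasDerivAt h) h1
  have h3 : HasDerivAt (fun w : ℂ => w + v) 1 a := (hasDerivAt_id a).add_const v
  have h4 := HasDerivAt.comp a (fe_hasDerivAt h') h3
  have h5 := (((h2.const_sub (wr r v)).sub h4).sub_const (fe (b - v))).sub_const (fe (b + v))
  refine HasDerivAt.congr_deriv (f := fun w => pV r v w b) h5 ?_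
  simp

theorem pV_db (r : ℝ) {v a b : ℂ} (h : fdom (b - v)) (h' : fdom (b + v)) :
    HasDerivAt (fun w => pV r v a w) (-he (b - v) - he (b + v)) b := by
  have h1 : HasDerivAt (fun w : ℂ => w - v) 1 b := (hasDerivAt_id b).sub_const v
  have h2 := HasDerivAt.comp b (fe_hasDerivAt h) h1
  have h3 : HasDerivAt (fun w : ℂ => w + v) 1 b := (hasDerivAt_id b).add_const v
  have h4 := HasDerivAt.comp b (fe_hasDerivAt h') h3
  have h5 := (h2.const_sub (wr r v - fe (a - v) - fe (a + v))).sub h4
  refine HasDerivAt.congr_deriv (f := fun w => pV r v a w) h5 ?_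
  simp

theorem pV_dv (r : ℝ) {v a b : ℂ} (h1 : fdom (a - v)) (h2 : fdom (a + v)) (h3 : fdom (b - v))
    (h4 : fdom (b + v)) : HasDerivAt (fun w => pV r w a b)
      (2 * Real.pi * I * (2 * r * v + 1) + (he (a - v) - he (a + v)) +
        (he (b - v) - he (b + v))) v := by
  have k1 := HasDerivAt.comp v (fe_hasDerivAt h1) ((hasDerivAt_id v).const_sub a)
  have k2 := HasDerivAt.comp v (fe_hasDerivAt h2) ((hasDerivAt_id v).const_add a)
  have k3 := HasDerivAt.comp v (fe_hasDerivAt h3) ((hasDerivAt_id v).const_sub b)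
  have k4 := HasDerivAt.comp v (fe_hasDerivAt h4) ((hasDerivAt_id v).const_add b)
  have k5 := ((((hasDerivAt_id v).pow 2).const_mul (r : ℂ)).add (hasDerivAt_id v)).const_mul
    (2 * Real.pi * I : ℂ)
  have k6 := (((k5.sub k1).sub k2).sub k3).sub k4
  refine HasDerivAt.congr_deriv (f := fun w => pV r w a b) k6 ?_
  simp [-mul_eq_mul_left_iff]
  ring

/-! ### Domains -/

/-- The domain of analyticity of the potential of a node. -/
def Fd (ty : Ty) (fl : Bool) (o a b : ℂ) : Prop :=
  match ty with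
  | .cl => fdom (a + b)
  | .zn => fdom (ys fl a b - o) ∧ fdom (o + yt fl a b)
  | .vn => fdom (a - o) ∧ fdom (a + o) ∧ fdom (b - o) ∧ fdom (b + o)

theorem Fd_open (ty : Ty) (fl : Bool) :
    IsOpen {x : ℂ × ℂ × ℂ | Fd ty fl x.1 x.2.1 x.2.2} := by
  have hy : Continuous fun x : ℂ × ℂ × ℂ => ys fl x.2.1 x.2.2 := by
    unfold ys
    cases fl <;> simp <;> fun_prop
  have ht : Continuous fun x : ℂ × ℂ × ℂ => yt fl x.2.1 x.2.2 := by
    unfold yt
    cases fl <;> simp <;> fun_prop
  cases ty
  · exact fdom_open.preimage (f := fun x : ℂ × ℂ × ℂ => x.2.1 + x.2.2) (by fun_prop)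
  · exact (fdom_open.preimage (f := fun x : ℂ × ℂ × ℂ => ys fl x.2.1 x.2.2 - x.1)
      (hy.sub continuous_fst)).inter
      (fdom_open.preimage (f := fun x : ℂ × ℂ × ℂ => x.1 + yt fl x.2.1 x.2.2)
        (continuous_fst.add ht))
  · exact (fdom_open.preimage (f := fun x : ℂ × ℂ × ℂ => x.2.1 - x.1) (by fun_prop)).inter
      ((fdom_open.preimage (f := fun x : ℂ × ℂ × ℂ => x.2.1 + x.1) (by fun_prop)).inter
        ((fdom_open.preimage (f := fun x : ℂ × ℂ × ℂ => x.2.2 - x.1) (by fun_prop)).inter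
          (fdom_open.preimage (f := fun x : ℂ × ℂ × ℂ => x.2.2 + x.1) (by fun_prop))))

theorem Fd_a {ty : Ty} {fl : Bool} {o a b : ℂ} (h : Fd ty fl o a b) :
    ∀ᶠ w in 𝓝 a, Fd ty fl o w b := by
  have h1 : Continuous fun w : ℂ => (o, w, b) := by fun_prop
  exact ((Fd_open ty fl).preimage h1).mem_nhds h

theorem Fd_b {ty : Ty} {fl : Bool} {o a b : ℂ} (h : Fd ty fl o a b) :
    ∀ᶠ w in 𝓝 b, Fd ty fl o a w := by
  have h1 : Continuous fun w : ℂ => (o, a, w) := by fun_prop
  exact ((Fd_open ty fl).preimage h1).mem_nhds h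

theorem Fd_o {ty : Ty} {fl : Bool} {o a b : ℂ} (h : Fd ty fl o a b) :
    ∀ᶠ w in 𝓝 o, Fd ty fl w a b := by
  have h1 : Continuous fun w : ℂ => (w, a, b) := by fun_prop
  exact ((Fd_open ty fl).preimage h1).mem_nhds h

/-- The transport of the own variable. -/
noncomputable def sO (ty : Ty) (o : ℂ) : ℂ :=
  match ty with
  | .cl => conj o
  | .zn => conj o
  | .vn => -conj o

/-! ### Conjugation -/

theorem pC_conj (s : ℤ) {a b : ℂ} (h : fdom (a + b)) :
    pC (-s) (conj a) (conj b) = conj (pC s a b) := by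
  unfold pC qC
  rw [← map_add, G.fe_conj h]
  simp only [map_sub, map_add, map_mul, map_pow, map_div₀, map_intCast, conj_ofReal, conj_I,
    map_one, map_ofNat]
  push_cast
  ring

theorem pB_conj (s : ℤ) {y z : ℂ} (h : fdom (y - z)) :
    pB (-s) (conj y) (conj z) = conj (pB s y z) := by
  unfold pB qB
  rw [← map_sub, G.fe_conj h]
  simp only [map_sub, map_add, map_mul, map_pow, map_div₀, map_intCast, conj_ofReal, conj_I,
    map_ofNat]
  push_cast
  ring

theorem half_conj' (u : ℂ) : conj u + 1 / 2 = conj (u + 1 / 2) := by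
  rw [map_add, map_div₀, map_one, map_ofNat]

theorem pH_conj (s : ℤ) {z b : ℂ} (h : fdom (z + b)) :
    pH (-s) (conj z) (conj b) = conj (pH s z b) := by
  unfold pH qH
  rw [← map_add, G.fe_conj h, half_conj', half_conj', ff_conj, ff_conj]
  simp only [map_sub, map_neg, map_mul, map_intCast, conj_ofReal, conj_I]
  push_cast
  ring

theorem pV_conj (r : ℝ) {v a b : ℂ} (h1 : fdom (a - v)) (h2 : fdom (a + v)) (h3 : fdom (b - v))
    (h4 : fdom (b + v)) : pV (-r) (-conj v) (conj a) (conj b) = conj (pV r v a b) := by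
  unfold pV
  rw [show conj a - -conj v = conj (a + v) by rw [map_add]; ring,
    show conj a + -conj v = conj (a - v) by rw [map_sub]; ring,
    show conj b - -conj v = conj (b + v) by rw [map_add]; ring,
    show conj b + -conj v = conj (b - v) by rw [map_sub]; ring, G.fe_conj h1, G.fe_conj h2,
    G.fe_conj h3, G.fe_conj h4, G.wr_conj]
  simp only [map_sub]
  ring

theorem pN_conj {c : ℤ} {ty : Ty} {fl : Bool} {o a b : ℂ} (h : Fd ty fl o a b) :
    pN (-c) ty fl (sO ty o) (conj a) (conj b) = conj (pN c ty fl o a b) := by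
  cases ty
  · show pC (-c).sign (conj a) (conj b) = conj (pC c.sign a b)
    rw [Int.sign_neg]
    exact pC_conj _ h
  · obtain ⟨h1, h2⟩ := h
    show (if |-c| = 3 then (if fl then pB (-c).sign (conj b) (conj o) +
        pH (-c).sign (conj o) (conj a) else pB (-c).sign (conj a) (conj o) +
          pH (-c).sign (conj o) (conj b)) else
      (if fl then pB (-c).sign (conj b) (conj o) + pC (-c).sign (conj o) (conj a) else
        pB (-c).sign (conj a) (conj o) + pC (-c).sign (conj o) (conj b))) =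
      conj (if |c| = 3 then (if fl then pB c.sign b o + pH c.sign o a else
        pB c.sign a o + pH c.sign o b) else
      (if fl then pB c.sign b o + pC c.sign o a else pB c.sign a o + pC c.sign o b))
    rw [Int.sign_neg, abs_neg]
    cases fl
    · change fdom (a - o) at h1
      change fdom (o + b) at h2
      by_cases h3 : |c| = 3
      · simp only [if_pos h3, Bool.false_eq_true, if_false, map_add]
        rw [pB_conj _ h1, pH_conj _ h2]
      · simp only [if_neg h3, Bool.false_eq_true, if_false, map_add]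
        rw [pB_conj _ h1, pC_conj _ h2]
    · change fdom (b - o) at h1
      change fdom (o + a) at h2
      by_cases h3 : |c| = 3
      · simp only [if_pos h3, if_true, map_add]
        rw [pB_conj _ h1, pH_conj _ h2]
      · simp only [if_neg h3, if_true, map_add]
        rw [pB_conj _ h1, pC_conj _ h2]
  · obtain ⟨h1, h2, h3, h4⟩ := h
    show pV (((-c : ℤ) : ℝ) / 2) (-conj o) (conj a) (conj b) = conj (pV ((c : ℝ) / 2) o a b)
    rw [show ((-c : ℤ) : ℝ) / 2 = -((c : ℝ) / 2) by push_cast; ring]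
    exact pV_conj _ h1 h2 h3 h4

/-! ### Nodes -/

/-- The facts at a node: `v` is the variable of the vertex, `k` the constant. -/
structure NodeF (c : ℤ) (ty : Ty) (fl : Bool) (o a b v k : ℂ) : Prop where
  fd : Fd ty fl o a b
  vd : Fd Ty.vn fl v a b
  da : HasDerivAt (fun w => pN c ty fl o w b) (-he (a - v) - he (a + v)) a
  db : HasDerivAt (fun w => pN c ty fl o a w) (-he (b - v) - he (b + v)) b
  dz : ty ≠ Ty.cl → HasDerivAt (fun w => pN c ty fl w a b) 0 o
  val : pN c ty fl o a b = pV ((c : ℝ) / 2) v a b + k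
  rcl : ty = Ty.cl → |(a + b).re| < 1
  rzn : ty = Ty.zn → |(ys fl a b - o).re| < 1 ∧ |(o + yt fl a b).re| < 1 ∧ |o.re| < 1 / 2
  rz3 : ty = Ty.zn → |c| = 3 → |(yt fl a b).re| < 1 / 2
  rvn : ty = Ty.vn → |(a - o).re| < 1 ∧ |(a + o).re| < 1 ∧ |(b - o).re| < 1 ∧ |(b + o).re| < 1

theorem ys_conj (fl : Bool) (a b : ℂ) : ys fl (conj a) (conj b) = conj (ys fl a b) := by
  cases fl <;> rfl

theorem yt_conj (fl : Bool) (a b : ℂ) : yt fl (conj a) (conj b) = conj (yt fl a b) := by
  cases fl <;> rfl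

theorem fdom_conj {u : ℂ} (h : fdom u) : fdom (conj u) := by
  rcases h with h | h
  · left
    rw [conj_im]
    exact neg_ne_zero.2 h
  · right
    rw [conj_re]
    exact h

theorem Fd_conj {ty : Ty} {fl : Bool} {o a b : ℂ} (h : Fd ty fl o a b) :
    Fd ty fl (sO ty o) (conj a) (conj b) := by
  cases ty
  · show fdom (conj a + conj b)
    rw [← map_add]
    exact fdom_conj h
  · obtain ⟨h1, h2⟩ := h
    show fdom (ys fl (conj a) (conj b) - conj o) ∧ fdom (conj o + yt fl (conj a) (conj b))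
    rw [ys_conj, yt_conj, ← map_sub, ← map_add]
    exact ⟨fdom_conj h1, fdom_conj h2⟩
  · obtain ⟨h1, h2, h3, h4⟩ := h
    show fdom (conj a - -conj o) ∧ fdom (conj a + -conj o) ∧ fdom (conj b - -conj o) ∧
      fdom (conj b + -conj o)
    rw [show conj a - -conj o = conj (a + o) by rw [map_add]; ring,
      show conj a + -conj o = conj (a - o) by rw [map_sub]; ring,
      show conj b - -conj o = conj (b + o) by rw [map_add]; ring,
      show conj b + -conj o = conj (b - o) by rw [map_sub]; ring]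
    exact ⟨fdom_conj h2, fdom_conj h1, fdom_conj h4, fdom_conj h3⟩

theorem conj_nhds {x : ℂ} {p : ℂ → Prop} (h : ∀ᶠ w in 𝓝 x, p w) :
    ∀ᶠ w in 𝓝 (conj x), p (conj w) := by
  have h1 : Tendsto (fun w : ℂ => conj w) (𝓝 (conj x)) (𝓝 x) := by
    have := (Complex.continuous_conj.tendsto (conj x))
    rwa [conj_conj] at this
  exact h1.eventually h

/-- The transport of a node. -/
theorem NodeF.conj {c : ℤ} {ty : Ty} {fl : Bool} {o a b v k : ℂ} (h : NodeF c ty fl o a b v k) :
    NodeF (-c) ty fl (sO ty o) (conj a) (conj b) (-conj v) (conj k) := by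
  obtain ⟨v1, v2, v3, v4⟩ := h.vd
  refine ⟨Fd_conj h.fd, Fd_conj h.vd, ?_, ?_, ?_, ?_, ?_, ?_, ?_, ?_⟩
  · have h1 := h.da.conj_conj
    rw [show starRingEnd ℂ (-he (a - v) - he (a + v)) =
      -he (starRingEnd ℂ a - -starRingEnd ℂ v) - he (starRingEnd ℂ a + -starRingEnd ℂ v) by
        rw [show starRingEnd ℂ a - -starRingEnd ℂ v = starRingEnd ℂ (a + v) by
            rw [map_add]; ring,
          show starRingEnd ℂ a + -starRingEnd ℂ v = starRingEnd ℂ (a - v) by
            rw [map_sub]; ring, G.he_conj' v1, G.he_conj' v2, map_sub, map_neg]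
        ring] at h1
    refine h1.congr_of_eventuallyEq ?_
    filter_upwards [conj_nhds (Fd_a h.fd)] with w hw
    have := pN_conj (c := c) hw
    rw [conj_conj] at this
    exact this
  · have h1 := h.db.conj_conj
    rw [show starRingEnd ℂ (-he (b - v) - he (b + v)) =
      -he (starRingEnd ℂ b - -starRingEnd ℂ v) - he (starRingEnd ℂ b + -starRingEnd ℂ v) by
        rw [show starRingEnd ℂ b - -starRingEnd ℂ v = starRingEnd ℂ (b + v) by
            rw [map_add]; ring,
          show starRingEnd ℂ b + -starRingEnd ℂ v = starRingEnd ℂ (b - v) by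
            rw [map_sub]; ring, G.he_conj' v3, G.he_conj' v4, map_sub, map_neg]
        ring] at h1
    refine h1.congr_of_eventuallyEq ?_
    filter_upwards [conj_nhds (Fd_b h.fd)] with w hw
    have := pN_conj (c := c) hw
    rw [conj_conj] at this
    exact this
  · intro ht
    have h1 := (h.dz ht).conj_conj
    rw [map_zero] at h1
    have hfd := conj_nhds (Fd_o h.fd)
    cases ty
    · exact absurd rfl ht
    · refine h1.congr_of_eventuallyEq ?_
      filter_upwards [hfd] with w hw
      have := pN_conj (c := c) hw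
      change pN (-c) Ty.zn fl (starRingEnd ℂ (starRingEnd ℂ w)) _ _ = _ at this
      rw [conj_conj] at this
      exact this
    · have h2 : HasDerivAt (fun w : ℂ => -w) (-1) (-starRingEnd ℂ o) := by
        exact hasDerivAt_neg' _
      have h1' : HasDerivAt (starRingEnd ℂ ∘ (fun w => pN c Ty.vn fl w a b) ∘ starRingEnd ℂ) 0
          ((fun w : ℂ => -w) (-starRingEnd ℂ o)) := by
        show HasDerivAt _ 0 (- -starRingEnd ℂ o)
        rw [neg_neg]
        exact h1
      have h3 := HasDerivAt.comp (-starRingEnd ℂ o) h1' h2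
      rw [zero_mul] at h3
      refine h3.congr_of_eventuallyEq ?_
      have hn : Tendsto (fun w : ℂ => -w) (𝓝 (-starRingEnd ℂ o)) (𝓝 (starRingEnd ℂ o)) := by
        have := (continuous_neg.tendsto (-starRingEnd ℂ o))
        rwa [neg_neg] at this
      filter_upwards [hn.eventually hfd] with w hw
      have := pN_conj (c := c) hw
      change pN (-c) Ty.vn fl (-starRingEnd ℂ (starRingEnd ℂ (-w))) _ _ = _ at this
      rw [conj_conj, neg_neg] at this
      exact this
  · rw [pN_conj h.fd, h.val, map_add, show ((-c : ℤ) : ℝ) / 2 = -((c : ℝ) / 2) by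
      push_cast; ring, pV_conj _ v1 v2 v3 v4]
  · intro ht
    rw [← map_add, conj_re]
    exact h.rcl ht
  · intro ht
    obtain ⟨r1, r2, r3⟩ := h.rzn ht
    subst ht
    show |(ys fl (starRingEnd ℂ a) (starRingEnd ℂ b) - starRingEnd ℂ o).re| < 1 ∧
      |(starRingEnd ℂ o + yt fl (starRingEnd ℂ a) (starRingEnd ℂ b)).re| < 1 ∧
        |(starRingEnd ℂ o).re| < 1 / 2
    rw [ys_conj, yt_conj, ← map_sub, ← map_add, conj_re, conj_re, conj_re]
    exact ⟨r1, r2, r3⟩
  · intro ht h3
    rw [abs_neg] at h3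
    rw [yt_conj, conj_re]
    exact h.rz3 ht h3
  · intro ht
    obtain ⟨r1, r2, r3, r4⟩ := h.rvn ht
    subst ht
    show |(starRingEnd ℂ a - -starRingEnd ℂ o).re| < 1 ∧
      |(starRingEnd ℂ a + -starRingEnd ℂ o).re| < 1 ∧
      |(starRingEnd ℂ b - -starRingEnd ℂ o).re| < 1 ∧
      |(starRingEnd ℂ b + -starRingEnd ℂ o).re| < 1
    rw [show starRingEnd ℂ a - -starRingEnd ℂ o = starRingEnd ℂ (a + o) by rw [map_add]; ring,
      show starRingEnd ℂ a + -starRingEnd ℂ o = starRingEnd ℂ (a - o) by rw [map_sub]; ring,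
      show starRingEnd ℂ b - -starRingEnd ℂ o = starRingEnd ℂ (b + o) by rw [map_add]; ring,
      show starRingEnd ℂ b + -starRingEnd ℂ o = starRingEnd ℂ (b - o) by rw [map_sub]; ring,
      conj_re, conj_re, conj_re, conj_re]
    exact ⟨r2, r1, r4, r3⟩

/-- The growth rate is the real part of the potential. -/
theorem NodeF.g {c : ℤ} {ty : Ty} {fl : Bool} {o a b v k : ℂ} (h : NodeF c ty fl o a b v k) :
    gN c ty fl o a b = (pN c ty fl o a b).re := by
  have hfd := h.fd
  cases ty
  · show gC c.sign a b = (pC c.sign a b).re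
    unfold gC pC
    rw [sub_re, Rf_eq_fe hfd]
  · obtain ⟨h1, h2⟩ := hfd
    obtain ⟨r1, r2, r3⟩ := h.rzn rfl
    have r4 := h.rz3 rfl
    show (if |c| = 3 then (if fl then gB c.sign b o + gH c.sign o a else
        gB c.sign a o + gH c.sign o b) else
      (if fl then gB c.sign b o + gC c.sign o a else gB c.sign a o + gC c.sign o b)) =
      (if |c| = 3 then (if fl then pB c.sign b o + pH c.sign o a else
        pB c.sign a o + pH c.sign o b) else
      (if fl then pB c.sign b o + pC c.sign o a else pB c.sign a o + pC c.sign o b)).re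
    have eB : ∀ y z : ℂ, fdom (y - z) → gB c.sign y z = (pB c.sign y z).re := by
      intro y z hyz
      unfold gB pB
      rw [sub_re, Rf_eq_fe hyz]
    have eC : ∀ y z : ℂ, fdom (y + z) → gC c.sign y z = (pC c.sign y z).re := by
      intro y z hyz
      unfold gC pC
      rw [sub_re, Rf_eq_fe hyz]
    have eH : ∀ y z : ℂ, fdom (y + z) → |y.re| < 1 / 2 → |z.re| < 1 / 2 →
        gH c.sign y z = (pH c.sign y z).re := by
      intro y z hyz hy hz
      unfold gH pH
      rw [sub_re, sub_re, sub_re, Rf_eq_fe hyz, Rf_eq_ff (strip_half hy).1 (strip_half hy).2,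
        Rf_eq_ff (strip_half hz).1 (strip_half hz).2]
    cases fl
    · by_cases h3 : |c| = 3
      · have r5 := r4 h3
        simp only [if_pos h3, Bool.false_eq_true, if_false, add_re]
        rw [eB a o h1, eH o b h2 r3 r5]
      · simp only [if_neg h3, Bool.false_eq_true, if_false, add_re]
        rw [eB a o h1, eC o b h2]
    · by_cases h3 : |c| = 3
      · have r5 := r4 h3
        simp only [if_pos h3, if_true, add_re]
        rw [eB b o h1, eH o a h2 r3 r5]
      · simp only [if_neg h3, if_true, add_re]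
        rw [eB b o h1, eC o a h2]
  · obtain ⟨h1, h2, h3, h4⟩ := hfd
    show gV ((c : ℝ) / 2) o a b = (pV ((c : ℝ) / 2) o a b).re
    unfold gV pV
    rw [sub_re, sub_re, sub_re, sub_re, Rf_eq_fe h1, Rf_eq_fe h2, Rf_eq_fe h3,
      Rf_eq_fe h4]

end Pool.Agent.S5.G
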