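import Pool.Agent.H25.RK.DGI
import Pool.Agent.H63.GO.MTaylor
import Pool.Agent.H63.VC.Asym
import Pool.Agent.H63.VC.Cross
import Pool.Agent.H63.VC.EndB
import Pool.Agent.H63.VC.Riem
import Pool.Agent.H63.VC.SlowL
import Pool.Agent.H63.VC.SlowU
import Pool.Agent.H63.VC3.CritB
import Pool.Agent.H63.VC3.Upper
import Pool.Agent.H63.VC4.GaussN
import Pool.Agent.H63.VC4.KBN
import Pool.Agent.H63.VC4.LaplaceN
import Pool.Agent.H63.VC4.UpperN
import Pool.Agent.H63.VC5.Defs
import Pool.Agent.H63.VC6.LocU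
import Pool.Agent.H63.VC6.SlotU
import Pool.Agent.H63.VC7.Link
import Pool.Agent.S3.Asm.Def
import Pool.Agent.S3.Chain
import Pool.Agent.S3.G.ClEnd
import Pool.Agent.S3.G.Vol
import Pool.Agent.S3.Refl2

/-!
# Nodes in closed form: logarithms of hyperbolic sines

The slots of a vertex `z` are parametrised by `q`: `exp (2 π i y) = sinh (q + i z) / sinh (q - i z)`.
-/

set_option autoImplicit false

namespace Pool.Agent.S5.G

open Complex Pool.Agent.H63.VC3 Pool.Agent.H63.VC5 Pool.Agent.H63.GV Pool.Agent.S3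
open Pool.Agent.S3.G (arg_up arg_quad pi_ne)
open Filter Topology
open scoped ComplexConjugate

/-! ### Real and imaginary parts -/

theorem sinh_re (w : ℂ) : (sinh w).re = Real.sinh w.re * Real.cos w.im := by
  conv_lhs => rw [← re_add_im w, sinh_add, sinh_mul_I, cosh_mul_I, ← ofReal_sinh, ← ofReal_cosh,
    ← ofReal_sin, ← ofReal_cos]
  simp [-ofReal_sinh, -ofReal_cosh, -ofReal_cos, -ofReal_sin]

theorem sinh_im (w : ℂ) : (sinh w).im = Real.cosh w.re * Real.sin w.im := by
  conv_lhs => rw [← re_add_im w, sinh_add, sinh_mul_I, cosh_mul_I, ← ofReal_sinh, ← ofReal_cosh,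
    ← ofReal_sin, ← ofReal_cos]
  simp [-ofReal_sinh, -ofReal_cosh, -ofReal_cos, -ofReal_sin]

theorem cosh_re (w : ℂ) : (cosh w).re = Real.cosh w.re * Real.cos w.im := by
  conv_lhs => rw [← re_add_im w, cosh_add, sinh_mul_I, cosh_mul_I, ← ofReal_sinh, ← ofReal_cosh,
    ← ofReal_sin, ← ofReal_cos]
  simp [-ofReal_sinh, -ofReal_cosh, -ofReal_cos, -ofReal_sin]

theorem cosh_im (w : ℂ) : (cosh w).im = Real.sinh w.re * Real.sin w.im := by
  conv_lhs => rw [← re_add_im w, cosh_add, sinh_mul_I, cosh_mul_I, ← ofReal_sinh, ← ofReal_cosh,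
    ← ofReal_sin, ← ofReal_cos]
  simp [-ofReal_sinh, -ofReal_cosh, -ofReal_cos, -ofReal_sin]

theorem sin_re (z : ℂ) : (sin z).re = Real.sin z.re * Real.cosh z.im := by
  conv_lhs => rw [← re_add_im z, sin_add, sin_mul_I, cos_mul_I, ← ofReal_sinh, ← ofReal_cosh,
    ← ofReal_sin, ← ofReal_cos]
  simp [-ofReal_sinh, -ofReal_cosh, -ofReal_cos, -ofReal_sin]

theorem sin_im (z : ℂ) : (sin z).im = Real.cos z.re * Real.sinh z.im := by
  conv_lhs => rw [← re_add_im z, sin_add, sin_mul_I, cos_mul_I, ← ofReal_sinh, ← ofReal_cosh,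
    ← ofReal_sin, ← ofReal_cos]
  simp [-ofReal_sinh, -ofReal_cosh, -ofReal_cos, -ofReal_sin]

theorem cos_re (z : ℂ) : (cos z).re = Real.cos z.re * Real.cosh z.im := by
  conv_lhs => rw [← re_add_im z, cos_add, sin_mul_I, cos_mul_I, ← ofReal_sinh, ← ofReal_cosh,
    ← ofReal_sin, ← ofReal_cos]
  simp [-ofReal_sinh, -ofReal_cosh, -ofReal_cos, -ofReal_sin]

theorem cos_im (z : ℂ) : (cos z).im = -(Real.sin z.re * Real.sinh z.im) := by
  conv_lhs => rw [← re_add_im z, cos_add, sin_mul_I, cos_mul_I, ← ofReal_sinh, ← ofReal_cosh,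
    ← ofReal_sin, ← ofReal_cos]
  simp [-ofReal_sinh, -ofReal_cosh, -ofReal_cos, -ofReal_sin]

theorem sinh_mul_conj (u w : ℂ) :
    sinh u * conj (sinh w) = (cosh (u + conj w) - cosh (u - conj w)) / 2 := by
  rw [← sinh_conj, cosh_add, sub_eq_add_neg u, cosh_add, cosh_neg, sinh_neg]
  ring

theorem norm_sinh_sq (w : ℂ) : ‖sinh w‖ ^ 2 = (Real.cosh (2 * w.re) - Real.cos (2 * w.im)) / 2 := by
  rw [← normSq_eq_norm_sq, normSq_apply, sinh_re, sinh_im, Real.cosh_two_mul, Real.cos_two_mul]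
  have h1 := Real.cosh_sq w.re
  have h2 := Real.sin_sq_add_cos_sq w.im
  linarith only [h1, mul_nonneg (sq_nonneg (Real.cosh w.re)) (sub_nonneg.2 h2.le),
    mul_nonneg (sq_nonneg (Real.cosh w.re)) (sub_nonneg.2 h2.ge),
    mul_nonneg (sq_nonneg (Real.cos w.im)) (sub_nonneg.2 h1.le),
    mul_nonneg (sq_nonneg (Real.cos w.im)) (sub_nonneg.2 h1.ge)]

/-! ### Arguments -/

theorem mul_conj_eq {S T : ℂ} : S * conj T = ((‖S‖ * ‖T‖ : ℝ) : ℂ) *
    exp ((S.arg - T.arg : ℝ) * I) := by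
  have h1 : conj T = ‖T‖ * exp (-(T.arg * I)) := by
    conv_lhs => rw [← norm_mul_exp_arg_mul_I T]
    rw [map_mul, conj_ofReal, ← exp_conj, map_mul, conj_ofReal, conj_I, mul_neg]
  conv_lhs => rw [h1, ← norm_mul_exp_arg_mul_I S]
  rw [show (((S.arg - T.arg : ℝ) : ℂ)) * I = S.arg * I + -(T.arg * I) by push_cast; ring, exp_add]
  push_cast
  ring

theorem im_mul_conj (S T : ℂ) : (S * conj T).im = ‖S‖ * ‖T‖ * Real.sin (S.arg - T.arg) := by
  rw [mul_conj_eq, im_ofReal_mul, exp_ofReal_mul_I_im]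

theorem re_mul_conj (S T : ℂ) : (S * conj T).re = ‖S‖ * ‖T‖ * Real.cos (S.arg - T.arg) := by
  rw [mul_conj_eq, re_ofReal_mul, exp_ofReal_mul_I_re]

theorem sin_pos_range {δ : ℝ} (h : 0 < Real.sin δ) (h1 : -Real.pi ≤ δ) (h2 : δ < 2 * Real.pi) :
    0 < δ ∧ δ < Real.pi := by
  constructor
  · by_contra hc
    push Not at hc
    have := Real.sin_nonpos_of_nonpos_of_neg_pi_le hc h1
    linarith only [this, h]
  · by_contra hc
    push Not at hc
    have h3 : Real.sin (δ - 2 * Real.pi) ≤ 0 :=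
      Real.sin_nonpos_of_nonpos_of_neg_pi_le (by linarith only [h2]) (by linarith only [hc])
    rw [Real.sin_sub_two_pi] at h3
    linarith only [h3, h]

theorem sin_pos_of_mul_conj {S T : ℂ} (h : 0 < (S * conj T).im) :
    0 < Real.sin (S.arg - T.arg) := by
  rw [im_mul_conj] at h
  by_contra hc
  push Not at hc
  have := mul_nonpos_of_nonneg_of_nonpos (mul_nonneg (norm_nonneg S) (norm_nonneg T)) hc
  linarith only [this, h]

theorem arg_sub_range {S T : ℂ} (h : 0 < (S * conj T).im) (h1 : -Real.pi ≤ S.arg - T.arg)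
    (h2 : S.arg - T.arg < 2 * Real.pi) : 0 < S.arg - T.arg ∧ S.arg - T.arg < Real.pi :=
  sin_pos_range (sin_pos_of_mul_conj h) h1 h2

theorem arg_right {z : ℂ} (h : 0 < z.re) : -(Real.pi / 2) < z.arg ∧ z.arg < Real.pi / 2 :=
  abs_lt.1 (abs_arg_lt_pi_div_two_iff.2 (Or.inl h))

theorem arg_low {z : ℂ} (h2 : z.im < 0) : -Real.pi < z.arg ∧ z.arg < 0 :=
  ⟨neg_pi_lt_arg z, arg_neg_iff.2 h2⟩

theorem log_unique {A B : ℂ} (h : exp A = exp B) (h1 : -(2 * Real.pi) < A.im - B.im)
    (h2 : A.im - B.im < 2 * Real.pi) : A = B := by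
  obtain ⟨n, hn⟩ := exp_eq_exp_iff_exists_int.1 h
  have hpi := Real.pi_pos
  have e : A.im - B.im = 2 * Real.pi * n := by
    rw [hn, add_im]
    have : ((n : ℂ) * (2 * Real.pi * I)).im = 2 * Real.pi * n := by
      simp [mul_im]
      ring
    rw [this]
    ring
  rw [e] at h1 h2
  have h3 : (-1 : ℝ) < n := by
    by_contra hc
    push Not at hc
    linarith only [h1, mul_nonneg (sub_nonneg.2 h1.le) (sub_nonneg.2 hc),
      mul_nonneg (sub_nonneg.2 h2.le) (sub_nonneg.2 hc)]
  have h4 : (n : ℝ) < 1 := by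
    by_contra hc
    push Not at hc
    linarith only [h2, mul_nonneg (sub_nonneg.2 h1.le) (sub_nonneg.2 hc),
      mul_nonneg (sub_nonneg.2 h2.le) (sub_nonneg.2 hc)]
  have h5 : -1 < n := by exact_mod_cast h3
  have h6 : n < 1 := by exact_mod_cast h4
  have h7 : n = 0 := by omega
  rw [hn, h7]
  simp

/-! ### The function `hh` -/

theorem exp_hh {u : ℂ} (h0 : 0 < u.re) (h1 : u.re < 1) : exp (hh u) = 2 * sin (Real.pi * u) := by
  rw [← he_eq_hh h0 h1]
  exact exp_he (Or.inr ⟨h0, h1⟩)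

theorem pi_mul_re (u : ℂ) : ((Real.pi : ℂ) * u).re = Real.pi * u.re := re_ofReal_mul _ _

theorem pi_mul_im (u : ℂ) : ((Real.pi : ℂ) * u).im = Real.pi * u.im := im_ofReal_mul _ _

theorem hh_im_le {u : ℂ} (h0 : 0 < u.re) (h1 : u.re < 1) :
    |(hh u).im| ≤ |Real.pi * u.re - Real.pi / 2| := by
  have hpi := Real.pi_pos
  have k0 : 0 < Real.pi * u.re := by positivity
  have k1 : Real.pi * u.re < Real.pi := by linarith only [mul_pos (sub_pos.2 h1) (sub_pos.2 hpi)]
  have hs : 0 < Real.sin (Real.pi * u.re) := Real.sin_pos_of_pos_of_lt_pi k0 k1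
  have hre : (2 * sin (Real.pi * u)).re =
      2 * (Real.sin (Real.pi * u.re) * Real.cosh (Real.pi * u.im)) := by
    have : (2 : ℂ) = ((2 : ℝ) : ℂ) := by norm_num
    rw [this, re_ofReal_mul, sin_re, pi_mul_re, pi_mul_im]
  have him : (2 * sin (Real.pi * u)).im =
      2 * (Real.cos (Real.pi * u.re) * Real.sinh (Real.pi * u.im)) := by
    have : (2 : ℂ) = ((2 : ℝ) : ℂ) := by norm_num
    rw [this, im_ofReal_mul, sin_im, pi_mul_re, pi_mul_im]
  have hc := Real.cosh_pos (Real.pi * u.im)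
  have hr : 0 < (2 * sin (Real.pi * u)).re := by
    rw [hre]
    positivity
  unfold hh
  rw [log_im]
  obtain ⟨a1, a2⟩ := arg_right hr
  have ht : Real.tan (2 * sin (Real.pi * u)).arg =
      Real.tan (Real.pi / 2 - Real.pi * u.re) * Real.tanh (Real.pi * u.im) := by
    rw [tan_arg, hre, him, Real.tan_eq_sin_div_cos, Real.sin_pi_div_two_sub,
      Real.cos_pi_div_two_sub, Real.tanh_eq_sinh_div_cosh]
    field_simp
  have h3 : (2 * sin (Real.pi * u)).arg = Real.arctan (Real.tan (2 * sin (Real.pi * u)).arg) :=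
    (Real.arctan_tan a1 a2).symm
  set θ := Real.pi / 2 - Real.pi * u.re with hθ
  have e4 : |Real.pi * u.re - Real.pi / 2| = |θ| := by
    rw [hθ, abs_sub_comm]
  have e5 : |θ| = Real.arctan |Real.tan θ| := by
    rcases le_total 0 θ with h | h
    · rw [abs_of_nonneg h, abs_of_nonneg (Real.tan_nonneg_of_nonneg_of_le_pi_div_two h (by linarith only [hθ,
                                                                                             k0])),
        Real.arctan_tan (by linarith only [hθ, k1]) (by linarith only [hθ, k0])]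
    · rw [abs_of_nonpos h, abs_of_nonpos (Real.tan_nonpos_of_nonpos_of_neg_pi_div_two_le h
        (by linarith only [hθ, k1])), Real.arctan_neg, Real.arctan_tan (by linarith only [hθ, k1]) (by linarith only [hθ,
                                                                                                         k0])]
  have e6 : |(2 * sin (Real.pi * u)).arg| = Real.arctan |Real.tan (2 * sin (Real.pi * u)).arg| := by
    set φ := (2 * sin (Real.pi * u)).arg
    rcases le_total 0 φ with h | h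
    · rw [abs_of_nonneg h, abs_of_nonneg (Real.tan_nonneg_of_nonneg_of_le_pi_div_two h (by linarith only [a2])),
        Real.arctan_tan (by linarith only [a1]) (by linarith only [a2])]
    · rw [abs_of_nonpos h, abs_of_nonpos (Real.tan_nonpos_of_nonpos_of_neg_pi_div_two_le h
        (by linarith only [a1])), Real.arctan_neg, Real.arctan_tan (by linarith only [a1]) (by linarith only [a2])]
  rw [e4, e5, e6, ht]
  apply Real.arctan_mono
  rw [abs_mul]
  have h7 : |Real.tanh (Real.pi * u.im)| ≤ 1 := by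
    rw [Real.tanh_eq_sinh_div_cosh, abs_div, abs_of_pos hc, div_le_one hc]
    rw [abs_le]
    have h8 := Real.cosh_add_sinh (Real.pi * u.im)
    have h9 := Real.cosh_sub_sinh (Real.pi * u.im)
    have h10 := Real.exp_pos (Real.pi * u.im)
    have h11 := Real.exp_pos (-(Real.pi * u.im))
    constructor <;> linarith
  (refine le_of_not_gt fun hng => ?_; linarith only [mul_nonneg (sub_nonneg.2 h7) (sub_nonneg.2 (abs_nonneg (Real.tan θ))),
    mul_pos (sub_pos.2 hng) (sub_pos.2 h1), mul_pos (sub_pos.2 hng) (sub_pos.2 h0)])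

theorem hh_im_lt {u : ℂ} (h0 : 0 < u.re) (h1 : u.re < 1) :
    -(Real.pi / 2) < (hh u).im ∧ (hh u).im < Real.pi / 2 := by
  have h := hh_im_le h0 h1
  have hpi := Real.pi_pos
  have h2 : |Real.pi * u.re - Real.pi / 2| < Real.pi / 2 := by
    rw [abs_lt]
    constructor <;> nlinarith
  exact abs_lt.1 (lt_of_le_of_lt h h2)

theorem two_sin_eq (u : ℂ) : 2 * sin (Real.pi * u) =
    I * (exp (-(Real.pi * I * u)) - exp (Real.pi * I * u)) := by
  rw [Complex.sin]
  have e1 : -(Real.pi * u : ℂ) * I = -(Real.pi * I * u) := by ring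
  have e2 : (Real.pi * u : ℂ) * I = Real.pi * I * u := by ring
  rw [e1, e2]
  ring

/-- The logarithm of a product of a Bailey step. -/
theorem LB {l1 lm l3 L u : ℂ} (h : exp l1 ^ 2 - exp lm * exp l3 = -exp L ^ 2)
    (hu : 2 * Real.pi * I * u = 2 * l1 - lm - l3) (h0 : 0 < u.re) (h1 : u.re < 1)
    (hL : L.im - l1.im < 0) (hL' : -Real.pi < L.im - l1.im) :
    hh u = Real.pi * I / 2 + 2 * L - l1 - lm / 2 - l3 / 2 := by
  have hpi := Real.pi_pos
  have hu' : Real.pi * I * u = l1 - lm / 2 - l3 / 2 := by linear_combination hu / 2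
  have e1 : exp (Real.pi * I * u) = exp (-l1 - lm / 2 - l3 / 2) * exp l1 ^ 2 := by
    rw [hu', ← exp_nat_mul, ← exp_add]
    congr 1
    push_cast
    ring
  have e2 : exp (-(Real.pi * I * u)) = exp (-l1 - lm / 2 - l3 / 2) * (exp lm * exp l3) := by
    rw [hu', ← exp_add, ← exp_add]
    congr 1
    ring
  have e3 : exp (Real.pi * I / 2 + 2 * L - l1 - lm / 2 - l3 / 2) =
      I * (exp (-l1 - lm / 2 - l3 / 2) * exp L ^ 2) := by
    have : Real.pi * I / 2 + 2 * L - l1 - lm / 2 - l3 / 2 =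
        Real.pi / 2 * I + ((-l1 - lm / 2 - l3 / 2) + (2 : ℕ) * L) := by
      push_cast
      ring
    rw [this, exp_add, exp_pi_div_two_mul_I, exp_add, exp_nat_mul]
  have hre : 2 * Real.pi * u.re = 2 * l1.im - lm.im - l3.im := by
    have h3 := congrArg Complex.im hu
    have h4 : (2 * Real.pi * I * u : ℂ) = ((2 * Real.pi : ℝ) : ℂ) * (I * u) := by
      push_cast
      ring
    rw [h4, im_ofReal_mul, I_mul_im] at h3
    rw [h3]
    simp
  have him : (Real.pi * I / 2 + 2 * L - l1 - lm / 2 - l3 / 2 : ℂ).im =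
      Real.pi / 2 + 2 * (L.im - l1.im) + Real.pi * u.re := by
    have h4 : (Real.pi * I / 2 + 2 * L - l1 - lm / 2 - l3 / 2 : ℂ) =
        ((Real.pi / 2 : ℝ) : ℂ) * I + ((2 : ℝ) : ℂ) * L - l1 - ((1 / 2 : ℝ) : ℂ) * lm -
          ((1 / 2 : ℝ) : ℂ) * l3 := by
      push_cast
      ring
    rw [h4]
    simp only [sub_im, add_im, im_ofReal_mul, I_im]
    linarith only [hre]
  have hb := abs_le.1 (hh_im_le h0 h1)
  have k0 : 0 < Real.pi * u.re := by positivity
  have k1 : Real.pi * u.re < Real.pi := by linarith only [mul_pos (sub_pos.2 h1) (sub_pos.2 hL'),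
                                             mul_pos (sub_pos.2 h1) (sub_pos.2 hL)]
  apply log_unique
  · rw [exp_hh h0 h1, two_sin_eq, e1, e2, e3]
    linear_combination (-I * exp (-l1 - lm / 2 - l3 / 2)) * h
  · rw [him]
    rcases le_total (Real.pi * u.re) (Real.pi / 2) with h5 | h5
    · rw [abs_of_nonpos (show Real.pi * u.re - Real.pi / 2 ≤ 0 by linarith only [h5])] at hb
      linarith only [hb.1, hL', hL]
    · rw [abs_of_nonneg (show 0 ≤ Real.pi * u.re - Real.pi / 2 by linarith only [h5])] at hb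
      linarith only [k1, hb.1, hL]
  · rw [him]
    rcases le_total (Real.pi * u.re) (Real.pi / 2) with h5 | h5
    · rw [abs_of_nonpos (show Real.pi * u.re - Real.pi / 2 ≤ 0 by linarith only [h5])] at hb
      linarith only [k0, hb.2, hL']
    · rw [abs_of_nonneg (show 0 ≤ Real.pi * u.re - Real.pi / 2 by linarith only [h5])] at hb
      linarith only [hb.2, hL', hL]

/-! ### Slots -/

/-- The logarithm of the numerator of a slot. -/
noncomputable def lA (q z : ℂ) : ℂ := log (sinh (q + I * z))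

/-- The logarithm of the denominator of a slot. -/
noncomputable def lB (q z : ℂ) : ℂ := log (sinh (q - I * z))

/-- The variable of the edge. -/
noncomputable def sy (q z : ℂ) : ℂ := (lA q z - lB q z) / (2 * Real.pi * I)

theorem sy_mul (q z : ℂ) : 2 * Real.pi * I * sy q z = lA q z - lB q z := by
  unfold sy
  rw [mul_div_cancel₀ _ Complex.two_pi_I_ne_zero]

theorem two_pi_I_mul_im (u : ℂ) : (2 * Real.pi * I * u : ℂ).im = 2 * Real.pi * u.re := by
  have h4 : (2 * Real.pi * I * u : ℂ) = ((2 * Real.pi : ℝ) : ℂ) * (I * u) := by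
    push_cast
    ring
  rw [h4, im_ofReal_mul, I_mul_im]

theorem two_pi_I_mul_re (u : ℂ) : (2 * Real.pi * I * u : ℂ).re = -(2 * Real.pi * u.im) := by
  have h4 : (2 * Real.pi * I * u : ℂ) = ((2 * Real.pi : ℝ) : ℂ) * (I * u) := by
    push_cast
    ring
  rw [h4, re_ofReal_mul, I_mul_re]
  ring

theorem sy_re_eq (q z : ℂ) : 2 * Real.pi * (sy q z).re = (lA q z).im - (lB q z).im := by
  rw [← two_pi_I_mul_im, sy_mul, sub_im]

theorem addI_re (q z : ℂ) : (q + I * z).re = q.re - z.im := by simp; ring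

theorem addI_im (q z : ℂ) : (q + I * z).im = q.im + z.re := by simp

theorem subI_re (q z : ℂ) : (q - I * z).re = q.re + z.im := by simp

theorem subI_im (q z : ℂ) : (q - I * z).im = q.im - z.re := by simp

theorem sinh_addI (q z : ℂ) : sinh (q + I * z) = sinh q * cos z + cosh q * (I * sin z) := by
  rw [mul_comm I z, sinh_add, sinh_mul_I, cosh_mul_I, mul_comm I]

theorem sinh_subI (q z : ℂ) : sinh (q - I * z) = sinh q * cos z - cosh q * (I * sin z) := by
  rw [mul_comm I z, sinh_sub, sinh_mul_I, cosh_mul_I, mul_comm I]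

theorem exp_I_mul (z : ℂ) : exp (I * z) = cos z + I * sin z := by
  rw [mul_comm I z, exp_mul_I, mul_comm I]

theorem exp_neg_I_mul (z : ℂ) : exp (-(I * z)) = cos z - I * sin z := by
  rw [show -(I * z) = (-z) * I by ring, exp_mul_I, cos_neg, sin_neg]
  ring

theorem up_of {q z : ℂ} (h0 : 0 < q.im + z.re) (h1 : q.im + z.re < Real.pi) :
    0 < (sinh (q + I * z)).im := by
  rw [sinh_im, addI_im]
  exact mul_pos (Real.cosh_pos _) (Real.sin_pos_of_pos_of_lt_pi h0 h1)

theorem rt_of {q z : ℂ} (h : 0 < q.re + z.im) (h0 : -(Real.pi / 2) < q.im - z.re)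
    (h1 : q.im - z.re < Real.pi / 2) : 0 < (sinh (q - I * z)).re := by
  rw [sinh_re, subI_re, subI_im]
  exact mul_pos (Real.sinh_pos_iff.2 h) (Real.cos_pos_of_mem_Ioo ⟨h0, h1⟩)

theorem yp_eq (q z : ℂ) : (sinh (q + I * z) * conj (sinh (q - I * z))).im =
    (Real.sinh (2 * q.re) * Real.sin (2 * z.re) +
      Real.sinh (2 * z.im) * Real.sin (2 * q.im)) / 2 := by
  rw [sinh_mul_conj]
  have e2 : ((cosh (q + I * z + conj (q - I * z)) - cosh (q + I * z - conj (q - I * z))) / 2).im =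
      ((cosh (q + I * z + conj (q - I * z))).im -
        (cosh (q + I * z - conj (q - I * z))).im) / 2 := by
    rw [show ((cosh (q + I * z + conj (q - I * z)) - cosh (q + I * z - conj (q - I * z))) / 2) =
      ((1 / 2 : ℝ) : ℂ) * (cosh (q + I * z + conj (q - I * z)) -
        cosh (q + I * z - conj (q - I * z))) by push_cast; ring, im_ofReal_mul, sub_im]
    ring
  rw [e2, cosh_im, cosh_im]
  simp only [add_re, sub_re, conj_re, conj_im, add_im, sub_im, mul_re, mul_im, I_re, I_im,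
    zero_mul, one_mul, zero_add, zero_sub]
  have a1 : q.re + -z.im + (q.re - -z.im) = 2 * q.re := by ring
  have a2 : q.im + z.re + -(q.im - z.re) = 2 * z.re := by ring
  have a3 : q.re + -z.im - (q.re - -z.im) = -(2 * z.im) := by ring
  have a4 : q.im + z.re - -(q.im - z.re) = 2 * q.im := by ring
  rw [a1, a2, a3, a4, Real.sinh_neg]
  ring

/-- The slots: `0 < re z < π / 2`, `0 < im z`. -/
structure Slot (q z : ℂ) : Prop where
  z0 : 0 < z.re
  z1 : z.re < Real.pi / 2
  zi : 0 < z.im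
  up : 0 < (sinh (q + I * z)).im
  rt : 0 < (sinh (q - I * z)).re
  yp : q = 0 ∨ 0 < (sinh (q + I * z) * conj (sinh (q - I * z))).im

theorem Slot.eA {q z : ℂ} (h : Slot q z) : exp (lA q z) = sinh (q + I * z) := by
  refine Complex.exp_log (fun h0 => ?_)
  have := h.up
  rw [h0] at this
  simp at this

theorem Slot.eB {q z : ℂ} (h : Slot q z) : exp (lB q z) = sinh (q - I * z) := by
  refine Complex.exp_log (fun h0 => ?_)
  have := h.rt
  rw [h0] at this
  simp at this

theorem lA_im_eq (q z : ℂ) : (lA q z).im = (sinh (q + I * z)).arg := log_im _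

theorem lB_im_eq (q z : ℂ) : (lB q z).im = (sinh (q - I * z)).arg := log_im _

theorem Slot.A_im {q z : ℂ} (h : Slot q z) : 0 < (lA q z).im ∧ (lA q z).im < Real.pi := by
  unfold lA
  rw [log_im]
  exact arg_up h.up

theorem Slot.B_im {q z : ℂ} (h : Slot q z) :
    -(Real.pi / 2) < (lB q z).im ∧ (lB q z).im < Real.pi / 2 := by
  unfold lB
  rw [log_im]
  exact arg_right h.rt

theorem sin_quad {z : ℂ} (h0 : 0 < z.re) (h1 : z.re < Real.pi / 2) (h2 : 0 < z.im) :
    0 < (sin z).re ∧ 0 < (sin z).im := by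
  rw [sin_re, sin_im]
  exact ⟨mul_pos (Real.sin_pos_of_pos_of_lt_pi h0 (by linarith only [h1, h0])) (Real.cosh_pos _),
    mul_pos (Real.cos_pos_of_mem_Ioo ⟨by linarith only [h1, h0], h1⟩) (Real.sinh_pos_iff.2 h2)⟩

theorem lA_zero {z : ℂ} (h0 : 0 < z.re) (h1 : z.re < Real.pi / 2) (h2 : 0 < z.im) :
    lA 0 z = Real.pi / 2 * I + log (sin z) := by
  obtain ⟨s1, s2⟩ := sin_quad h0 h1 h2
  have hpi := Real.pi_pos
  have hn : sin z ≠ 0 := fun h => by rw [h] at s1; simp at s1
  have e : sinh (0 + I * z) = I * sin z := by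
    rw [zero_add, mul_comm I z, sinh_mul_I, mul_comm]
  have hup : 0 < (I * sin z).im := by rw [I_mul_im]; exact s1
  have hn' : I * sin z ≠ 0 := mul_ne_zero I_ne_zero hn
  obtain ⟨a1, a2⟩ := arg_up hup
  obtain ⟨a3, a4⟩ := arg_quad s1 s2
  have e3 : (Real.pi / 2 * I + log (sin z) : ℂ).im = Real.pi / 2 + (sin z).arg := by
    rw [add_im, log_im, show (Real.pi / 2 * I : ℂ) = ((Real.pi / 2 : ℝ) : ℂ) * I by push_cast; rfl,
      im_ofReal_mul, I_im, mul_one]
  unfold lA
  rw [e]
  apply log_unique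
  · rw [exp_log hn', exp_add, exp_pi_div_two_mul_I, exp_log hn]
  · rw [e3, log_im]
    linarith only [a4, a1, h1, h0]
  · rw [e3, log_im]
    linarith only [a3, a2, h1, h0]

theorem lB_zero {z : ℂ} (h0 : 0 < z.re) (h1 : z.re < Real.pi / 2) (h2 : 0 < z.im) :
    lB 0 z = -(Real.pi / 2 * I) + log (sin z) := by
  obtain ⟨s1, s2⟩ := sin_quad h0 h1 h2
  have hpi := Real.pi_pos
  have hn : sin z ≠ 0 := fun h => by rw [h] at s1; simp at s1
  have e : sinh (0 - I * z) = -(I * sin z) := by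
    rw [zero_sub, sinh_neg, mul_comm I z, sinh_mul_I, mul_comm]
  have hup : 0 < (-(I * sin z)).re := by rw [neg_re, I_mul_re, neg_neg]; exact s2
  have hn' : -(I * sin z) ≠ 0 := neg_ne_zero.2 (mul_ne_zero I_ne_zero hn)
  obtain ⟨a1, a2⟩ := arg_right hup
  obtain ⟨a3, a4⟩ := arg_quad s1 s2
  have e3 : (-(Real.pi / 2 * I) + log (sin z) : ℂ).im = -(Real.pi / 2) + (sin z).arg := by
    rw [add_im, log_im, neg_im,
      show (Real.pi / 2 * I : ℂ) = ((Real.pi / 2 : ℝ) : ℂ) * I by push_cast; rfl,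
      im_ofReal_mul, I_im, mul_one]
  unfold lB
  rw [e]
  apply log_unique
  · rw [exp_log hn', exp_add, exp_neg, exp_pi_div_two_mul_I, exp_log hn, inv_I]
    ring
  · rw [e3, log_im]
    linarith only [a4, a1, h1, h0]
  · rw [e3, log_im]
    linarith only [a3, a2, h1, h0]

theorem sy_zero {z : ℂ} (h0 : 0 < z.re) (h1 : z.re < Real.pi / 2) (h2 : 0 < z.im) :
    sy 0 z = 1 / 2 := by
  have h := sy_mul 0 z
  rw [lA_zero h0 h1 h2, lB_zero h0 h1 h2] at h
  have h3 : (2 * Real.pi * I : ℂ) * (sy 0 z - 1 / 2) = 0 := by linear_combination h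
  rcases mul_eq_zero.1 h3 with h4 | h4
  · exact absurd h4 Complex.two_pi_I_ne_zero
  · linear_combination h4

theorem Slot.AB {q z : ℂ} (h : Slot q z) :
    0 < (lA q z).im - (lB q z).im ∧ (lA q z).im - (lB q z).im ≤ Real.pi := by
  have hpi := Real.pi_pos
  rcases h.yp with h0 | h0
  · rw [h0, lA_zero h.z0 h.z1 h.zi, lB_zero h.z0 h.z1 h.zi]
    have e : (Real.pi / 2 * I + log (sin z) : ℂ).im - (-(Real.pi / 2 * I) + log (sin z) : ℂ).im =
        Real.pi := by
      rw [add_im, add_im, neg_im,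
        show (Real.pi / 2 * I : ℂ) = ((Real.pi / 2 : ℝ) : ℂ) * I by push_cast; rfl,
        im_ofReal_mul, I_im, mul_one]
      ring
    rw [e]
    exact ⟨hpi, le_refl _⟩
  · have a := h.A_im
    have b := h.B_im
    rw [lA_im_eq] at a ⊢
    rw [lB_im_eq] at b ⊢
    have := arg_sub_range h0 (by linarith only [b.2, a.2, a.1]) (by linarith only [b.1, a.2, a.1])
    exact ⟨this.1, this.2.le⟩

theorem Slot.sy_re {q z : ℂ} (h : Slot q z) : 0 < (sy q z).re ∧ (sy q z).re ≤ 1 / 2 := by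
  have hpi := Real.pi_pos
  have e := sy_re_eq q z
  obtain ⟨h1, h2⟩ := h.AB
  constructor
  · by_contra hc
    push Not at hc
    linarith only [h1, e, mul_nonneg (sub_nonneg.2 hpi.le) (sub_nonneg.2 hc)]
  · by_contra hc
    push Not at hc
    linarith only [h2, e, mul_pos (sub_pos.2 hpi) (sub_pos.2 hc)]

theorem Slot.sy_lt {q z : ℂ} (h : Slot q z) (h0 : q ≠ 0) : (sy q z).re < 1 / 2 := by
  have hpi := Real.pi_pos
  have e := sy_re_eq q z
  have a := h.A_im
  have b := h.B_im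
  have h1 := h.yp.resolve_left h0
  rw [lA_im_eq] at a e
  rw [lB_im_eq] at b e
  have := arg_sub_range h1 (by linarith only [b.2, a.2, a.1]) (by linarith only [b.1, a.2, a.1])
  by_contra hc
  push Not at hc
  linarith only [this.2, e, mul_nonneg (sub_nonneg.2 hpi.le) (sub_nonneg.2 hc)]

/-- The variable of the vertex. -/
theorem v_re (z : ℂ) : (z / Real.pi).re = z.re / Real.pi := div_ofReal_re _ _

theorem v_im (z : ℂ) : (z / Real.pi).im = z.im / Real.pi := div_ofReal_im _ _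

theorem v_mul (z : ℂ) : Real.pi * I * (z / Real.pi) = I * z := by
  have := pi_ne
  field_simp

theorem Slot.v_range {q z : ℂ} (h : Slot q z) : 0 < (z / Real.pi).re ∧ (z / Real.pi).re < 1 / 2 := by
  have hpi := Real.pi_pos
  rw [v_re]
  refine ⟨div_pos h.z0 hpi, ?_⟩
  rw [div_lt_iff₀ hpi]
  linarith only [h.z1]

theorem Slot.yv {q z : ℂ} (h : Slot q z) : 0 < (sy q z + z / Real.pi).re ∧
    (sy q z + z / Real.pi).re < 1 := by
  obtain ⟨h1, h2⟩ := h.sy_re
  obtain ⟨h3, h4⟩ := h.v_range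
  rw [add_re]
  constructor <;> linarith

theorem Slot.ymv {q z : ℂ} (h : Slot q z) : -(1 / 2) < (sy q z - z / Real.pi).re ∧
    (sy q z - z / Real.pi).re < 1 / 2 := by
  obtain ⟨h1, h2⟩ := h.sy_re
  obtain ⟨h3, h4⟩ := h.v_range
  rw [sub_re]
  constructor <;> linarith

theorem Slot.sp {q z : ℂ} (h : Slot q z) : 2 * sin (Real.pi * (sy q z + z / Real.pi)) =
    exp (-(lA q z + lB q z) / 2) * exp q * sin (2 * z) := by
  have e1 : exp (-(Real.pi * I * (sy q z + z / Real.pi))) =
      exp (-(lA q z + lB q z) / 2) * exp (lB q z) * exp (-(I * z)) := by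
    rw [← exp_add, ← exp_add]
    congr 1
    linear_combination -(sy_mul q z) / 2 - v_mul z
  have e2 : exp (Real.pi * I * (sy q z + z / Real.pi)) =
      exp (-(lA q z + lB q z) / 2) * exp (lA q z) * exp (I * z) := by
    rw [← exp_add, ← exp_add]
    congr 1
    linear_combination (sy_mul q z) / 2 + v_mul z
  have e3 : exp q = cosh q + sinh q := (cosh_add_sinh q).symm
  rw [two_sin_eq, e1, e2, h.eA, h.eB, sinh_addI, sinh_subI, exp_I_mul, exp_neg_I_mul, e3,
    sin_two_mul]
  linear_combination (-2 * exp (-(lA q z + lB q z) / 2) * (sinh q + cosh q) * sin z * cos z) * I_sq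

theorem Slot.sm {q z : ℂ} (h : Slot q z) : 2 * sin (Real.pi * (sy q z - z / Real.pi)) =
    exp (-(lA q z + lB q z) / 2) * exp (-q) * sin (2 * z) := by
  have e1 : exp (-(Real.pi * I * (sy q z - z / Real.pi))) =
      exp (-(lA q z + lB q z) / 2) * exp (lB q z) * exp (I * z) := by
    rw [← exp_add, ← exp_add]
    congr 1
    linear_combination -(sy_mul q z) / 2 + v_mul z
  have e2 : exp (Real.pi * I * (sy q z - z / Real.pi)) =
      exp (-(lA q z + lB q z) / 2) * exp (lA q z) * exp (-(I * z)) := by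
    rw [← exp_add, ← exp_add]
    congr 1
    linear_combination (sy_mul q z) / 2 - v_mul z
  have e3 : exp (-q) = cosh q - sinh q := (cosh_sub_sinh q).symm
  rw [two_sin_eq, e1, e2, h.eA, h.eB, sinh_addI, sinh_subI, exp_I_mul, exp_neg_I_mul, e3,
    sin_two_mul]
  linear_combination (2 * exp (-(lA q z + lB q z) / 2) * (sinh q - cosh q) * sin z * cos z) * I_sq

theorem Slot.sh {q z : ℂ} (h : Slot q z) : 2 * sin (Real.pi * (sy q z + 1 / 2)) =
    exp (-(lA q z + lB q z) / 2) * (2 * sinh q * cos z) := by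
  have e0 : 2 * sin (Real.pi * (sy q z + 1 / 2)) =
      exp (Real.pi * I * sy q z) + exp (-(Real.pi * I * sy q z)) := by
    have : (Real.pi * (sy q z + 1 / 2) : ℂ) = Real.pi * sy q z + Real.pi / 2 := by ring
    rw [this, sin_add_pi_div_two, Complex.cos]
    have e1 : (Real.pi * sy q z : ℂ) * I = Real.pi * I * sy q z := by ring
    have e2 : -(Real.pi * sy q z : ℂ) * I = -(Real.pi * I * sy q z) := by ring
    rw [e1, e2]
    ring
  have e1 : exp (-(Real.pi * I * sy q z)) = exp (-(lA q z + lB q z) / 2) * exp (lB q z) := by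
    rw [← exp_add]
    congr 1
    linear_combination -(sy_mul q z) / 2
  have e2 : exp (Real.pi * I * sy q z) = exp (-(lA q z + lB q z) / 2) * exp (lA q z) := by
    rw [← exp_add]
    congr 1
    linear_combination (sy_mul q z) / 2
  rw [e0, e1, e2, h.eA, h.eB, sinh_addI, sinh_subI]
  ring

/-- The logarithm of `sin 2 z`. -/
noncomputable def L2 (z : ℂ) : ℂ := log (sin (2 * z))

theorem sin2_re {z : ℂ} (h0 : 0 < z.re) (h1 : z.re < Real.pi / 2) : 0 < (sin (2 * z)).re := by
  have e : (2 * z).re = 2 * z.re := by simp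
  rw [sin_re, e]
  exact mul_pos (Real.sin_pos_of_pos_of_lt_pi (by linarith only [h0]) (by linarith only [h1])) (Real.cosh_pos _)

theorem L2_im {z : ℂ} (h0 : 0 < z.re) (h1 : z.re < Real.pi / 2) :
    -(Real.pi / 2) < (L2 z).im ∧ (L2 z).im < Real.pi / 2 := by
  unfold L2
  rw [log_im]
  exact arg_right (sin2_re h0 h1)

theorem exp_L2 {z : ℂ} (h0 : 0 < z.re) (h1 : z.re < Real.pi / 2) : exp (L2 z) = sin (2 * z) := by
  refine Complex.exp_log (fun h => ?_)
  have := sin2_re h0 h1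
  rw [h] at this
  simp at this

theorem half_im (u : ℂ) : (u / 2).im = u.im / 2 := by
  rw [show u / 2 = u / ((2 : ℝ) : ℂ) by push_cast; rfl, div_ofReal_im]

theorem half_re (u : ℂ) : (u / 2).re = u.re / 2 := by
  rw [show u / 2 = u / ((2 : ℝ) : ℂ) by push_cast; rfl, div_ofReal_re]

/-- `he (y + v)`. -/
theorem Slot.hp {q z : ℂ} (h : Slot q z)
    (b0 : -(3 * Real.pi / 2) ≤ q.im + (L2 z).im - (lA q z).im / 2 - (lB q z).im / 2)
    (b1 : q.im + (L2 z).im - (lA q z).im / 2 - (lB q z).im / 2 ≤ 3 * Real.pi / 2) :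
    he (sy q z + z / Real.pi) = q + L2 z - lA q z / 2 - lB q z / 2 := by
  obtain ⟨h1, h2⟩ := h.yv
  have hb := hh_im_lt h1 h2
  rw [he_eq_hh h1 h2]
  apply log_unique
  · rw [exp_hh h1 h2, h.sp, ← exp_L2 h.z0 h.z1, ← exp_add, ← exp_add]
    congr 1
    ring
  · simp only [sub_im, add_im, half_im]
    linarith only [hb.1, b1]
  · simp only [sub_im, add_im, half_im]
    linarith only [hb.2, b0]

/-- `he (y - v)`. -/
theorem Slot.hm {q z : ℂ} (h : Slot q z) (hf : fdom (sy q z - z / Real.pi))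
    (b0 : -(2 * Real.pi) < (he (sy q z - z / Real.pi)).im -
      (-q.im + (L2 z).im - (lA q z).im / 2 - (lB q z).im / 2))
    (b1 : (he (sy q z - z / Real.pi)).im -
      (-q.im + (L2 z).im - (lA q z).im / 2 - (lB q z).im / 2) < 2 * Real.pi) :
    he (sy q z - z / Real.pi) = -q + L2 z - lA q z / 2 - lB q z / 2 := by
  apply log_unique
  · rw [exp_he hf, h.sm, ← exp_L2 h.z0 h.z1, ← exp_add, ← exp_add]
    congr 1
    ring
  · simp only [sub_im, add_im, half_im, neg_im]
    exact b0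
  · simp only [sub_im, add_im, half_im, neg_im]
    exact b1

theorem he_im_low {u : ℂ} (h : u.im < 0) (h0 : -(1 / 2) < u.re) (h1 : u.re < 1 / 2) :
    -Real.pi < (he u).im ∧ (he u).im < 0 := by
  have hpi := Real.pi_pos
  rw [he_eq_log (Or.inl h.ne) (by linarith only [h0]) (by linarith only [h1]), log_im]
  apply arg_low
  rw [sin_pi_im]
  have h2 : 0 < Real.cos (Real.pi * u.re) :=
    Real.cos_pos_of_mem_Ioo ⟨by linarith only [mul_pos (sub_pos.2 h0) (sub_pos.2 hpi)], by linarith only [mul_pos (sub_pos.2 h1) (sub_pos.2 hpi)]⟩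
  have h3 : Real.sinh (Real.pi * u.im) < 0 := Real.sinh_neg_iff.2 (by linarith only [mul_pos (sub_pos.2 h) (sub_pos.2 hpi)])
  linarith only [mul_pos (sub_pos.2 h2) (sub_pos.2 h3)]

/-- `he (y - v)` if `im (y - v) < 0`. -/
theorem Slot.hm_low {q z : ℂ} (h : Slot q z) (hi : (sy q z - z / Real.pi).im < 0)
    (b0 : -(2 * Real.pi) ≤ -q.im + (L2 z).im - (lA q z).im / 2 - (lB q z).im / 2)
    (b1 : -q.im + (L2 z).im - (lA q z).im / 2 - (lB q z).im / 2 ≤ Real.pi) :
    he (sy q z - z / Real.pi) = -q + L2 z - lA q z / 2 - lB q z / 2 := by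
  obtain ⟨h1, h2⟩ := h.ymv
  have hb := he_im_low hi h1 h2
  refine h.hm (Or.inl hi.ne) ?_ ?_
  · linarith only [hb.1, b1]
  · linarith only [hb.2, b0]

/-- `im (y - v) < 0`. -/
theorem Slot.low {q z : ℂ} (h : Slot q z) (h0 : 0 ≤ Real.sin (2 * q.im))
    (h1 : Real.cos (2 * (q.im + z.re)) ≤ 0) : (sy q z - z / Real.pi).im < 0 := by
  have hpi := Real.pi_pos
  have hs : 0 < Real.sin (2 * z.re) :=
    Real.sin_pos_of_pos_of_lt_pi (by linarith only [h.z0]) (by linarith only [h.z1])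
  have hA : sinh (q + I * z) ≠ 0 := by rw [← h.eA]; exact exp_ne_zero _
  have hB : sinh (q - I * z) ≠ 0 := by rw [← h.eB]; exact exp_ne_zero _
  have e1 := norm_sinh_sq (q + I * z)
  have e2 := norm_sinh_sq (q - I * z)
  rw [addI_re, addI_im] at e1
  rw [subI_re, subI_im] at e2
  have hE : 1 < Real.exp (2 * z.im) := Real.one_lt_exp_iff.2 (by linarith only [h.zi])
  have c1 : Real.cosh (2 * (q.re - z.im)) =
      (Real.exp (2 * q.re) * (Real.exp (2 * z.im))⁻¹ +
        (Real.exp (2 * q.re))⁻¹ * Real.exp (2 * z.im)) / 2 := by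
    rw [Real.cosh_eq, ← Real.exp_neg, ← Real.exp_neg, ← Real.exp_add, ← Real.exp_add]
    congr 3 <;> ring
  have c2 : Real.cosh (2 * (q.re + z.im)) =
      (Real.exp (2 * q.re) * Real.exp (2 * z.im) +
        (Real.exp (2 * q.re))⁻¹ * (Real.exp (2 * z.im))⁻¹) / 2 := by
    rw [Real.cosh_eq, ← Real.exp_neg, ← Real.exp_neg, ← Real.exp_add, ← Real.exp_add]
    congr 3 <;> ring
  have c3 : Real.cos (2 * (q.im - z.re)) - Real.cos (2 * (q.im + z.re)) =
      2 * (Real.sin (2 * q.im) * Real.sin (2 * z.re)) := by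
    rw [show 2 * (q.im - z.re) = 2 * q.im - 2 * z.re by ring,
      show 2 * (q.im + z.re) = 2 * q.im + 2 * z.re by ring, Real.cos_sub, Real.cos_add]
    ring
  have key : ‖sinh (q - I * z)‖ ^ 2 < ‖sinh (q + I * z)‖ ^ 2 * Real.exp (2 * z.im) ^ 2 := by
    rw [e1, e2, c1, c2]
    set E := Real.exp (2 * z.im)
    set X := Real.exp (2 * q.re)
    have hX : 0 < X := Real.exp_pos _
    have hE0 : 0 < E := Real.exp_pos _
    have d1 : E * E⁻¹ = 1 := mul_inv_cancel₀ hE0.ne'
    have d2 : 0 < X⁻¹ := inv_pos.2 hX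
    have d3 : E⁻¹ < 1 := inv_lt_one_of_one_lt₀ hE
    have d4 : 0 < X⁻¹ * (E ^ 3 - E⁻¹) := by
      apply mul_pos d2
      linarith only [d3, hE, mul_pos (sub_pos.2 hE) (sub_pos.2 hE),
        mul_nonneg (mul_self_nonneg (E)) (sub_nonneg.2 hE.le)]
    have d5 : 0 ≤ -(Real.cos (2 * (q.im + z.re))) * (E ^ 2 - 1) := by
      apply mul_nonneg (by linarith only [h1])
      linarith only [hE, mul_pos (sub_pos.2 hE) (sub_pos.2 hE)]
    have d6 : 0 ≤ Real.sin (2 * q.im) * Real.sin (2 * z.re) := mul_nonneg h0 hs.le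
    have d7 : (X * E⁻¹ + X⁻¹ * E) * E ^ 2 = X * E + X⁻¹ * E ^ 3 := by
      linear_combination (X * E) * d1
    linarith only [d7, d6, d5, d4, c3]
  have hn : ‖sinh (q - I * z)‖ < ‖sinh (q + I * z)‖ * Real.exp (2 * z.im) := by
    rw [← mul_pow] at key
    exact lt_of_pow_lt_pow_left₀ 2 (by positivity) key
  have hlog : Real.log ‖sinh (q - I * z)‖ < Real.log ‖sinh (q + I * z)‖ + 2 * z.im := by
    have h3 := Real.log_lt_log (norm_pos_iff.2 hB) hn
    rwa [Real.log_mul (norm_ne_zero_iff.2 hA) (Real.exp_ne_zero _), Real.log_exp] at h3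
  have e : 2 * Real.pi * (sy q z - z / Real.pi).im =
      Real.log ‖sinh (q - I * z)‖ - Real.log ‖sinh (q + I * z)‖ - 2 * z.im := by
    have h4 : 2 * Real.pi * I * (sy q z - z / Real.pi) = lA q z - lB q z - 2 * (I * z) := by
      linear_combination sy_mul q z - 2 * v_mul z
    have h5 := congrArg Complex.re h4
    rw [two_pi_I_mul_re, sub_re, sub_re] at h5
    have h6 : (2 * (I * z)).re = -(2 * z.im) := by
      simp
    rw [h6] at h5
    unfold lA lB at h5
    rw [log_re, log_re] at h5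
    linarith only [h5]
  by_contra hc
  push Not at hc
  have := mul_nonneg (by positivity : (0 : ℝ) ≤ 2 * Real.pi) hc
  linarith only [this, e, hlog]

end Pool.Agent.S5.G
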