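import Pool.Agent.S5.G.Sh
import Pool.Agent.S5.S.Defs

/-!
# Nodes in closed form: paths, and nodes with two half twists
-/

set_option autoImplicit false

namespace Pool.Agent.S5.G

open Complex Pool.Agent.H63.VC3 Pool.Agent.H63.VC5 Pool.Agent.H63.GV Pool.Agent.S3
open Pool.Agent.S3.G (arg_up arg_quad pi_ne fe_lim_zero)
open Filter Topology
open scoped ComplexConjugate

/-! ### Paths -/

/-- The vertex on the path. -/
noncomputable def zt (n : ℕ) (s : ℂ) (t : ℝ) : ℂ := (Real.pi + I * (t * s)) / n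

theorem zt_re {n : ℕ} (s : ℂ) (t : ℝ) : (zt n s t).re = (Real.pi - t * s.im) / n := by
  unfold zt
  rw [show ((n : ℕ) : ℂ) = ((n : ℝ) : ℂ) by push_cast; rfl, div_ofReal_re, add_re, I_mul_re,
    im_ofReal_mul, ofReal_re]
  ring

theorem zt_im {n : ℕ} (s : ℂ) (t : ℝ) : (zt n s t).im = t * s.re / n := by
  unfold zt
  rw [show ((n : ℕ) : ℂ) = ((n : ℝ) : ℂ) by push_cast; rfl, div_ofReal_im, add_im, I_mul_im,
    re_ofReal_mul, ofReal_im]
  ring

theorem zt_zero (n : ℕ) (s : ℂ) : zt n s 0 = Real.pi / n := by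
  unfold zt
  simp

theorem zt_hasDerivAt (n : ℕ) (s : ℂ) (t : ℝ) : HasDerivAt (zt n s) (I * s / n) t := by
  have h1 : HasDerivAt (fun t : ℝ => (t : ℂ) * s) s t := by
    simpa using (Complex.ofRealCLM.hasDerivAt (x := t)).mul_const s
  have h2 := ((h1.const_mul I).const_add (Real.pi : ℂ)).div_const (n : ℂ)
  exact h2

theorem mul_hasDerivAt (q : ℂ) (t : ℝ) : HasDerivAt (fun t : ℝ => (t : ℂ) * q) q t := by
  simpa using (Complex.ofRealCLM.hasDerivAt (x := t)).mul_const q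

theorem sinhA_hasDerivAt (n : ℕ) (q s : ℂ) (t : ℝ) :
    HasDerivAt (fun t : ℝ => sinh (t * q + I * zt n s t))
      (cosh (t * q + I * zt n s t) * (q + I * (I * s / n))) t := by
  have h := (mul_hasDerivAt q t).add ((zt_hasDerivAt n s t).const_mul I)
  exact HasDerivAt.comp t (Complex.hasDerivAt_sinh _) h

theorem sinhB_hasDerivAt (n : ℕ) (q s : ℂ) (t : ℝ) :
    HasDerivAt (fun t : ℝ => sinh (t * q - I * zt n s t))
      (cosh (t * q - I * zt n s t) * (q - I * (I * s / n))) t := by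
  have h := (mul_hasDerivAt q t).sub ((zt_hasDerivAt n s t).const_mul I)
  exact HasDerivAt.comp t (Complex.hasDerivAt_sinh _) h

theorem lA_diff {n : ℕ} {q s : ℂ} {t : ℝ} (h : sinh (t * q + I * zt n s t) ∈ slitPlane) :
    DifferentiableAt ℝ (fun t : ℝ => lA (t * q) (zt n s t)) t :=
  ((sinhA_hasDerivAt n q s t).clog_real h).differentiableAt

theorem lB_diff {n : ℕ} {q s : ℂ} {t : ℝ} (h : sinh (t * q - I * zt n s t) ∈ slitPlane) :
    DifferentiableAt ℝ (fun t : ℝ => lB (t * q) (zt n s t)) t :=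
  ((sinhB_hasDerivAt n q s t).clog_real h).differentiableAt

theorem sy_diff' {n : ℕ} {q s : ℂ} {t : ℝ} (h : sinh (t * q + I * zt n s t) ∈ slitPlane)
    (h' : sinh (t * q - I * zt n s t) ∈ slitPlane) :
    DifferentiableAt ℝ (fun t : ℝ => sy (t * q) (zt n s t)) t :=
  ((lA_diff h).sub (lB_diff h')).div_const (2 * Real.pi * I)

theorem Slot.slA {q z : ℂ} (h : Slot q z) : sinh (q + I * z) ∈ slitPlane := Or.inr h.up.ne'

theorem Slot.slB {q z : ℂ} (h : Slot q z) : sinh (q - I * z) ∈ slitPlane := Or.inl h.rt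

theorem sy_diff {n : ℕ} {q s : ℂ} {t : ℝ} (h : Slot (t * q) (zt n s t)) :
    DifferentiableAt ℝ (fun t : ℝ => sy (t * q) (zt n s t)) t := sy_diff' h.slA h.slB

theorem sin_pi_div_pos {n : ℕ} (hn : 2 ≤ n) : 0 < Real.sin (Real.pi / n) := by
  have hpi := Real.pi_pos
  have hn' : (2 : ℝ) ≤ n := by exact_mod_cast hn
  have h1 : Real.pi / n ≤ Real.pi / 2 := div_le_div_of_nonneg_left hpi.le (by norm_num) hn'
  exact Real.sin_pos_of_pos_of_lt_pi (by positivity) (by linarith)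

theorem sinhA_zero (n : ℕ) (q s : ℂ) : sinh (((0 : ℝ) : ℂ) * q + I * zt n s 0) =
    ((Real.sin (Real.pi / n) : ℝ) : ℂ) * I := by
  rw [zt_zero]
  simp only [ofReal_zero, zero_mul, zero_add]
  rw [mul_comm I, sinh_mul_I]
  push_cast
  ring

theorem sinhB_zero (n : ℕ) (q s : ℂ) : sinh (((0 : ℝ) : ℂ) * q - I * zt n s 0) =
    ((Real.sin (Real.pi / n) : ℝ) : ℂ) * -I := by
  rw [zt_zero]
  simp only [ofReal_zero, zero_mul, zero_sub]
  rw [sinh_neg, mul_comm I, sinh_mul_I]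
  push_cast
  ring

theorem slA0 {n : ℕ} (hn : 2 ≤ n) (q s : ℂ) :
    sinh (((0 : ℝ) : ℂ) * q + I * zt n s 0) ∈ slitPlane := by
  rw [sinhA_zero]
  refine Or.inr ?_
  rw [im_ofReal_mul, I_im, mul_one]
  exact (sin_pi_div_pos hn).ne'

theorem slB0 {n : ℕ} (hn : 2 ≤ n) (q s : ℂ) :
    sinh (((0 : ℝ) : ℂ) * q - I * zt n s 0) ∈ slitPlane := by
  rw [sinhB_zero]
  refine Or.inr ?_
  rw [im_ofReal_mul, neg_im, I_im]
  have := sin_pi_div_pos hn
  intro h
  linarith

theorem sy_path_zero {n : ℕ} (hn : 2 ≤ n) (q s : ℂ) :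
    sy (((0 : ℝ) : ℂ) * q) (zt n s 0) = 1 / 2 := by
  have hs := sin_pi_div_pos hn
  have h := sy_mul (((0 : ℝ) : ℂ) * q) (zt n s 0)
  have e1 : lA (((0 : ℝ) : ℂ) * q) (zt n s 0) - lB (((0 : ℝ) : ℂ) * q) (zt n s 0) =
      Real.pi * I := by
    unfold lA lB
    rw [sinhA_zero, sinhB_zero]
    apply Complex.ext
    · rw [sub_re, log_re, log_re, norm_mul, norm_mul, norm_neg]
      simp
    · rw [sub_im, log_im, log_im, arg_real_mul _ hs, arg_real_mul _ hs, arg_I, arg_neg_I]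
      simp
  rw [e1] at h
  have h3 : (2 * Real.pi * I : ℂ) * (sy (((0 : ℝ) : ℂ) * q) (zt n s 0) - 1 / 2) = 0 := by
    linear_combination h
  rcases mul_eq_zero.1 h3 with h4 | h4
  · exact absurd h4 Complex.two_pi_I_ne_zero
  · linear_combination h4

theorem sy_lim {n : ℕ} (hn : 2 ≤ n) (q s : ℂ) :
    Tendsto (fun t : ℝ => sy (t * q) (zt n s t)) (𝓝[>] 0) (𝓝 (1 / 2)) := by
  have h := (sy_diff' (slA0 hn q s) (slB0 hn q s)).continuousAt.tendsto
  rw [sy_path_zero hn] at h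
  exact h.mono_left nhdsWithin_le_nhds

theorem lA_lim {n : ℕ} (hn : 2 ≤ n) (q s : ℂ) :
    Tendsto (fun t : ℝ => lA (t * q) (zt n s t)) (𝓝[>] 0)
      (𝓝 (lA (((0 : ℝ) : ℂ) * q) (zt n s 0))) :=
  ((lA_diff (slA0 hn q s)).continuousAt.tendsto).mono_left nhdsWithin_le_nhds

/-- The variable of the vertex on the path. -/
noncomputable def vt (n : ℕ) (s : ℂ) (t : ℝ) : ℂ := zt n s t / Real.pi

theorem vt_hasDerivAt (n : ℕ) (s : ℂ) (t : ℝ) :
    HasDerivAt (vt n s) (I * s / n / Real.pi) t := (zt_hasDerivAt n s t).div_const _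

theorem vt_lim {n : ℕ} (s : ℂ) : Tendsto (vt n s) (𝓝[>] 0) (𝓝 (1 / n)) := by
  have h := (vt_hasDerivAt n s 0).continuousAt.tendsto
  have e : vt n s 0 = 1 / n := by
    unfold vt
    rw [zt_zero]
    have := pi_ne
    field_simp
  rw [e] at h
  exact h.mono_left nhdsWithin_le_nhds

/-- A function with derivative `0` on `(0, 1]` is its limit at `0`. -/
theorem const_path {F : ℝ → ℂ} {L : ℂ} (hd : ∀ t : ℝ, 0 < t → t ≤ 1 → HasDerivAt F 0 t)
    (hl : Tendsto F (𝓝[>] 0) (𝓝 L)) : F 1 = L := by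
  have h1 : ∀ t ∈ Set.Ioc (0 : ℝ) 1, F t = F 1 := by
    intro t ht
    have h2 := (convex_Ioc (0 : ℝ) 1).norm_image_sub_le_of_norm_hasDerivWithin_le (f := F)
      (f' := fun _ => 0) (C := 0) (fun x hx => (hd x hx.1 hx.2).hasDerivWithinAt)
      (fun x _ => by simp) ht (Set.right_mem_Ioc.2 one_pos)
    rw [zero_mul] at h2
    exact (sub_eq_zero.1 (norm_le_zero_iff.1 h2)).symm
  have h3 : Tendsto F (𝓝[>] 0) (𝓝 (F 1)) := by
    refine tendsto_const_nhds.congr' ?_
    filter_upwards [Ioc_mem_nhdsGT (zero_lt_one' ℝ)] with t ht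
    exact (h1 t ht).symm
  exact tendsto_nhds_unique h3 hl

theorem fe_lim_one : Tendsto fe (𝓝[{z | 0 < z.re ∧ z.re < 1}] 1) (𝓝 0) := by
  refine ff_lim_one.congr' ?_
  filter_upwards [self_mem_nhdsWithin] with z hz
  exact (fe_eq_ff hz.1 hz.2).symm

/-! ### The first step -/

theorem S1_conj (q z : ℂ) : sinh (q + I * z) * conj (sin (2 * z)) =
    I * ((cosh (((q.re - 3 * z.im : ℝ) : ℂ) + ((q.im - z.re : ℝ) : ℂ) * I) -
      cosh (((q.re + z.im : ℝ) : ℂ) + ((q.im + 3 * z.re : ℝ) : ℂ) * I)) / 2) := by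
  have e1 : sin (2 * z) = -I * sinh (2 * (I * z)) := by
    rw [show 2 * (I * z) = 2 * z * I by ring, sinh_mul_I]
    linear_combination (sin (2 * z)) * I_sq
  have e2 : q + I * z + conj (2 * (I * z)) =
      ((q.re - 3 * z.im : ℝ) : ℂ) + ((q.im - z.re : ℝ) : ℂ) * I := by
    apply Complex.ext <;> simp <;> ring
  have e3 : q + I * z - conj (2 * (I * z)) =
      ((q.re + z.im : ℝ) : ℂ) + ((q.im + 3 * z.re : ℝ) : ℂ) * I := by
    apply Complex.ext <;> simp <;> ring
  rw [e1, map_mul, map_neg, conj_I, neg_neg, ← e2, ← e3, ← sinh_mul_conj]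
  ring

theorem S1_im (q z : ℂ) : (sinh (q + I * z) * conj (sin (2 * z))).im =
    (Real.cosh (q.re - 3 * z.im) * Real.cos (q.im - z.re) -
      Real.cosh (q.re + z.im) * Real.cos (q.im + 3 * z.re)) / 2 := by
  rw [S1_conj, I_mul_im, half_re, sub_re, cosh_re, cosh_re]
  simp

theorem S1_re (q z : ℂ) : (sinh (q + I * z) * conj (sin (2 * z))).re =
    (Real.sinh (q.re + z.im) * Real.sin (q.im + 3 * z.re) -
      Real.sinh (q.re - 3 * z.im) * Real.sin (q.im - z.re)) / 2 := by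
  rw [S1_conj, I_mul_re, half_im, sub_im, cosh_im, cosh_im]
  simp
  ring

theorem Slot.LA {q z : ℂ} (h : Slot q z)
    (h1 : 0 < (sinh (q + I * z) * conj (sin (2 * z))).im) :
    (L2 z).im - (lA q z).im < 0 ∧ -Real.pi < (L2 z).im - (lA q z).im := by
  have a := h.A_im
  have b := L2_im h.z0 h.z1
  rw [lA_im_eq] at a ⊢
  have e : (L2 z).im = (sin (2 * z)).arg := log_im _
  rw [e] at b ⊢
  have := arg_sub_range h1 (by linarith [a.1, b.2]) (by linarith [a.2, b.1])
  constructor <;> linarith [this.1, this.2]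

theorem sinh_step (u z : ℂ) : sinh (u + I * z) ^ 2 - sinh (u - I * z) * sinh (u + 3 * (I * z)) =
    -sin (2 * z) ^ 2 := by
  have e1 : u - I * z = (u + I * z) - 2 * z * I := by ring
  have e2 : u + 3 * (I * z) = (u + I * z) + 2 * z * I := by ring
  rw [e1, e2, sinh_sub, sinh_add (u + I * z) (2 * z * I), cosh_mul_I, sinh_mul_I]
  have h1 := cosh_sq (u + I * z)
  have h2 := sin_sq_add_cos_sq (2 * z)
  linear_combination (-sinh (u + I * z) ^ 2) * h2 + (I ^ 2 * sin (2 * z) ^ 2) * h1 +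
    (sin (2 * z) ^ 2 * (1 + sinh (u + I * z) ^ 2)) * I_sq

theorem sinh_pi_sub (w : ℂ) : sinh (Real.pi * I - w) = sinh w := by
  rw [sinh_sub, sinh_mul_I, cosh_mul_I, ← ofReal_cos, ← ofReal_sin, Real.cos_pi, Real.sin_pi]
  simp

/-! ### Nodes with two half twists -/

/-- The domain for two half twists; `r = 0` is an end. -/
structure O2 (p r : ℂ) : Prop where
  p0 : 0 < p.re
  p1 : 0 < p.im
  p2 : p.im < Real.pi / 2
  r0 : r = 0 ∨ (0 < r.re ∧ 0 < r.im)
  r2 : r.im < Real.pi / 2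

theorem O2.smul {p r : ℂ} (h : O2 p r) {t : ℝ} (h0 : 0 < t) (h1 : t ≤ 1) :
    O2 (t * p) (t * r) := by
  have hpi := Real.pi_pos
  obtain ⟨a1, a2, a3, a4, a5⟩ := h
  refine ⟨?_, ?_, ?_, ?_, ?_⟩
  · rw [re_ofReal_mul]; positivity
  · rw [im_ofReal_mul]; positivity
  · rw [im_ofReal_mul]; nlinarith
  · rcases a4 with h | h
    · left; rw [h, mul_zero]
    · right
      rw [re_ofReal_mul, im_ofReal_mul]
      exact ⟨mul_pos h0 h.1, mul_pos h0 h.2⟩
  · rw [im_ofReal_mul]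
    rcases le_total r.im 0 with h | h
    · nlinarith
    · nlinarith

theorem O2.rr {p r : ℂ} (h : O2 p r) : 0 ≤ r.re ∧ 0 ≤ r.im := by
  rcases h.r0 with h | h
  · rw [h]; simp
  · exact ⟨h.1.le, h.2.le⟩

/-- The facts at a node with two half twists. -/
structure N2 (p r z : ℂ) : Prop where
  sp : Slot p z
  sr : Slot r z
  lp : (sy p z - z / Real.pi).im < 0
  lr : (sy r z - z / Real.pi).im < 0
  b0 : (sy p z).re < 1 / 2
  e1 : he (sy p z - z / Real.pi) = -p + L2 z - lA p z / 2 - lB p z / 2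
  e2 : he (sy p z + z / Real.pi) = p + L2 z - lA p z / 2 - lB p z / 2
  e3 : he (sy r z - z / Real.pi) = -r + L2 z - lA r z / 2 - lB r z / 2
  e4 : he (sy r z + z / Real.pi) = r + L2 z - lA r z / 2 - lB r z / 2
  e5 : he (sy p z + sy r z) = Real.pi * I / 2 + 2 * L2 z - lA p z - lB p z / 2 - lB r z / 2
  eA : lA r z = lA p z

theorem N2.ab {p r z : ℂ} (h : N2 p r z) : 0 < (sy p z + sy r z).re ∧ (sy p z + sy r z).re < 1 := by
  have := h.sp.sy_re
  have := h.sr.sy_re
  have := h.b0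
  rw [add_re]
  constructor <;> linarith

theorem O2.N2 {p r z : ℂ} (h : O2 p r) (hz : 2 * z = Real.pi + I * (p + r)) : N2 p r z := by
  have hpi := Real.pi_pos
  obtain ⟨hr1, hr2⟩ := h.rr
  have hp1 := h.p0
  have hp2 := h.p1
  have hp3 := h.p2
  have hr3 := h.r2
  have zr : 2 * z.re = Real.pi - p.im - r.im := by
    have := congrArg Complex.re hz
    simp at this
    linarith
  have zi : 2 * z.im = p.re + r.re := by
    have := congrArg Complex.im hz
    simpa using this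
  have z0 : 0 < z.re := by linarith
  have z1 : z.re < Real.pi / 2 := by linarith
  have z2 : 0 < z.im := by linarith
  have hsin2 : 0 < Real.sin (2 * z.re) :=
    Real.sin_pos_of_pos_of_lt_pi (by linarith) (by linarith)
  have hsh2 : 0 < Real.sinh (2 * z.im) := Real.sinh_pos_iff.2 (by linarith)
  have sp : Slot p z := by
    refine ⟨z0, z1, z2, up_of (by linarith) (by linarith),
      rt_of (by linarith) (by linarith) (by linarith), Or.inr ?_⟩
    rw [yp_eq]
    have k1 : 0 < Real.sinh (2 * p.re) := Real.sinh_pos_iff.2 (by linarith)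
    have k2 : 0 < Real.sin (2 * p.im) :=
      Real.sin_pos_of_pos_of_lt_pi (by linarith) (by linarith)
    positivity
  have sr : Slot r z := by
    refine ⟨z0, z1, z2, up_of (by linarith) (by linarith),
      rt_of (by linarith) (by linarith) (by linarith), ?_⟩
    rcases h.r0 with h0 | h0
    · exact Or.inl h0
    · right
      rw [yp_eq]
      have k1 : 0 < Real.sinh (2 * r.re) := Real.sinh_pos_iff.2 (by linarith [h0.1])
      have k2 : 0 < Real.sin (2 * r.im) :=
        Real.sin_pos_of_pos_of_lt_pi (by linarith [h0.2]) (by linarith)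
      positivity
  have lp : (sy p z - z / Real.pi).im < 0 := by
    apply sp.low
    · exact Real.sin_nonneg_of_nonneg_of_le_pi (by linarith) (by linarith)
    · rw [show 2 * (p.im + z.re) = p.im - r.im + Real.pi by linarith, Real.cos_add_pi]
      have := Real.cos_pos_of_mem_Ioo (x := p.im - r.im) ⟨by linarith, by linarith⟩
      linarith
  have lr : (sy r z - z / Real.pi).im < 0 := by
    apply sr.low
    · exact Real.sin_nonneg_of_nonneg_of_le_pi (by linarith) (by linarith)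
    · rw [show 2 * (r.im + z.re) = r.im - p.im + Real.pi by linarith, Real.cos_add_pi]
      have := Real.cos_pos_of_mem_Ioo (x := r.im - p.im) ⟨by linarith, by linarith⟩
      linarith
  have hL := L2_im z0 z1
  have a1 := sp.A_im
  have a2 := sp.B_im
  have a3 := sr.A_im
  have a4 := sr.B_im
  have hr' : r = Real.pi * I - 2 * (I * z) - p := by
    linear_combination I * hz + (p + r) * I_sq
  have eA : lA r z = lA p z := by
    unfold lA
    rw [show r + I * z = Real.pi * I - (p + I * z) by rw [hr']; ring, sinh_pi_sub]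
  have b0 : (sy p z).re < 1 / 2 := sp.sy_lt (fun h0 => by rw [h0] at hp1; simp at hp1)
  have hB : exp (lB r z) = sinh (p + 3 * (I * z)) := by
    rw [sr.eB, show r - I * z = Real.pi * I - (p + 3 * (I * z)) by rw [hr']; ring, sinh_pi_sub]
  have him : 0 < (sinh (p + I * z) * conj (sin (2 * z))).im := by
    rw [S1_im, show p.im + 3 * z.re = z.re - r.im + Real.pi by linarith, Real.cos_add_pi]
    have k1 : 0 < Real.cos (p.im - z.re) :=
      Real.cos_pos_of_mem_Ioo ⟨by linarith, by linarith⟩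
    have k2 : 0 < Real.cos (z.re - r.im) :=
      Real.cos_pos_of_mem_Ioo ⟨by linarith, by linarith⟩
    have k3 := Real.cosh_pos (p.re - 3 * z.im)
    have k4 := Real.cosh_pos (p.re + z.im)
    have := mul_pos k3 k1
    have := mul_pos k4 k2
    linarith
  have hLA := sp.LA him
  have r1 := sp.sy_re
  have r2 := sr.sy_re
  refine ⟨sp, sr, lp, lr, b0, sp.hm_low lp (by linarith) (by linarith),
    sp.hp (by linarith) (by linarith), sr.hm_low lr (by linarith) (by linarith),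
    sr.hp (by linarith) (by linarith), ?_, eA⟩
  have q0 : 0 < (sy p z + sy r z).re := by rw [add_re]; linarith
  have q1 : (sy p z + sy r z).re < 1 := by rw [add_re]; linarith
  rw [he_eq_hh q0 q1]
  refine LB ?_ ?_ q0 q1 hLA.1 hLA.2
  · rw [sp.eA, sp.eB, hB, exp_L2 z0 z1]
    exact sinh_step p z
  · linear_combination sy_mul p z + sy_mul r z + eA

/-- The derivatives of the potential with respect to the edges agree. -/
theorem N2.da {p r z : ℂ} (h : N2 p r z) :
    -he (sy p z - z / Real.pi) - he (sy p z + z / Real.pi) =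
      -(Real.pi * I * (sy p z - sy r z - 1 / 2)) - he (sy p z + sy r z) := by
  rw [h.e1, h.e2, h.e5]
  linear_combination (sy_mul p z) / 2 - (sy_mul r z) / 2 - h.eA / 2

theorem N2.db {p r z : ℂ} (h : N2 p r z) :
    -he (sy r z - z / Real.pi) - he (sy r z + z / Real.pi) =
      Real.pi * I * (sy p z - sy r z + 1 / 2) - he (sy p z + sy r z) := by
  rw [h.e3, h.e4, h.e5]
  linear_combination -(sy_mul p z) / 2 + (sy_mul r z) / 2 + 3 / 2 * h.eA

/-- The equation of the vertex. -/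
theorem N2.dv {p r z : ℂ} (h : N2 p r z) (hz : 2 * z = Real.pi + I * (p + r)) :
    2 * Real.pi * I * (2 * (-1) * (z / Real.pi) + 1) +
      (he (sy p z - z / Real.pi) - he (sy p z + z / Real.pi)) +
      (he (sy r z - z / Real.pi) - he (sy r z + z / Real.pi)) = 0 := by
  rw [h.e1, h.e2, h.e3, h.e4]
  linear_combination -4 * v_mul z - 2 * I * hz - 2 * (p + r) * I_sq

/-- The difference of the potentials on the path. -/
noncomputable def F2 (p r : ℂ) (t : ℝ) : ℂ :=
  pV (-1) (vt 2 (p + r) t) (sy (t * p) (zt 2 (p + r) t)) (sy (t * r) (zt 2 (p + r) t)) -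
    pC (-1) (sy (t * p) (zt 2 (p + r) t)) (sy (t * r) (zt 2 (p + r) t))

theorem two_zt (p r : ℂ) (t : ℝ) :
    2 * zt 2 (p + r) t = Real.pi + I * (t * p + t * r) := by
  unfold zt
  push_cast
  ring

theorem F2_hasDerivAt {p r : ℂ} (h : O2 p r) {t : ℝ} (h0 : 0 < t) (h1 : t ≤ 1) :
    HasDerivAt (F2 p r) 0 t := by
  have hN := (h.smul h0 h1).N2 (two_zt p r t)
  have ha := (sy_diff hN.sp).hasDerivAt
  have hb := (sy_diff hN.sr).hasDerivAt
  have hv := vt_hasDerivAt 2 (p + r) t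
  obtain ⟨q1, q2⟩ := hN.ab
  have i1 := hN.da
  have i2 := hN.db
  have i3 := hN.dv (two_zt p r t)
  set z := zt 2 (p + r) t with hzdef
  set a' := deriv (fun t : ℝ => sy (t * p) (zt 2 (p + r) t)) t
  set b' := deriv (fun t : ℝ => sy (t * r) (zt 2 (p + r) t)) t
  set v' := I * (p + r) / (2 : ℕ) / Real.pi
  have k1 : HasDerivAt (fun t : ℝ => fe (sy (t * p) (zt 2 (p + r) t) - vt 2 (p + r) t))
      (he (sy (t * p) z - z / Real.pi) * (a' - v')) t :=
    HasDerivAt.comp t (fe_hasDerivAt (Or.inl hN.lp.ne)) (ha.sub hv)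
  have k2 : HasDerivAt (fun t : ℝ => fe (sy (t * p) (zt 2 (p + r) t) + vt 2 (p + r) t))
      (he (sy (t * p) z + z / Real.pi) * (a' + v')) t :=
    HasDerivAt.comp t (fe_hasDerivAt (Or.inr hN.sp.yv)) (ha.add hv)
  have k3 : HasDerivAt (fun t : ℝ => fe (sy (t * r) (zt 2 (p + r) t) - vt 2 (p + r) t))
      (he (sy (t * r) z - z / Real.pi) * (b' - v')) t :=
    HasDerivAt.comp t (fe_hasDerivAt (Or.inl hN.lr.ne)) (hb.sub hv)
  have k4 : HasDerivAt (fun t : ℝ => fe (sy (t * r) (zt 2 (p + r) t) + vt 2 (p + r) t))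
      (he (sy (t * r) z + z / Real.pi) * (b' + v')) t :=
    HasDerivAt.comp t (fe_hasDerivAt (Or.inr hN.sr.yv)) (hb.add hv)
  have k5 : HasDerivAt (fun t : ℝ => fe (sy (t * p) (zt 2 (p + r) t) +
      sy (t * r) (zt 2 (p + r) t))) (he (sy (t * p) z + sy (t * r) z) * (a' + b')) t :=
    HasDerivAt.comp t (fe_hasDerivAt (Or.inr hN.ab)) (ha.add hb)
  have k6 : HasDerivAt (fun t => wr (-1) (vt 2 (p + r) t)) (2 * Real.pi * I *
      (((-1 : ℝ) : ℂ) * (2 * (z / Real.pi) * v') + v')) t := by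
    have := (((hv.pow 2).const_mul ((-1 : ℝ) : ℂ)).add hv).const_mul (2 * Real.pi * I : ℂ)
    refine HasDerivAt.congr_deriv (f := fun t => wr (-1) (vt 2 (p + r) t)) this ?_
    simp [vt, hzdef]
  have k7 : HasDerivAt (fun t : ℝ => qC (-1) (sy (t * p) (zt 2 (p + r) t))
      (sy (t * r) (zt 2 (p + r) t))) ((((-1 : ℤ) : ℂ) * Real.pi * I) *
        ((sy (t * p) z - sy (t * r) z) * (a' - b') + (-a' - b') / 2)) t := by
    have := (((((ha.sub hb).pow 2).div_const 2)).add
      ((((ha.const_sub 1).sub hb)).div_const 2)).const_mul (((-1 : ℤ) : ℂ) * Real.pi * I)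
    refine HasDerivAt.congr_deriv (f := fun t : ℝ => qC (-1) (sy (t * p) (zt 2 (p + r) t))
      (sy (t * r) (zt 2 (p + r) t))) this ?_
    simp
    ring
  have k8 := ((((k6.sub k1).sub k2).sub k3).sub k4).sub (k7.sub k5)
  refine HasDerivAt.congr_deriv (f := F2 p r) k8 ?_
  push_cast
  linear_combination a' * i1 + b' * i2 + v' * i3

theorem F2_lim {p r : ℂ} (h : O2 p r) : Tendsto (F2 p r) (𝓝[>] 0) (𝓝 (Real.pi * I / 2)) := by
  have ha := sy_lim le_rfl p (p + r) (n := 2)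
  have hb := sy_lim le_rfl r (p + r) (n := 2)
  have hv : Tendsto (vt 2 (p + r)) (𝓝[>] 0) (𝓝 (1 / 2)) := by
    have := vt_lim (n := 2) (p + r)
    push_cast at this
    exact this
  have hN : ∀ᶠ t : ℝ in 𝓝[>] 0, N2 (t * p) (t * r) (zt 2 (p + r) t) := by
    filter_upwards [Ioc_mem_nhdsGT (zero_lt_one' ℝ)] with t ht
    exact (h.smul ht.1 ht.2).N2 (two_zt p r t)
  have k1 : Tendsto (fun t : ℝ => fe (sy (t * p) (zt 2 (p + r) t) - vt 2 (p + r) t))
      (𝓝[>] 0) (𝓝 0) := by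
    refine fe_lim_zero.comp (tendsto_nhdsWithin_iff.2 ⟨?_, ?_⟩)
    · simpa using ha.sub hv
    · filter_upwards [hN] with t ht
      exact ht.lp
  have k2 : Tendsto (fun t : ℝ => fe (sy (t * p) (zt 2 (p + r) t) + vt 2 (p + r) t))
      (𝓝[>] 0) (𝓝 0) := by
    refine fe_lim_one.comp (tendsto_nhdsWithin_iff.2 ⟨?_, ?_⟩)
    · have := ha.add hv
      rwa [show (1 / 2 + 1 / 2 : ℂ) = 1 by norm_num] at this
    · filter_upwards [hN] with t ht
      exact ht.sp.yv
  have k3 : Tendsto (fun t : ℝ => fe (sy (t * r) (zt 2 (p + r) t) - vt 2 (p + r) t))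
      (𝓝[>] 0) (𝓝 0) := by
    refine fe_lim_zero.comp (tendsto_nhdsWithin_iff.2 ⟨?_, ?_⟩)
    · simpa using hb.sub hv
    · filter_upwards [hN] with t ht
      exact ht.lr
  have k4 : Tendsto (fun t : ℝ => fe (sy (t * r) (zt 2 (p + r) t) + vt 2 (p + r) t))
      (𝓝[>] 0) (𝓝 0) := by
    refine fe_lim_one.comp (tendsto_nhdsWithin_iff.2 ⟨?_, ?_⟩)
    · have := hb.add hv
      rwa [show (1 / 2 + 1 / 2 : ℂ) = 1 by norm_num] at this
    · filter_upwards [hN] with t ht
      exact ht.sr.yv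
  have k5 : Tendsto (fun t : ℝ => fe (sy (t * p) (zt 2 (p + r) t) + sy (t * r) (zt 2 (p + r) t)))
      (𝓝[>] 0) (𝓝 0) := by
    refine fe_lim_one.comp (tendsto_nhdsWithin_iff.2 ⟨?_, ?_⟩)
    · have := ha.add hb
      rwa [show (1 / 2 + 1 / 2 : ℂ) = 1 by norm_num] at this
    · filter_upwards [hN] with t ht
      exact ht.ab
  have k6 : Tendsto (fun t : ℝ => wr (-1) (vt 2 (p + r) t)) (𝓝[>] 0) (𝓝 (Real.pi * I / 2)) := by
    have := (((hv.pow 2).const_mul ((-1 : ℝ) : ℂ)).add hv).const_mul (2 * Real.pi * I : ℂ)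
    have e : (2 * Real.pi * I : ℂ) * (((-1 : ℝ) : ℂ) * (1 / 2) ^ 2 + 1 / 2) = Real.pi * I / 2 := by
      push_cast
      ring
    rw [e] at this
    exact this
  have k7 : Tendsto (fun t : ℝ => qC (-1) (sy (t * p) (zt 2 (p + r) t))
      (sy (t * r) (zt 2 (p + r) t))) (𝓝[>] 0) (𝓝 0) := by
    have := (((((ha.sub hb).pow 2).div_const 2)).add
      ((((ha.const_sub 1).sub hb)).div_const 2)).const_mul (((-1 : ℤ) : ℂ) * Real.pi * I)
    have e : (((-1 : ℤ) : ℂ) * Real.pi * I) * ((1 / 2 - 1 / 2) ^ 2 / 2 + (1 - 1 / 2 - 1 / 2) / 2) =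
      0 := by
      ring
    rw [e] at this
    exact this
  have k8 := ((((k6.sub k1).sub k2).sub k3).sub k4).sub (k7.sub k5)
  rw [show (Real.pi * I / 2 - 0 - 0 - 0 - 0 - (0 - 0) : ℂ) = Real.pi * I / 2 by ring] at k8
  exact k8

/-- **The closed form of a node with two half twists.** -/
theorem O2.value {p r z : ℂ} (h : O2 p r) (hz : 2 * z = Real.pi + I * (p + r)) :
    pV (-1) (z / Real.pi) (sy p z) (sy r z) = pC (-1) (sy p z) (sy r z) + Real.pi * I / 2 := by
  have h1 := const_path (fun t h0 h1 => F2_hasDerivAt h h0 h1) (F2_lim h)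
  have e : zt 2 (p + r) 1 = z := by
    unfold zt
    push_cast
    linear_combination -hz / 2
  unfold F2 vt at h1
  rw [e, ofReal_one, one_mul, one_mul] at h1
  linear_combination h1

end Pool.Agent.S5.G
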