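import Pool.Agent.S5.G.Nd4
import Pool.Agent.S5.G.NdD

/-!
# Nodes in closed form: nodes with three half twists
-/

set_option autoImplicit false

namespace Pool.Agent.S5.G

open Complex Pool.Agent.H63.VC3 Pool.Agent.H63.VC5 Pool.Agent.H63.GV Pool.Agent.S3
open Pool.Agent.S3.G (arg_up arg_quad pi_ne fe_lim_zero)
open Filter Topology
open scoped ComplexConjugate

theorem zz3_mul (p r z : ℂ) : 2 * Real.pi * I * zz3 p r z = log (sinh r) - lA p z := by
  unfold zz3
  rw [mul_div_cancel₀ _ Complex.two_pi_I_ne_zero]

/-! ### Products -/

theorem sc_conj (u w : ℂ) : sinh u * conj (sin w) =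
    I * ((cosh (((u.re - w.im : ℝ) : ℂ) + ((u.im - w.re : ℝ) : ℂ) * I) -
      cosh (((u.re + w.im : ℝ) : ℂ) + ((u.im + w.re : ℝ) : ℂ) * I)) / 2) := by
  have e1 : sin w = -I * sinh (I * w) := by
    rw [mul_comm I w, sinh_mul_I]
    linear_combination (sin w) * I_sq
  have e2 : u + conj (I * w) =
      ((u.re - w.im : ℝ) : ℂ) + ((u.im - w.re : ℝ) : ℂ) * I := by
    apply Complex.ext <;> simp <;> ring
  have e3 : u - conj (I * w) =
      ((u.re + w.im : ℝ) : ℂ) + ((u.im + w.re : ℝ) : ℂ) * I := by
    apply Complex.ext <;> simp
  rw [e1, map_mul, map_neg, conj_I, neg_neg, ← e2, ← e3, ← sinh_mul_conj]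
  ring

theorem sc_im (u w : ℂ) : (sinh u * conj (sin w)).im =
    (Real.cosh (u.re - w.im) * Real.cos (u.im - w.re) -
      Real.cosh (u.re + w.im) * Real.cos (u.im + w.re)) / 2 := by
  rw [sc_conj, I_mul_im, half_re, sub_re, cosh_re, cosh_re]
  simp

theorem sc_re (u w : ℂ) : (sinh u * conj (sin w)).re =
    (Real.sinh (u.re + w.im) * Real.sin (u.im + w.re) -
      Real.sinh (u.re - w.im) * Real.sin (u.im - w.re)) / 2 := by
  rw [sc_conj, I_mul_re, half_im, sub_im, cosh_im, cosh_im]
  simp
  ring

theorem ss_im (u w : ℂ) : (sinh u * conj (sinh w)).im =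
    (Real.sinh (u.re + w.re) * Real.sin (u.im - w.im) -
      Real.sinh (u.re - w.re) * Real.sin (u.im + w.im)) / 2 := by
  rw [sinh_mul_conj, half_im, sub_im, cosh_im, cosh_im]
  simp only [add_re, add_im, sub_re, sub_im, conj_re, conj_im]
  ring_nf

/-- The logarithm of a product of two layers. -/
theorem LB2 {l1 l2 l3 l4 L1 L2 u : ℂ} (h : exp l1 * exp l4 - exp l2 * exp l3 = exp L1 * exp L2)
    (hu : 2 * Real.pi * I * u = l3 - l1 + l2 - l4) (h0 : 0 < u.re) (h1 : u.re < 1)
    (ha : L1.im - l2.im < 0) (ha' : -Real.pi < L1.im - l2.im)
    (hb : L2.im - l3.im < 0) (hb' : -Real.pi < L2.im - l3.im) :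
    hh u = Real.pi * I / 2 + L1 + L2 - l1 / 2 - l2 / 2 - l3 / 2 - l4 / 2 := by
  have hpi := Real.pi_pos
  have hu' : Real.pi * I * u = l3 / 2 - l1 / 2 + l2 / 2 - l4 / 2 := by linear_combination hu / 2
  have e1 : exp (Real.pi * I * u) =
      exp (-l1 / 2 - l2 / 2 - l3 / 2 - l4 / 2) * (exp l2 * exp l3) := by
    rw [hu', ← exp_add, ← exp_add]
    congr 1
    ring
  have e2 : exp (-(Real.pi * I * u)) =
      exp (-l1 / 2 - l2 / 2 - l3 / 2 - l4 / 2) * (exp l1 * exp l4) := by
    rw [hu', ← exp_add, ← exp_add]
    congr 1
    ring
  have e3 : exp (Real.pi * I / 2 + L1 + L2 - l1 / 2 - l2 / 2 - l3 / 2 - l4 / 2) =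
      I * (exp (-l1 / 2 - l2 / 2 - l3 / 2 - l4 / 2) * (exp L1 * exp L2)) := by
    have : Real.pi * I / 2 + L1 + L2 - l1 / 2 - l2 / 2 - l3 / 2 - l4 / 2 =
        Real.pi / 2 * I + ((-l1 / 2 - l2 / 2 - l3 / 2 - l4 / 2) + (L1 + L2)) := by
      ring
    rw [this, exp_add, exp_pi_div_two_mul_I, exp_add, exp_add L1 L2]
  have hre : 2 * Real.pi * u.re = l3.im - l1.im + l2.im - l4.im := by
    have h3 := congrArg Complex.im hu
    rw [two_pi_I_mul_im] at h3
    rw [h3]
    simp
  have him : (Real.pi * I / 2 + L1 + L2 - l1 / 2 - l2 / 2 - l3 / 2 - l4 / 2 : ℂ).im =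
      Real.pi / 2 + (L1.im - l2.im) + (L2.im - l3.im) + Real.pi * u.re := by
    have h4 : (Real.pi * I / 2 : ℂ) = ((Real.pi / 2 : ℝ) : ℂ) * I := by
      push_cast
      ring
    rw [h4]
    simp only [sub_im, add_im, im_ofReal_mul, I_im, half_im]
    linarith only [hre]
  have hb := abs_le.1 (hh_im_le h0 h1)
  have k0 : 0 < Real.pi * u.re := by positivity
  have k1 : Real.pi * u.re < Real.pi := by linarith only [mul_pos (sub_pos.2 h1) (sub_pos.2 ha'),
                                             mul_pos (sub_pos.2 h1) (sub_pos.2 ha)]
  apply log_unique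
  · rw [exp_hh h0 h1, two_sin_eq, e1, e2, e3]
    linear_combination (I * exp (-l1 / 2 - l2 / 2 - l3 / 2 - l4 / 2)) * h
  · rw [him]
    rcases le_total (Real.pi * u.re) (Real.pi / 2) with h5 | h5
    · rw [abs_of_nonpos (show Real.pi * u.re - Real.pi / 2 ≤ 0 by linarith only [h5])] at hb
      linarith [hb.1, ha', ha]
    · rw [abs_of_nonneg (show 0 ≤ Real.pi * u.re - Real.pi / 2 by linarith only [h5])] at hb
      linarith [k1, hb.1, ha]
  · rw [him]
    rcases le_total (Real.pi * u.re) (Real.pi / 2) with h5 | h5
    · rw [abs_of_nonpos (show Real.pi * u.re - Real.pi / 2 ≤ 0 by linarith only [h5])] at hb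
      linarith only [k0, hb.2, hb', ha']
    · rw [abs_of_nonneg (show 0 ≤ Real.pi * u.re - Real.pi / 2 by linarith only [h5])] at hb
      linarith only [hb.2, hb', ha', ha]

theorem step2_sin {l1 l2 l3 l4 L1 L2 : ℂ}
    (h : exp l1 * exp l4 - exp l2 * exp l3 = exp L1 * exp L2)
    (hs : 0 < Real.sin ((l2.im - L1.im) + (l3.im - L2.im))) :
    0 < Real.sin (l2.im + l3.im - l1.im - l4.im) := by
  have e1 : exp (l1 + l4 - l2 - l3) = 1 + exp (L1 + L2 - l2 - l3) := by
    have h1 : exp (L1 + L2 - l2 - l3) = exp L1 * exp L2 / (exp l2 * exp l3) := by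
      rw [show L1 + L2 - l2 - l3 = (L1 + L2) - (l2 + l3) by ring, exp_sub, exp_add, exp_add]
    have h2 : exp (l1 + l4 - l2 - l3) = exp l1 * exp l4 / (exp l2 * exp l3) := by
      rw [show l1 + l4 - l2 - l3 = (l1 + l4) - (l2 + l3) by ring, exp_sub, exp_add, exp_add]
    have h3 := exp_ne_zero l2
    have h4 := exp_ne_zero l3
    rw [h1, h2]
    field_simp
    linear_combination h
  have e2 := congrArg Complex.im e1
  rw [exp_im, add_im, one_im, zero_add, exp_im] at e2
  have i1 : (L1 + L2 - l2 - l3).im = -((l2.im - L1.im) + (l3.im - L2.im)) := by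
    simp
    ring
  have i2 : (l1 + l4 - l2 - l3).im = -(l2.im + l3.im - l1.im - l4.im) := by
    simp
    ring
  rw [i1, i2, Real.sin_neg, Real.sin_neg] at e2
  have k1 := Real.exp_pos (l1 + l4 - l2 - l3).re
  have k2 := Real.exp_pos (L1 + L2 - l2 - l3).re
  have k3 : 0 < Real.exp (l1 + l4 - l2 - l3).re * Real.sin (l2.im + l3.im - l1.im - l4.im) := by
    have := mul_pos k2 hs
    linarith only [this, e2]
  exact (pos_iff_pos_of_mul_pos k3).1 k1

/-! ### The domain -/

theorem O3.zre {p r z : ℂ} (hz : 3 * z = Real.pi + I * (p + r)) :
    3 * z.re = Real.pi - p.im - r.im ∧ 3 * z.im = p.re + r.re := by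
  constructor
  · have := congrArg Complex.re hz
    simp at this
    linarith only [this]
  · have := congrArg Complex.im hz
    simpa using this

theorem O3.pp {p r : ℂ} (h : O3 p r) : 0 ≤ p.re ∧ -(16 * p.im) ≤ r.im := by
  have := h.r1
  rcases h.p0 with h | ⟨h, h' | h'⟩
  · rw [h]
    simp
    linarith only [this]
  · exact ⟨h.le, by linarith only [h', this]⟩
  · exact ⟨h.le, h'.1⟩

theorem O3.smul {p r : ℂ} (h : O3 p r) {t : ℝ} (h0 : 0 < t) (h1 : t ≤ 1) :
    O3 (t * p) (t * r) := by
  have hpi := Real.pi_pos
  obtain ⟨b1, b2⟩ := h.pp
  obtain ⟨a1, a2, a3, r2, a4, a5, a6, a7, a8⟩ := h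
  refine ⟨?_, ?_, ?_, ?_, ?_, ?_, ?_, ?_, ?_⟩
  · rcases a1 with h | ⟨h, h' | ⟨h2, h3, h4, h5⟩⟩
    · left; rw [h, mul_zero]
    · right
      rw [re_ofReal_mul, im_ofReal_mul]
      exact ⟨mul_pos h0 h, Or.inl (mul_pos h0 h')⟩
    · right
      rw [re_ofReal_mul, im_ofReal_mul, re_ofReal_mul, im_ofReal_mul]
      refine ⟨mul_pos h0 h, Or.inr ⟨?_, ?_, ?_, ?_⟩⟩
      · linarith only [mul_nonneg (sub_nonneg.2 h0.le) (sub_nonneg.2 b2)]
      · linarith only [mul_nonneg (sub_nonneg.2 h0.le) (sub_nonneg.2 h3)]
      · linarith only [mul_nonneg (sub_nonneg.2 h0.le) (sub_nonneg.2 h4)]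
      · linarith only [h1, mul_nonneg (sub_nonneg.2 h0.le) (sub_nonneg.2 h5)]
  · rw [re_ofReal_mul]; positivity
  · rw [im_ofReal_mul]; positivity
  · rw [im_ofReal_mul]
    linarith only [mul_nonneg (sub_nonneg.2 h1) (sub_nonneg.2 hpi.le),
      mul_nonneg (sub_nonneg.2 h0.le) (sub_nonneg.2 r2)]
  · rw [im_ofReal_mul, im_ofReal_mul]
    linarith only [mul_nonneg (sub_nonneg.2 h1) (sub_nonneg.2 hpi.le),
      mul_nonneg (sub_nonneg.2 h0.le) (sub_nonneg.2 a4)]
  · rw [im_ofReal_mul, im_ofReal_mul]
    rcases le_total (2 * p.im - r.im) 0 with h | h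
    · linarith only [r2, a3, mul_nonneg (sub_nonneg.2 h0.le) (sub_nonneg.2 h)]
    · linarith only [mul_nonneg (sub_nonneg.2 h1) (sub_nonneg.2 hpi.le),
        mul_pos (sub_pos.2 h0) (sub_pos.2 a5)]
  · rcases a6 with h | h | ⟨h, h3, h4⟩
    · left
      rw [im_ofReal_mul, im_ofReal_mul]
      rcases le_total (r.im - 2 * p.im) 0 with h' | h'
      · linarith only [h', a4, a3, mul_nonneg (sub_nonneg.2 h0.le) (sub_nonneg.2 h')]
      · linarith only [mul_nonneg (sub_nonneg.2 h1) (sub_nonneg.2 hpi.le),
          mul_nonneg (sub_nonneg.2 h0.le) (sub_nonneg.2 h)]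
    · right; left; rw [h, mul_zero]
    · right
      right
      rw [im_ofReal_mul, im_ofReal_mul, re_ofReal_mul, re_ofReal_mul]
      refine ⟨?_, by linarith only [h1, mul_nonneg (sub_nonneg.2 h0.le) (sub_nonneg.2 h3)], ?_⟩
      · rcases le_total (r.im - 2 * p.im) 0 with h' | h'
        · linarith only [h', a4, a3, mul_nonneg (sub_nonneg.2 h0.le) (sub_nonneg.2 h')]
        · linarith only [h1, mul_nonneg (sub_nonneg.2 h1) (sub_nonneg.2 hpi.le),
            mul_nonneg (sub_nonneg.2 h0.le) (sub_nonneg.2 h)]
      · rcases h4 with h4 | ⟨h4, h5⟩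
        · left
          exact mul_nonneg h0.le h4
        · right
          exact ⟨by linarith only [h1, mul_nonneg (sub_nonneg.2 h0.le) (sub_nonneg.2 h4)], by linarith only [mul_nonneg (sub_nonneg.2 h0.le) (sub_nonneg.2 h5)]⟩
  · rw [im_ofReal_mul, im_ofReal_mul]
    rcases le_total (p.im - 2 * r.im) 0 with h' | h'
    · linarith only [r2, a3, mul_nonneg (sub_nonneg.2 h0.le) (sub_nonneg.2 h')]
    · linarith only [mul_nonneg (sub_nonneg.2 h1) (sub_nonneg.2 hpi.le),
        mul_pos (sub_pos.2 h0) (sub_pos.2 a5), mul_pos (sub_pos.2 h0) (sub_pos.2 a3)]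
  · rw [re_ofReal_mul, re_ofReal_mul]
    linarith only [mul_nonneg (sub_nonneg.2 h0.le) (sub_nonneg.2 a8)]

/-- The basic inequalities. -/
structure B3 (p r z : ℂ) : Prop where
  zr : 3 * z.re = Real.pi - p.im - r.im
  zi : 3 * z.im = p.re + r.re
  x0 : Real.pi / 6 ≤ z.re
  x1 : z.re < Real.pi / 3
  nu : 0 < z.im
  p0 : 0 ≤ p.re
  p1 : -(16 * p.im) ≤ r.im
  p2 : p.im < Real.pi / 2
  r0 : 0 < r.re
  r1 : 0 < r.im
  r2 : r.im ≤ Real.pi / 2
  t1 : p.im + z.re < Real.pi / 2
  R3 : r.re ≤ 3 * z.im
  R5 : 3 * z.im ≤ 7 * r.re

theorem O3.B3 {p r z : ℂ} (h : O3 p r) (hz : 3 * z = Real.pi + I * (p + r)) : B3 p r z := by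
  have hpi := Real.pi_pos
  obtain ⟨b1, b2⟩ := h.pp
  obtain ⟨zr, zi⟩ := O3.zre hz
  obtain ⟨a1, a2, a3, r2, a4, a5, a6, a7, a8⟩ := h
  constructor <;> first | assumption | linarith

/-- `p.im + z.re` is not much smaller than `π / 4`. -/
theorem O3.th {p r z : ℂ} (h : O3 p r) (hz : 3 * z = Real.pi + I * (p + r)) :
    p = 0 ∨ Real.pi / 4 - 1 / 18 ≤ p.im + z.re := by
  obtain ⟨zr, zi⟩ := O3.zre hz
  rcases h.c2 with h1 | h1 | ⟨h1, -⟩
  · right
    linarith only [h1, zr]
  · exact Or.inl h1
  · right
    linarith only [h1, zr]

theorem O3.slots {p r z : ℂ} (h : O3 p r) (hz : 3 * z = Real.pi + I * (p + r)) :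
    Slot p z ∧ Slot r z := by
  have hpi := Real.pi_pos
  obtain ⟨zr, zi, x0, x1, nu, p0, p1, p2, r0, r1, r2, t1, R3, R5⟩ := h.B3 hz
  have s2 : 0 < Real.sin (2 * z.re) := Real.sin_pos_of_pos_of_lt_pi (by linarith only [x0, hpi]) (by linarith only [x1,
                                                                                                       hpi])
  have sn : 0 < Real.sinh (2 * z.im) := Real.sinh_pos_iff.2 (by linarith only [nu])
  constructor
  · refine ⟨by linarith only [x0, hpi], by linarith only [x1, hpi], nu, up_of (by linarith only [p1,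
                                                                                    x1, x0, zr]) (by linarith only [p2,
                                                                                                       x1,
                                                                                                       x0]),
      rt_of (by linarith only [p0, nu]) (by linarith only [p1, x1, x0, zr]) (by linarith only [p2,
                                                                                  x1, x0]), ?_⟩
    rcases h.p0 with h0 | h0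
    · exact Or.inl h0
    · right
      rw [yp_eq]
      obtain ⟨h0, h1⟩ := h0
      have k1 : 0 < Real.sinh (2 * p.re) := Real.sinh_pos_iff.2 (by linarith only [h0])
      rcases h1 with h1 | ⟨h1, h2, h3, h4⟩
      · have k2 : 0 < Real.sin (2 * p.im) :=
          Real.sin_pos_of_pos_of_lt_pi (by linarith only [h1]) (by linarith only [p2])
        positivity
      · rcases le_or_gt 0 p.im with h5 | h5
        · have k2 : 0 ≤ Real.sin (2 * p.im) :=
            Real.sin_nonneg_of_nonneg_of_le_pi (by linarith only [h5]) (by linarith only [p2])
          positivity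
        · have k3 : Real.sinh (2 * z.im) ≤ Real.sinh (2 * p.re) :=
            Real.sinh_le_sinh.2 (by linarith only [h3, h0, zi])
          have k4 : Real.sin (-(2 * p.im)) < Real.sin (2 * z.re) := by
            rcases le_or_gt (2 * z.re) (Real.pi / 2) with hx | hx
            · exact Real.sin_lt_sin_of_lt_of_le_pi_div_two (by linarith only [h5, t1, x0]) hx (by linarith only [p1,
                                                                                                    x1,
                                                                                                    x0,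
                                                                                                    zr])
            · rw [← Real.sin_pi_sub (2 * z.re)]
              exact Real.sin_lt_sin_of_lt_of_le_pi_div_two (by linarith only [h5, t1, x0]) (by linarith only [hx]) (by linarith only [p1,
                                                                                                                         x1,
                                                                                                                         x0,
                                                                                                                         zr])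
          have k5 : 0 < Real.sin (-(2 * p.im)) :=
            Real.sin_pos_of_pos_of_lt_pi (by linarith only [h5]) (by linarith only [p1, x1, x0, zr])
          have e : Real.sin (2 * p.im) = -Real.sin (-(2 * p.im)) := by
            rw [← Real.sin_neg, neg_neg]
          rw [e]
          have k6 : Real.sinh (2 * z.im) * Real.sin (-(2 * p.im)) <
              Real.sinh (2 * p.re) * Real.sin (2 * z.re) :=
            mul_lt_mul' k3 k4 k5.le k1
          linarith only [k6]
  · refine ⟨by linarith only [x0, hpi], by linarith only [x1, hpi], nu, up_of (by linarith only [r1,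
                                                                                    p2, x1, zr]) (by linarith only [p1,
                                                                                                       x1,
                                                                                                       x0,
                                                                                                       zr]),
      rt_of (by linarith only [r0, nu]) (by linarith only [r1, p2, x1, zr]) (by linarith only [p1,
                                                                                  x1, x0, zr]), Or.inr ?_⟩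
    rw [yp_eq]
    have k1 : 0 < Real.sinh (2 * r.re) := Real.sinh_pos_iff.2 (by linarith only [r0])
    have k2 : 0 ≤ Real.sin (2 * r.im) :=
      Real.sin_nonneg_of_nonneg_of_le_pi (by linarith only [r1]) (by linarith only [r2])
    positivity

/-- `im (y - v) < 0`, general form. -/
theorem Slot.low2 {q z : ℂ} (h : Slot q z) {c : ℝ} (h0 : Real.cos (2 * (q.im + z.re)) ≤ c)
    (h1 : c < Real.exp (-(2 * q.re)))
    (h2 : -(2 * (Real.sin (2 * q.im) * Real.sin (2 * z.re))) ≤
      4 * z.im * (Real.exp (-(2 * q.re)) - c)) : (sy q z - z / Real.pi).im < 0 := by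
  have hpi := Real.pi_pos
  have hz := h.zi
  have hA : sinh (q + I * z) ≠ 0 := by rw [← h.eA]; exact exp_ne_zero _
  have hB : sinh (q - I * z) ≠ 0 := by rw [← h.eB]; exact exp_ne_zero _
  have e1 := norm_sinh_sq (q + I * z)
  have e2 := norm_sinh_sq (q - I * z)
  rw [addI_re, addI_im] at e1
  rw [subI_re, subI_im] at e2
  have hE : 1 < Real.exp (2 * z.im) := Real.one_lt_exp_iff.2 (by linarith only [hz])
  have hE4 : 4 * z.im < Real.exp (2 * z.im) ^ 2 - 1 := by
    have e : Real.exp (2 * z.im) ^ 2 = Real.exp (4 * z.im) := by
      rw [← Real.exp_nat_mul]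
      congr 1
      push_cast
      ring
    have := Real.add_one_lt_exp (x := 4 * z.im) (by linarith only [hz])
    rw [e]
    linarith only [this]
  have c1 : Real.cosh (2 * (q.re - z.im)) =
      (Real.exp (2 * q.re) * (Real.exp (2 * z.im))⁻¹ +
        (Real.exp (2 * q.re))⁻¹ * Real.exp (2 * z.im)) / 2 := by
    rw [Real.cosh_eq, ← Real.exp_neg, ← Real.exp_neg, ← Real.exp_add, ← Real.exp_add]
    congr 3 <;> ring
  have c2 : Real.cosh (2 * (q.re + z.im)) =
      (Real.exp (2 * q.re) * Real.exp (2 * z.im) +
        (Real.exp (2 * q.re))⁻¹ * (Real.exp (2 * z.im))⁻¹) / 2 := by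
    rw [Real.cosh_eq, ← Real.exp_neg, ← Real.exp_neg, ← Real.exp_add, ← Real.exp_add]
    congr 3 <;> ring
  have c3 : Real.cos (2 * (q.im - z.re)) - Real.cos (2 * (q.im + z.re)) =
      2 * (Real.sin (2 * q.im) * Real.sin (2 * z.re)) := by
    rw [show 2 * (q.im - z.re) = 2 * q.im - 2 * z.re by ring,
      show 2 * (q.im + z.re) = 2 * q.im + 2 * z.re by ring, Real.cos_sub, Real.cos_add]
    ring
  have key : ‖sinh (q - I * z)‖ ^ 2 < ‖sinh (q + I * z)‖ ^ 2 * Real.exp (2 * z.im) ^ 2 := by
    rw [Real.exp_neg] at h1 h2
    rw [e1, e2, c1, c2]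
    set E := Real.exp (2 * z.im)
    set X := Real.exp (2 * q.re)
    have hX : 0 < X := Real.exp_pos _
    have hE0 : 0 < E := Real.exp_pos _
    have d1 : E * E⁻¹ = 1 := mul_inv_cancel₀ hE0.ne'
    have d2 : 0 < X⁻¹ := inv_pos.2 hX
    have d7 : (X * E⁻¹ + X⁻¹ * E) * E ^ 2 = X * E + X⁻¹ * E ^ 3 := by
      linear_combination (X * E) * d1
    -- `E³ - E⁻¹ ≥ 2 (E² - 1)`
    have d8 : 2 * (E ^ 2 - 1) ≤ E ^ 3 - E⁻¹ := by
      have f1 : E * (E ^ 3 - E⁻¹ - 2 * (E ^ 2 - 1)) = (E ^ 2 - 1) * (E - 1) ^ 2 := by
        linear_combination -d1
      have f2 : 0 ≤ (E ^ 2 - 1) * (E - 1) ^ 2 := by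
        apply mul_nonneg
        · linarith only [hE4, hz]
        · positivity
      rw [← f1] at f2
      have := nonneg_of_mul_nonneg_right f2 hE0
      linarith only [this]
    have d9 : (E ^ 2 - 1) * Real.cos (2 * (q.im + z.re)) ≤ (E ^ 2 - 1) * c :=
      mul_le_mul_of_nonneg_left h0 (by linarith only [hE4, hz])
    have d10 : 4 * z.im * (X⁻¹ - c) < (E ^ 2 - 1) * (X⁻¹ - c) :=
      mul_lt_mul_of_pos_right hE4 (by linarith only [h1])
    have d11 : X⁻¹ * (2 * (E ^ 2 - 1)) ≤ X⁻¹ * (E ^ 3 - E⁻¹) := mul_le_mul_of_nonneg_left d8 d2.le
    linarith only [d11, d10, d9, d7, h2, c3]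
  have hn : ‖sinh (q - I * z)‖ < ‖sinh (q + I * z)‖ * Real.exp (2 * z.im) := by
    rw [← mul_pow] at key
    exact lt_of_pow_lt_pow_left₀ 2 (by positivity) key
  have hlog : Real.log ‖sinh (q - I * z)‖ < Real.log ‖sinh (q + I * z)‖ + 2 * z.im := by
    have h3 := Real.log_lt_log (norm_pos_iff.2 hB) hn
    rwa [Real.log_mul (norm_ne_zero_iff.2 hA) (Real.exp_ne_zero _), Real.log_exp] at h3
  have e : 2 * Real.pi * (sy q z - z / Real.pi).im =
      Real.log ‖sinh (q - I * z)‖ - Real.log ‖sinh (q + I * z)‖ - 2 * z.im := by
    have h4 : 2 * Real.pi * I * (sy q z - z / Real.pi) = lA q z - lB q z - 2 * (I * z) := by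
      linear_combination sy_mul q z - 2 * v_mul z
    have h5 := congrArg Complex.re h4
    rw [two_pi_I_mul_re, sub_re, sub_re] at h5
    have h6 : (2 * (I * z)).re = -(2 * z.im) := by
      simp
    rw [h6] at h5
    unfold lA lB at h5
    rw [log_re, log_re] at h5
    linarith only [h5]
  by_contra hc
  push Not at hc
  have := mul_nonneg (by positivity : (0 : ℝ) ≤ 2 * Real.pi) hc
  linarith only [this, e, hlog]

theorem exp_neg_two : (27 : ℝ) / 200 ≤ Real.exp (-2) := by
  rw [Real.exp_neg, le_inv_comm₀ (by norm_num) (Real.exp_pos _)]
  have h1 : Real.exp 2 = Real.exp 1 * Real.exp 1 := by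
    rw [← Real.exp_add]
    norm_num
  have h2 := Real.exp_one_lt_d9
  have h3 := Real.exp_pos 1
  rw [h1]
  linarith only [h2, mul_pos (sub_pos.2 h2) (sub_pos.2 h3)]

theorem exp_neg_eight_fifths : (2015 : ℝ) / 10000 ≤ Real.exp (-(8 / 5)) := by
  rw [Real.exp_neg, le_inv_comm₀ (by norm_num) (Real.exp_pos _)]
  have h1 : Real.exp (8 / 5) ^ 5 = Real.exp 1 ^ 8 := by
    rw [← Real.exp_nat_mul, ← Real.exp_nat_mul]
    norm_num
  have h2 := Real.exp_one_lt_d9
  have h3 := Real.exp_pos 1
  have h4 : Real.exp 1 ^ 8 ≤ (2.7182818286 : ℝ) ^ 8 := pow_le_pow_left₀ h3.le h2.le 8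
  have h5 : Real.exp (8 / 5) ^ 5 ≤ (496 / 100 : ℝ) ^ 5 := by
    rw [h1]
    refine h4.trans ?_
    norm_num
  have h6 := (pow_le_pow_iff_left₀ (Real.exp_pos (8 / 5)).le (by norm_num) (by norm_num)).1 h5
  refine h6.trans ?_
  norm_num

theorem O3.lows {p r z : ℂ} (h : O3 p r) (hz : 3 * z = Real.pi + I * (p + r)) :
    (sy p z - z / Real.pi).im < 0 ∧ (sy r z - z / Real.pi).im < 0 := by
  have hpi := Real.pi_pos
  obtain ⟨sp, sr⟩ := h.slots hz
  obtain ⟨zr, zi, x0, x1, nu, p0, p1, p2, r0, r1, r2, t1, R3, R5⟩ := h.B3 hz
  obtain ⟨a1, a2, a3, r2, a4, a5, a6, a7, a8⟩ := h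
  have hzero : p = 0 → (sy p z - z / Real.pi).im < 0 := by
    intro h0
    rw [h0, sy_zero sp.z0 sp.z1 sp.zi, sub_im, v_im]
    have := div_pos nu hpi
    norm_num
    exact this
  have s2 : 0 < Real.sin (2 * z.re) := Real.sin_pos_of_pos_of_lt_pi (by linarith only [x0, hpi]) (by linarith only [x1,
                                                                                                       hpi])
  have s2' := Real.sin_le_one (2 * z.re)
  have hneg : p.im < 0 → -(2 * (Real.sin (2 * p.im) * Real.sin (2 * z.re))) ≤ -(4 * p.im) := by
    intro hn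
    have m1 : Real.sin (-(2 * p.im)) ≤ -(2 * p.im) := Real.sin_le (by linarith only [hn])
    have m2 : 0 < Real.sin (-(2 * p.im)) := Real.sin_pos_of_pos_of_lt_pi (by linarith only [hn]) (by linarith only [p1,
                                                                                                       x1,
                                                                                                       x0,
                                                                                                       zr])
    have e : Real.sin (2 * p.im) = -Real.sin (-(2 * p.im)) := by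
      rw [← Real.sin_neg, neg_neg]
    rw [e]
    linarith only [mul_nonneg (sub_nonneg.2 s2') (sub_nonneg.2 hn.le),
      mul_nonneg (sub_nonneg.2 s2.le) (sub_nonneg.2 m1)]
  have hpos : 0 ≤ p.im → 0 ≤ Real.sin (2 * p.im) := fun hp =>
    Real.sin_nonneg_of_nonneg_of_le_pi (by linarith only [hp]) (by linarith only [p2])
  constructor
  · rcases a6 with h0 | h0 | ⟨h0, h3, h4⟩
    · have hc : Real.cos (2 * (p.im + z.re)) ≤ 0 :=
        Real.cos_nonpos_of_pi_div_two_le_of_le (by linarith only [h0, zr]) (by linarith only [r1,
                                                                                 p2, x1, zr])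
      rcases le_or_gt 0 p.im with hp | hp
      · exact sp.low (hpos hp) hc
      · rcases a1 with g | ⟨g, g' | ⟨g1, g2, g3, g4⟩⟩
        · exact hzero g
        · linarith only [g', hp]
        · apply sp.low2 hc (Real.exp_pos _)
          have m1 : Real.exp (-2) ≤ Real.exp (-(2 * p.re)) := Real.exp_le_exp.2 (by linarith only [g4])
          have m2 := exp_neg_two
          have m3 := hneg hp
          (refine le_of_not_gt fun hng => ?_; linarith only [m3, g2, zi,
            mul_nonneg (sub_nonneg.2 nu.le) (sub_nonneg.2 m2),
            mul_nonneg (sub_nonneg.2 nu.le) (sub_nonneg.2 m1),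
            mul_nonneg (sub_nonneg.2 nu.le) (sub_nonneg.2 g4),
            mul_nonneg (sub_nonneg.2 nu.le) (sub_nonneg.2 g3),
            mul_nonneg (sub_nonneg.2 nu.le) (sub_nonneg.2 g2),
            mul_pos (sub_pos.2 nu) (sub_pos.2 hp),
            mul_nonneg (sub_nonneg.2 hng.le) (sub_nonneg.2 g4),
            mul_nonneg (sub_nonneg.2 hng.le) (sub_nonneg.2 g3),
            mul_nonneg (sub_nonneg.2 hng.le) (sub_nonneg.2 g2),
            mul_pos (sub_pos.2 hng) (sub_pos.2 hp)])
    · exact hzero h0
    · have hc : Real.cos (2 * (p.im + z.re)) ≤ 1 / 9 := by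
        have m1 : Real.cos (2 * (p.im + z.re)) ≤ Real.cos (Real.pi / 2 - 1 / 9) :=
          Real.cos_le_cos_of_nonneg_of_le_pi (by linarith only [Real.pi_gt_three]) (by linarith only [t1])
            (by linarith only [h0, zr])
        rw [Real.cos_pi_div_two_sub] at m1
        exact m1.trans (Real.sin_le (by norm_num))
      rcases le_or_gt 0 p.im with hp | hp
      · have m1 : Real.exp (-2) ≤ Real.exp (-(2 * p.re)) := Real.exp_le_exp.2 (by linarith only [h3])
        have m2 := exp_neg_two
        apply sp.low2 hc (by linarith only [m2, m1])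
        have m3 := mul_nonneg (hpos hp) s2.le
        have m4 : 0 ≤ 4 * z.im * (Real.exp (-(2 * p.re)) - 1 / 9) :=
          mul_nonneg (by linarith only [nu]) (by linarith only [m2, m1])
        linarith only [m4, m3]
      · rcases h4 with h4 | ⟨h4, h5⟩
        · linarith only [h4, hp]
        · have m1 : Real.exp (-(8 / 5)) ≤ Real.exp (-(2 * p.re)) :=
            Real.exp_le_exp.2 (by linarith only [h4])
          have m2 := exp_neg_eight_fifths
          apply sp.low2 hc (by linarith only [m2, m1])
          have m3 := hneg hp
          have m4 : 4 * z.im * (2015 / 10000 - 1 / 9) ≤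
              4 * z.im * (Real.exp (-(2 * p.re)) - 1 / 9) :=
            mul_le_mul_of_nonneg_left (by linarith only [m2, m1]) (by linarith only [nu])
          linarith only [m4, m3, h5, hp, zi]
  · apply sr.low
    · exact Real.sin_nonneg_of_nonneg_of_le_pi (by linarith only [r1]) (by linarith)
    · exact Real.cos_nonpos_of_pi_div_two_le_of_le (by linarith only [t1, r1, zr]) (by linarith only [p1,
                                                                                         x1, x0, zr])

theorem O3.hr {p r z : ℂ} (hz : 3 * z = Real.pi + I * (p + r)) :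
    sinh r = sinh (p + 3 * (I * z)) ∧ sinh (r + I * z) = sinh (p + 2 * (I * z)) ∧
      sinh (r - I * z) = sinh (p + 4 * (I * z)) := by
  have hr' : r = Real.pi * I - 3 * (I * z) - p := by
    linear_combination I * hz + (p + r) * I_sq
  refine ⟨?_, ?_, ?_⟩
  · rw [show sinh r = sinh (Real.pi * I - (p + 3 * (I * z))) by rw [hr']; congr 1; ring,
      sinh_pi_sub]
  · rw [show r + I * z = Real.pi * I - (p + 2 * (I * z)) by rw [hr']; ring, sinh_pi_sub]
  · rw [show r - I * z = Real.pi * I - (p + 4 * (I * z)) by rw [hr']; ring, sinh_pi_sub]

theorem O3.s3 {p r z : ℂ} (h : O3 p r) (hz : 3 * z = Real.pi + I * (p + r)) :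
    0 < (sinh r).im ∧ 0 ≤ (sinh r).re := by
  have hpi := Real.pi_pos
  obtain ⟨zr, zi, x0, x1, nu, p0, p1, p2, r0, r1, r2, t1, R3, R5⟩ := h.B3 hz
  rw [sinh_im, sinh_re]
  exact ⟨mul_pos (Real.cosh_pos _) (Real.sin_pos_of_pos_of_lt_pi r1 (by linarith only [p1, x1, x0,
                                                                          zr])),
    mul_nonneg (Real.sinh_nonneg_iff.2 r0.le)
      (Real.cos_nonneg_of_neg_pi_div_two_le_of_le (by linarith only [p2, x1, zr]) r2)⟩

theorem O3.e3 {p r z : ℂ} (h : O3 p r) (hz : 3 * z = Real.pi + I * (p + r)) :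
    exp (log (sinh r)) = sinh r := by
  refine Complex.exp_log (fun h0 => ?_)
  have := (h.s3 hz).1
  rw [h0] at this
  simp at this

theorem O3.l3 {p r z : ℂ} (h : O3 p r) (hz : 3 * z = Real.pi + I * (p + r)) :
    0 < (log (sinh r)).im ∧ (log (sinh r)).im ≤ Real.pi / 2 := by
  obtain ⟨h1, h2⟩ := h.s3 hz
  rw [log_im]
  refine ⟨(arg_up h1).1, ?_⟩
  exact (abs_le.1 (abs_arg_le_pi_div_two_iff.2 h2)).2

/-! ### The gaps -/

theorem O3.him {p r z : ℂ} (h : O3 p r) (hz : 3 * z = Real.pi + I * (p + r)) :
    0 < (sinh (p + I * z) * conj (sin (2 * z))).im := by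
  have hpi := Real.pi_pos
  obtain ⟨zr, zi, x0, x1, nu, p0, p1, p2, r0, r1, r2, t1, R3, R5⟩ := h.B3 hz
  rw [S1_im, show p.im + 3 * z.re = Real.pi - r.im by linarith only [zr], Real.cos_pi_sub]
  have k1 : 0 < Real.cos (p.im - z.re) := Real.cos_pos_of_mem_Ioo ⟨by linarith only [p1, x1, x0, zr], by linarith only [p2,
                                                                                                           x1,
                                                                                                           x0]⟩
  have k2 : 0 ≤ Real.cos r.im :=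
    Real.cos_nonneg_of_neg_pi_div_two_le_of_le (by linarith only [p2, x1, zr]) r2
  have := mul_pos (Real.cosh_pos (p.re - 3 * z.im)) k1
  have := mul_nonneg (Real.cosh_pos (p.re + z.im)).le k2
  linarith [this]

/-- `sinh u ≤ c sinh w` for `u ≤ c w`. -/
theorem sinh_ratio {u w c : ℝ} (h0 : 0 ≤ w) (hc : 0 ≤ c) (hc1 : c ≤ 1) (h : u ≤ c * w) :
    Real.sinh u ≤ c * Real.sinh w := by
  have h1 : Real.sinh u ≤ Real.sinh (c * w) := Real.sinh_le_sinh.2 h
  refine h1.trans ?_
  have hconv : ConvexOn ℝ (Set.Ici 0) Real.sinh := by
    apply MonotoneOn.convexOn_of_deriv (convex_Ici 0) Real.continuous_sinh.continuousOn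
      Real.differentiable_sinh.differentiableOn
    rw [interior_Ici, Real.deriv_sinh]
    intro x hx y hy hxy
    exact Real.cosh_le_cosh.2 (by rwa [abs_of_pos hx, abs_of_pos hy])
  have h2 := hconv.2 (Set.mem_Ici.2 h0) (Set.mem_Ici.2 (le_refl (0 : ℝ))) hc
    (sub_nonneg.2 hc1) (by ring)
  simpa using h2

/-- The argument of the first layer is larger than the one of the third layer. -/
theorem O3.arg13 {p r z : ℂ} (h : O3 p r) (hz : 3 * z = Real.pi + I * (p + r))
    (hH : Real.sinh (4 * z.im - r.re) * Real.sin r.im ≤
      Real.sinh r.re * Real.sin (z.re - p.im)) :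
    0 < (sinh (p + I * z) * conj (sinh r)).im := by
  have hpi := Real.pi_pos
  have hpi' := Real.pi_lt_d2
  have hp := h.p0
  obtain ⟨zr, zi, x0, x1, nu, p0, p1, p2, r0, r1, r2, t1, R3, R5⟩ := h.B3 hz
  rw [ss_im, addI_re, addI_im, show p.re - z.im + r.re = 2 * z.im by linarith only [zi],
    show p.im + z.re + r.im = Real.pi - 2 * z.re by linarith only [zr], Real.sin_pi_sub,
    show p.re - z.im - r.re = -(2 * r.re - 2 * z.im) by linarith only [zi], Real.sinh_neg]
  have sr : 0 < Real.sin r.im := Real.sin_pos_of_pos_of_lt_pi r1 (by linarith only [p1, x1, x0, zr])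
  have s2 : 0 < Real.sin (2 * z.re) := Real.sin_pos_of_pos_of_lt_pi (by linarith only [x0, hpi]) (by linarith only [x1,
                                                                                                       hpi])
  have sR : 0 < Real.sinh r.re := Real.sinh_pos_iff.2 r0
  have sR4 : 0 < Real.sinh (4 * z.im - r.re) := Real.sinh_pos_iff.2 (by linarith only [p0, nu, zi])
  have sn : 0 < Real.sinh (2 * z.im) := Real.sinh_pos_iff.2 (by linarith only [nu])
  have sx : 0 < Real.sin (z.re - p.im) := by
    have := mul_pos sR4 sr
    exact (pos_iff_pos_of_mul_pos (lt_of_lt_of_le this hH)).1 sR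
  rcases le_or_gt z.im r.re with hR | hR
  · rcases le_or_gt r.re (2 * z.im) with hR2 | hR2
    · -- `ν ≤ R ≤ 2 ν`
      have k5 : 0 < Real.sin (p.im + z.re - r.im) := by
        have hp' : 0 < p.im ∨ (r.re ≤ p.re ∧ p.im ≤ 0) := by
          rcases hp with h0 | ⟨h0, h1 | ⟨h1, h2, h3, h4⟩⟩
          · rw [h0] at zi
            simp at zi
            linarith only [zi, hR2, nu]
          · exact Or.inl h1
          · rcases le_or_gt p.im 0 with h5 | h5
            · exact Or.inr ⟨h3, h5⟩
            · exact Or.inl h5
        rcases hp' with hp' | ⟨hp', hp0⟩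
        · have k1 : Real.sinh r.re ≤ Real.sinh (4 * z.im - r.re) :=
            Real.sinh_le_sinh.2 (by linarith only [hR2])
          have k2 : Real.sinh r.re * Real.sin r.im ≤
              Real.sinh r.re * Real.sin (z.re - p.im) := by
            have := mul_le_mul_of_nonneg_right k1 sr.le
            linarith only [this, hH]
          have k3 : Real.sin r.im ≤ Real.sin (z.re - p.im) := le_of_mul_le_mul_left k2 sR
          have k4 : r.im ≤ z.re - p.im := by
            by_contra hc
            push Not at hc
            have := Real.sin_lt_sin_of_lt_of_le_pi_div_two (x := z.re - p.im) (y := r.im)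
              (by linarith only [p2, x1, x0]) r2 hc
            linarith only [this, k3]
          exact Real.sin_pos_of_pos_of_lt_pi (by linarith only [k4, hp']) (by linarith only [r1, p2,
                                                                                x1, zr])
        · -- `3 sinh (4 ν - R) ≥ 5 sinh R`
          have k1 : Real.sinh r.re ≤ 3 / 5 * Real.sinh (4 * z.im - r.re) :=
            sinh_ratio (by linarith only [p0, nu, zi]) (by norm_num) (by norm_num) (by linarith only [hp',
                                                                                         zi])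
          have k2 : Real.sinh (4 * z.im - r.re) * Real.sin r.im ≤
              Real.sinh (4 * z.im - r.re) * (3 / 5 * Real.sin (z.re - p.im)) := by
            have := mul_le_mul_of_nonneg_right k1 (Real.sin_nonneg_of_nonneg_of_le_pi
              (x := z.re - p.im) (by linarith only [hp0, t1, x0]) (by linarith only [p1, x1, x0, zr]))
            linarith only [this, hH]
          have k3 : Real.sin r.im ≤ 3 / 5 * Real.sin (z.re - p.im) :=
            le_of_mul_le_mul_left k2 sR4
          have k4 : r.im < z.re + p.im := by
            by_contra hc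
            push Not at hc
            have m1 : Real.sin (z.re + p.im) ≤ Real.sin r.im :=
              Real.sin_le_sin_of_le_of_le_pi_div_two (by linarith only [p1, x1, x0, zr]) r2 hc
            have m2 : Real.sin (z.re - p.im) - Real.sin (z.re + p.im) =
                2 * Real.sin (-p.im) * Real.cos z.re := by
              rw [Real.sin_sub, Real.sin_add, Real.sin_neg]
              ring
            have m3 : Real.sin (-p.im) ≤ -p.im := Real.sin_le (by linarith only [hp0])
            have m4 : 0 ≤ Real.sin (-p.im) :=
              Real.sin_nonneg_of_nonneg_of_le_pi (by linarith only [hp0]) (by linarith only [p1, x1,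
                                                                                x0, zr])
            have m5 := Real.cos_le_one z.re
            have m6 : 0 < Real.cos z.re := Real.cos_pos_of_mem_Ioo ⟨by linarith only [x0, hpi], by linarith only [x1,
                                                                                                     hpi]⟩
            have m7 : 1 / 2 ≤ Real.sin (z.re - p.im) := by
              rw [← Real.sin_pi_div_six]
              exact Real.sin_le_sin_of_le_of_le_pi_div_two (by linarith only [hpi]) (by linarith only [p1,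
                                                                                          x1, x0,
                                                                                          zr])
                (by linarith only [hp0, x0])
            linarith only [m2, m1, k3, sr, r2, mul_nonneg (sub_nonneg.2 m3) (sub_nonneg.2 m6.le),
              mul_nonneg (sub_nonneg.2 r1.le) (sub_nonneg.2 m5),
              mul_nonneg (sub_nonneg.2 p1) (sub_nonneg.2 m6.le),
              mul_nonneg (sub_nonneg.2 hpi'.le) (sub_nonneg.2 k3),
              mul_pos (sub_pos.2 hpi') (sub_pos.2 sr),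
              mul_nonneg (sub_nonneg.2 hpi.le) (sub_nonneg.2 m7)]
          exact Real.sin_pos_of_pos_of_lt_pi (by linarith only [k4]) (by linarith only [r1, p2, x1,
                                                                           zr])
      have k6 : 0 ≤ Real.sinh (2 * r.re - 2 * z.im) := Real.sinh_nonneg_iff.2 (by linarith only [hR])
      have := mul_pos sn k5
      have := mul_nonneg k6 s2.le
      linarith [this]
    · -- `2 ν < R`
      have k1 : Real.sinh (2 * z.im) < Real.sinh (2 * r.re - 2 * z.im) :=
        Real.sinh_lt_sinh.2 (by linarith only [hR2])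
      have k2 : 0 ≤ Real.sin (2 * z.re) + Real.sin (p.im + z.re - r.im) := by
        have e : Real.sin (2 * z.re) + Real.sin (p.im + z.re - r.im) =
            2 * Real.sin ((2 * z.re + (p.im + z.re - r.im)) / 2) *
              Real.cos ((2 * z.re - (p.im + z.re - r.im)) / 2) := by
          have h1 := Real.sin_add ((2 * z.re + (p.im + z.re - r.im)) / 2)
            ((2 * z.re - (p.im + z.re - r.im)) / 2)
          have h2 := Real.sin_sub ((2 * z.re + (p.im + z.re - r.im)) / 2)
            ((2 * z.re - (p.im + z.re - r.im)) / 2)
          rw [show (2 * z.re + (p.im + z.re - r.im)) / 2 + (2 * z.re - (p.im + z.re - r.im)) / 2 =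
            2 * z.re by ring] at h1
          rw [show (2 * z.re + (p.im + z.re - r.im)) / 2 - (2 * z.re - (p.im + z.re - r.im)) / 2 =
            p.im + z.re - r.im by ring] at h2
          rw [h1, h2]
          ring
        rw [e]
        apply mul_nonneg
        · apply mul_nonneg (by norm_num)
          exact Real.sin_nonneg_of_nonneg_of_le_pi (by linarith only [r2, zr]) (by linarith only [p2,
                                                                                     x1, zr])
        · exact Real.cos_nonneg_of_neg_pi_div_two_le_of_le (by linarith only [p2, x1, x0, zr]) (by linarith only [p1,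
                                                                                                     x1,
                                                                                                     x0,
                                                                                                     zr])
      have k3 := mul_nonneg sn.le k2
      have k4 := mul_lt_mul_of_pos_right k1 s2
      linarith only [k4, k3]
  · -- `R < ν`
    have e : Real.sin (p.im + z.re - r.im) = Real.sin (2 * z.re) -
        2 * Real.cos (p.im + z.re) * Real.sin r.im := by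
      have h1 := Real.sin_add (p.im + z.re) r.im
      have h2 := Real.sin_sub (p.im + z.re) r.im
      rw [show p.im + z.re + r.im = Real.pi - 2 * z.re by linarith only [zr], Real.sin_pi_sub] at h1
      linarith only [h2, h1]
    have e2 : Real.sinh (2 * z.im) + Real.sinh (2 * r.re - 2 * z.im) =
        2 * Real.sinh r.re * Real.cosh (2 * z.im - r.re) := by
      have h1 := Real.sinh_add r.re (2 * z.im - r.re)
      have h2 := Real.sinh_sub r.re (2 * z.im - r.re)
      rw [show r.re + (2 * z.im - r.re) = 2 * z.im by ring] at h1
      rw [show r.re - (2 * z.im - r.re) = 2 * r.re - 2 * z.im by ring] at h2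
      linarith only [h2, h1]
    have e3 : 2 * Real.cos (p.im + z.re) * Real.sin (z.re - p.im) =
        Real.sin (2 * z.re) - Real.sin (2 * p.im) := by
      have h1 := Real.sin_add (z.re - p.im) (p.im + z.re)
      have h2 := Real.sin_sub (z.re - p.im) (p.im + z.re)
      rw [show z.re - p.im + (p.im + z.re) = 2 * z.re by ring] at h1
      rw [show z.re - p.im - (p.im + z.re) = -(2 * p.im) by ring, Real.sin_neg] at h2
      linarith only [h2, h1]
    have s2p : 0 ≤ Real.sin (2 * z.re) + Real.sin (2 * p.im) := by
      have e : Real.sin (2 * z.re) + Real.sin (2 * p.im) =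
          2 * Real.sin (z.re + p.im) * Real.cos (z.re - p.im) := by
        rw [Real.sin_add, Real.cos_sub, Real.sin_two_mul, Real.sin_two_mul]
        have h1 := Real.sin_sq_add_cos_sq z.re
        have h2 := Real.sin_sq_add_cos_sq p.im
        linear_combination (-2 * Real.sin z.re * Real.cos z.re) * h2 -
          (2 * Real.sin p.im * Real.cos p.im) * h1
      rw [e]
      apply mul_nonneg
      · apply mul_nonneg (by norm_num)
        exact Real.sin_nonneg_of_nonneg_of_le_pi (by linarith only [p1, x1, x0, zr]) (by linarith only [p2,
                                                                                           x1, x0])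
      · exact Real.cos_nonneg_of_neg_pi_div_two_le_of_le (by linarith only [p2, x1, x0]) (by linarith only [p1,
                                                                                               x1,
                                                                                               x0,
                                                                                               zr])
    have ct : 0 < Real.cos (p.im + z.re) := Real.cos_pos_of_mem_Ioo ⟨by linarith only [p1, x1, x0,
                                                                          zr], t1⟩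
    have ch := Real.one_le_cosh (2 * z.im - r.re)
    have k1 : Real.sinh (2 * z.im) < Real.sinh (4 * z.im - r.re) :=
      Real.sinh_lt_sinh.2 (by linarith only [hR, nu])
    -- multiply by `sinh (4 ν - R)`
    have k2 : 0 < Real.sinh (4 * z.im - r.re) *
        (Real.sinh (2 * z.im) * Real.sin (p.im + z.re - r.im) +
          Real.sinh (2 * r.re - 2 * z.im) * Real.sin (2 * z.re)) := by
      rw [e]
      have m1 : Real.sinh (2 * z.im) * (2 * Real.cos (p.im + z.re)) *
          (Real.sinh (4 * z.im - r.re) * Real.sin r.im) ≤
          Real.sinh (2 * z.im) * (2 * Real.cos (p.im + z.re)) *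
            (Real.sinh r.re * Real.sin (z.re - p.im)) :=
        mul_le_mul_of_nonneg_left hH (by positivity)
      have m2 : Real.sinh (2 * z.im) * (2 * Real.cos (p.im + z.re)) *
            (Real.sinh r.re * Real.sin (z.re - p.im)) =
          Real.sinh (2 * z.im) * Real.sinh r.re * (Real.sin (2 * z.re) - Real.sin (2 * p.im)) := by
        rw [← e3]
        ring
      have m3 : 0 ≤ Real.sinh (2 * z.im) * Real.sinh r.re *
          (Real.sin (2 * z.re) + Real.sin (2 * p.im)) := by positivity
      have m4 : Real.sinh (4 * z.im - r.re) * (Real.sinh (2 * z.im) *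
          (Real.sin (2 * z.re) - 2 * Real.cos (p.im + z.re) * Real.sin r.im) +
            Real.sinh (2 * r.re - 2 * z.im) * Real.sin (2 * z.re)) =
          Real.sinh (4 * z.im - r.re) * (2 * Real.sinh r.re * Real.cosh (2 * z.im - r.re)) *
            Real.sin (2 * z.re) - Real.sinh (2 * z.im) * (2 * Real.cos (p.im + z.re)) *
          (Real.sinh (4 * z.im - r.re) * Real.sin r.im) := by
        rw [← e2]
        ring
      rw [m4]
      have m5 : 2 * (Real.sinh (2 * z.im) * Real.sinh r.re) * Real.sin (2 * z.re) <
          Real.sinh (4 * z.im - r.re) * (2 * Real.sinh r.re * Real.cosh (2 * z.im - r.re)) *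
            Real.sin (2 * z.re) := by
        apply mul_lt_mul_of_pos_right _ s2
        have n1 : Real.sinh (2 * z.im) * Real.sinh r.re <
            Real.sinh (4 * z.im - r.re) * Real.sinh r.re := mul_lt_mul_of_pos_right k1 sR
        have n2 : 0 < Real.sinh (4 * z.im - r.re) * Real.sinh r.re := by positivity
        linarith only [n1, mul_nonneg (sub_nonneg.2 ch) (sub_nonneg.2 n2.le)]
      linarith only [m5, m3, m2, m1]
    have k3 := (pos_iff_pos_of_mul_pos k2).1 sR4
    linarith only [k3]

/-- The first gap. -/
theorem O3.gap {p r z : ℂ} (h : O3 p r) (hz : 3 * z = Real.pi + I * (p + r)) :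
    0 < 2 * (lA p z).im - (lB p z).im - (log (sinh r)).im ∧
      2 * (lA p z).im - (lB p z).im - (log (sinh r)).im < 2 * Real.pi := by
  have hpi := Real.pi_pos
  obtain ⟨sp, sr⟩ := h.slots hz
  have him := h.him hz
  have a1 := sp.AB
  have a2 := sp.A_im
  have a3 := h.l3 hz
  refine ⟨?_, by linarith only [a3.1, a2.2, a1.2]⟩
  rcases lt_or_ge 0 (sinh (p + I * z) * conj (sin (2 * z))).re with h1 | h1
  · have hst : 0 < Real.sin (2 * (lA p z).im - (lB p z).im - (log (sinh r)).im) := by
      apply step_sin (L := G.L2 z)
      · rw [sp.eA, sp.eB, h.e3 hz, exp_L2 sp.z0 sp.z1, (O3.hr hz).1]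
        exact sinh_step p z
      · rw [sp.eA, exp_L2 sp.z0 sp.z1]
        exact h1
      · rw [sp.eA, exp_L2 sp.z0 sp.z1]
        exact him
    exact (sin_pos_range hst (by linarith only [a3.2, a2.2, a2.1, a1.1])
      (by linarith only [a3.1, a2.2, a1.2])).1
  · obtain ⟨zr, zi, x0, x1, nu, p0, p1, p2, r0, r1, r2, t1, R3, R5⟩ := h.B3 hz
    rw [S1_re, show p.im + 3 * z.re = Real.pi - r.im by linarith only [zr], Real.sin_pi_sub,
      show p.re - 3 * z.im = -r.re by linarith only [zi], Real.sinh_neg,
      show p.im - z.re = -(z.re - p.im) by ring, Real.sin_neg,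
      show p.re + z.im = 4 * z.im - r.re by linarith only [zi]] at h1
    have k1 := h.arg13 hz (by linarith only [h1])
    have a2' := a2
    have a3' := a3
    rw [lA_im_eq] at a2'
    rw [log_im] at a3'
    have k2 := (arg_sub_range k1 (by linarith only [a3'.2, a2'.1, hpi]) (by linarith only [a3'.1,
                                                                              a2'.2, a2.2, a2.1])).1
    have k3 : (log (sinh r)).im = (sinh r).arg := log_im _
    rw [k3]
    have k4 := lA_im_eq p z
    rw [← k4] at k2
    linarith only [k2, a1.1]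

/-- The factors of the second gap. -/
theorem O3.fac {p r z : ℂ} (h : O3 p r) (hz : 3 * z = Real.pi + I * (p + r)) :
    0 < (sinh (r + I * z) * conj (sin z)).im ∧ 0 < (sinh (r + I * z) * conj (sin z)).re ∧
      0 < (sinh r * conj (sin (2 * z))).im ∧ 0 ≤ (sinh r * conj (sin (2 * z))).re := by
  have hpi := Real.pi_pos
  obtain ⟨zr, zi, x0, x1, nu, p0, p1, p2, r0, r1, r2, t1, R3, R5⟩ := h.B3 hz
  have z2r : (2 * z).re = 2 * z.re := by simp
  have z2i : (2 * z).im = 2 * z.im := by simp
  have cr : 0 ≤ Real.cos r.im := Real.cos_nonneg_of_neg_pi_div_two_le_of_le (by linarith only [p2,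
                                                                                  x1, zr]) r2
  have sr : 0 < Real.sin r.im := Real.sin_pos_of_pos_of_lt_pi r1 (by linarith only [p1, x1, x0, zr])
  have ct : 0 < Real.cos (p.im + z.re) := Real.cos_pos_of_mem_Ioo ⟨by linarith only [p1, x1, x0, zr], t1⟩
  have hth : Real.pi / 6 ≤ p.im + z.re := by
    rcases h.th hz with h0 | h0
    · rw [h0]
      simp
      linarith only [x0]
    · linarith only [Real.pi_gt_three, h0, r2, p1, zr]
  have st : 1 / 2 ≤ Real.sin (p.im + z.re) := by
    rw [← Real.sin_pi_div_six]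
    exact Real.sin_le_sin_of_le_of_le_pi_div_two (by linarith only [hpi]) t1.le hth
  have sR : 0 < Real.sinh r.re := Real.sinh_pos_iff.2 r0
  refine ⟨?_, ?_, ?_, ?_⟩
  · rw [sc_im, addI_re, addI_im, show r.re - z.im - z.im = r.re - 2 * z.im by ring,
      show r.im + z.re - z.re = r.im by ring, show r.re - z.im + z.im = r.re by ring,
      show r.im + z.re + z.re = Real.pi - (p.im + z.re) by linarith only [zr], Real.cos_pi_sub]
    have := mul_nonneg (Real.cosh_pos (r.re - 2 * z.im)).le cr
    have := mul_pos (Real.cosh_pos r.re) ct
    linarith [this]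
  · rw [sc_re, addI_re, addI_im, show r.re - z.im - z.im = r.re - 2 * z.im by ring,
      show r.im + z.re - z.re = r.im by ring, show r.re - z.im + z.im = r.re by ring,
      show r.im + z.re + z.re = Real.pi - (p.im + z.re) by linarith only [zr], Real.sin_pi_sub]
    have k0 : 0 < Real.sinh r.re * Real.sin (p.im + z.re) := mul_pos sR (by linarith only [st])
    rcases le_or_gt r.re (2 * z.im) with hR | hR
    · have : Real.sinh (r.re - 2 * z.im) ≤ 0 := Real.sinh_nonpos_iff.2 (by linarith only [hR])
      have := mul_nonpos_of_nonpos_of_nonneg this sr.le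
      linarith only [this, k0]
    · have k1 : Real.sinh (r.re - 2 * z.im) ≤ 1 / 3 * Real.sinh r.re :=
        sinh_ratio r0.le (by norm_num) (by norm_num) (by linarith only [p0, zi])
      have k2 : 0 < Real.sinh (r.re - 2 * z.im) := Real.sinh_pos_iff.2 (by linarith only [hR])
      have k3 := Real.sin_le_one r.im
      have k4 : Real.sinh (r.re - 2 * z.im) * Real.sin r.im ≤ Real.sinh (r.re - 2 * z.im) := by
        linarith only [mul_nonneg (sub_nonneg.2 k2.le) (sub_nonneg.2 k3)]
      have k5 : Real.sinh r.re * (1 / 2) ≤ Real.sinh r.re * Real.sin (p.im + z.re) :=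
        mul_le_mul_of_nonneg_left st sR.le
      linarith only [k5, k4, k2, k1]
  · rw [sc_im, z2r, z2i, show r.im + 2 * z.re = Real.pi - (p.im + z.re) by linarith only [zr],
      Real.cos_pi_sub]
    have k1 : Real.cosh (r.re - 2 * z.im) ≤ Real.cosh (r.re + 2 * z.im) := by
      apply Real.cosh_le_cosh.2
      rw [abs_le, abs_of_pos (by linarith only [r0, nu])]
      constructor <;> linarith
    have k2 : 0 < Real.cos (r.im - 2 * z.re) + Real.cos (p.im + z.re) := by
      have e : Real.cos (r.im - 2 * z.re) + Real.cos (p.im + z.re) =
          2 * (Real.sin (2 * z.re) * Real.sin r.im) := by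
        have h1 := Real.cos_sub r.im (2 * z.re)
        have h2 := Real.cos_add r.im (2 * z.re)
        rw [show r.im + 2 * z.re = Real.pi - (p.im + z.re) by linarith only [zr], Real.cos_pi_sub] at h2
        linarith only [h2, h1]
      rw [e]
      have : 0 < Real.sin (2 * z.re) :=
        Real.sin_pos_of_pos_of_lt_pi (by linarith only [x0, hpi]) (by linarith only [x1, hpi])
      positivity
    have k3 := Real.cosh_pos (r.re - 2 * z.im)
    have k4 := mul_pos k3 k2
    have k5 := mul_le_mul_of_nonneg_right k1 ct.le
    linarith only [k5, k4]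
  · rw [sc_re, z2r, z2i, show r.im + 2 * z.re = Real.pi - (p.im + z.re) by linarith only [zr],
      Real.sin_pi_sub, show r.im - 2 * z.re = -(2 * z.re - r.im) by ring, Real.sin_neg]
    have sp : 0 < Real.sinh (r.re + 2 * z.im) := Real.sinh_pos_iff.2 (by linarith only [r0, nu])
    rcases le_or_gt (2 * z.im) r.re with hR | hR
    · have k1 : Real.sinh (r.re - 2 * z.im) ≤ 1 / 2 * Real.sinh (r.re + 2 * z.im) :=
        sinh_ratio (by linarith only [r0, nu]) (by norm_num) (by norm_num) (by linarith only [p0,
                                                                                 nu, zi])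
      have k2 : 0 ≤ Real.sinh (r.re - 2 * z.im) := Real.sinh_nonneg_iff.2 (by linarith only [hR])
      have k3 := Real.neg_one_le_sin (2 * z.re - r.im)
      have k4 : -Real.sinh (r.re - 2 * z.im) ≤
          Real.sinh (r.re - 2 * z.im) * Real.sin (2 * z.re - r.im) := by
        linarith only [mul_nonneg (sub_nonneg.2 k2) (sub_nonneg.2 k3)]
      have k5 : Real.sinh (r.re + 2 * z.im) * (1 / 2) ≤
          Real.sinh (r.re + 2 * z.im) * Real.sin (p.im + z.re) :=
        mul_le_mul_of_nonneg_left st sp.le
      linarith only [k5, k4, k1]
    · have k1 : Real.sinh (2 * z.im - r.re) ≤ 11 / 17 * Real.sinh (r.re + 2 * z.im) :=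
        sinh_ratio (by linarith only [r0, nu]) (by norm_num) (by norm_num) (by linarith only [R5])
      have k2 : 0 < Real.sinh (2 * z.im - r.re) := Real.sinh_pos_iff.2 (by linarith only [hR])
      have k3 : Real.sin (2 * z.re - r.im) ≤ 17 / 11 * Real.sin (p.im + z.re) := by
        rcases le_or_gt z.re (Real.pi / 4) with hx | hx
        · have m1 : Real.sin (2 * z.re - r.im) ≤ Real.sin (p.im + z.re) :=
            Real.sin_le_sin_of_le_of_le_pi_div_two (by linarith only [p1, x1, x0, zr]) t1.le (by linarith only [hx,
                                                                                                   zr])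
          linarith only [m1, st]
        · have m0 : Real.pi / 4 - 1 / 18 ≤ p.im + z.re := by
            rcases h.th hz with h0 | h0
            · rw [h0]
              simp
              linarith only [hx]
            · exact h0
          have m1 : Real.sin (Real.pi / 4 - 1 / 18) ≤ Real.sin (p.im + z.re) :=
            Real.sin_le_sin_of_le_of_le_pi_div_two (by linarith only [Real.pi_gt_three, hx, x1]) t1.le m0
          rw [Real.sin_sub, Real.sin_pi_div_four, Real.cos_pi_div_four] at m1
          have m2 : 141 / 100 ≤ Real.sqrt 2 := Real.le_sqrt_of_sq_le (by norm_num)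
          have m3 := Real.sin_le_one (2 * z.re - r.im)
          have m4 := Real.one_sub_sq_div_two_le_cos (x := 1 / 18)
          have m5 : Real.sin (1 / 18) ≤ 1 / 18 := Real.sin_le (by norm_num)
          norm_num at m4
          linarith only [m4, m5, m3, m2, m1, mul_nonneg (sub_nonneg.2 m2) (sub_nonneg.2 m4),
            mul_nonneg (sub_nonneg.2 m2) (sub_nonneg.2 m5)]
      have k4 : Real.sinh (2 * z.im - r.re) * Real.sin (2 * z.re - r.im) ≤
          Real.sinh (2 * z.im - r.re) * (17 / 11 * Real.sin (p.im + z.re)) :=
        mul_le_mul_of_nonneg_left k3 k2.le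
      have k5 : Real.sinh (2 * z.im - r.re) * (17 / 11 * Real.sin (p.im + z.re)) ≤
          11 / 17 * Real.sinh (r.re + 2 * z.im) * (17 / 11 * Real.sin (p.im + z.re)) :=
        mul_le_mul_of_nonneg_right k1 (by linarith only [st])
      rw [show r.re - 2 * z.im = -(2 * z.im - r.re) by ring, Real.sinh_neg]
      linarith only [k5, k4]

theorem log2_im : (log 2 : ℂ).im = 0 := by
  have e : (log 2 : ℂ) = ((Real.log 2 : ℝ) : ℂ) := by
    rw [Complex.ofReal_log (by norm_num)]
    norm_num
  rw [e, ofReal_im]

/-- The logarithms of `sin z`, `cos z`. -/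
theorem sincos {z : ℂ} (h0 : 0 < z.re) (h1 : z.re < Real.pi / 2) (h2 : 0 < z.im) :
    exp (log (sin z)) = sin z ∧ 0 < (log (sin z)).im ∧ (log (sin z)).im < Real.pi / 2 ∧
      exp (log (cos z)) = cos z ∧ -(Real.pi / 2) < (log (cos z)).im ∧ (log (cos z)).im < 0 ∧
      L2 z = log 2 + log (sin z) + log (cos z) := by
  have hpi := Real.pi_pos
  obtain ⟨s1, s2⟩ := sin_quad h0 h1 h2
  have c1 : 0 < (cos z).re := by
    rw [cos_re]
    exact mul_pos (Real.cos_pos_of_mem_Ioo ⟨by linarith only [h1, h0], h1⟩) (Real.cosh_pos _)
  have c2 : (cos z).im < 0 := by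
    rw [cos_im]
    have := mul_pos (Real.sin_pos_of_pos_of_lt_pi h0 (by linarith only [h1, h0])) (Real.sinh_pos_iff.2 h2)
    linarith only [this]
  have hs : sin z ≠ 0 := fun h => by rw [h] at s1; simp at s1
  have hc : cos z ≠ 0 := fun h => by rw [h] at c1; simp at c1
  have a1 := arg_quad s1 s2
  have a2 : (sin z).arg < Real.pi / 2 := (arg_right s1).2
  have a3 := arg_right c1
  have a4 := arg_low c2
  have e1 : (log (sin z)).im = (sin z).arg := log_im _
  have e2 : (log (cos z)).im = (cos z).arg := log_im _
  have e3 := L2_im h0 h1
  have e4 : (log 2 : ℂ).im = 0 := log2_im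
  refine ⟨exp_log hs, ?_, ?_, exp_log hc, ?_, ?_, ?_⟩
  · rw [e1]; exact a1.1
  · rw [e1]; exact a2
  · rw [e2]; exact a3.1
  · rw [e2]; exact a4.2
  · apply log_unique
    · rw [exp_L2 h0 h1, exp_add, exp_add, exp_log hs, exp_log hc, exp_log two_ne_zero,
        sin_two_mul]
    · rw [add_im, add_im, e1, e2, e4]
      linarith only [e3.1, a3.2, a1.2, h1, h0]
    · rw [add_im, add_im, e1, e2, e4]
      linarith only [e3.2, a3.1, a1.1, h1, h0]

/-- The facts at a node with three half twists. -/
structure N3 (p r z : ℂ) : Prop where
  sp : Slot p z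
  sr : Slot r z
  lp : (sy p z - z / Real.pi).im < 0
  lr : (sy r z - z / Real.pi).im < 0
  b0 : (sy r z).re < 1 / 2
  s3 : 0 < (sinh r).im
  g0 : 0 < (sy p z - zz3 p r z).re ∧ (sy p z - zz3 p r z).re < 1
  g1 : 0 < (zz3 p r z + sy r z).re ∧ (zz3 p r z + sy r z).re < 1
  g2 : |(zz3 p r z).re| < 1 / 2
  e1 : he (sy p z - z / Real.pi) = -p + L2 z - lA p z / 2 - lB p z / 2
  e2 : he (sy p z + z / Real.pi) = p + L2 z - lA p z / 2 - lB p z / 2
  e3 : he (sy r z - z / Real.pi) = -r + L2 z - lA r z / 2 - lB r z / 2
  e4 : he (sy r z + z / Real.pi) = r + L2 z - lA r z / 2 - lB r z / 2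
  e5 : he (sy p z - zz3 p r z) =
    Real.pi * I / 2 + 2 * L2 z - lA p z - lB p z / 2 - log (sinh r) / 2
  e6 : hh (zz3 p r z + 1 / 2) =
    log 2 + lA r z + log (cos z) - lA p z / 2 - log (sinh r) / 2
  e7 : hh (sy r z + 1 / 2) = log 2 + log (sinh r) + log (cos z) - lA r z / 2 - lB r z / 2
  e8 : he (zz3 p r z + sy r z) = Real.pi * I / 2 + log (sin z) + L2 z - lA p z / 2 -
    lA r z / 2 - log (sinh r) / 2 - lB r z / 2
  eL : L2 z = log 2 + log (sin z) + log (cos z)

theorem layer3 (u z : ℂ) : sinh (u + I * z) * sinh (u + 4 * (I * z)) -
    sinh (u + 2 * (I * z)) * sinh (u + 3 * (I * z)) = sin z * sin (2 * z) := by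
  have e1 : sinh (u + I * z) * sinh (u + 4 * (I * z)) =
      (cosh (2 * u + 5 * (I * z)) - cosh (3 * (I * z))) / 2 := by
    have h1 := cosh_add (u + I * z) (u + 4 * (I * z))
    have h2 := cosh_sub (u + I * z) (u + 4 * (I * z))
    rw [show u + I * z + (u + 4 * (I * z)) = 2 * u + 5 * (I * z) by ring] at h1
    rw [show u + I * z - (u + 4 * (I * z)) = -(3 * (I * z)) by ring, cosh_neg] at h2
    rw [h1, h2]
    ring
  have e2 : sinh (u + 2 * (I * z)) * sinh (u + 3 * (I * z)) =
      (cosh (2 * u + 5 * (I * z)) - cosh (I * z)) / 2 := by
    have h1 := cosh_add (u + 2 * (I * z)) (u + 3 * (I * z))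
    have h2 := cosh_sub (u + 2 * (I * z)) (u + 3 * (I * z))
    rw [show u + 2 * (I * z) + (u + 3 * (I * z)) = 2 * u + 5 * (I * z) by ring] at h1
    rw [show u + 2 * (I * z) - (u + 3 * (I * z)) = -(I * z) by ring, cosh_neg] at h2
    rw [h1, h2]
    ring
  have e3 : cosh (I * z) = cos z := by rw [mul_comm, cosh_mul_I]
  have e4 : cosh (3 * (I * z)) = cos (3 * z) := by
    rw [show 3 * (I * z) = 3 * z * I by ring, cosh_mul_I]
  rw [e1, e2, e3, e4, cos_three_mul, sin_two_mul]
  have := sin_sq_add_cos_sq z
  linear_combination (-2 * cos z) * this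

theorem O3.N3 {p r z : ℂ} (h : O3 p r) (hz : 3 * z = Real.pi + I * (p + r)) : N3 p r z := by
  have hpi := Real.pi_pos
  obtain ⟨sp, sr⟩ := h.slots hz
  obtain ⟨lp, lr⟩ := h.lows hz
  obtain ⟨zr, zi, x0, x1, nu, p0, p1, p2, r0, r1, r2, t1, R3, R5⟩ := h.B3 hz
  obtain ⟨hr1, hr2, hr3⟩ := O3.hr hz
  obtain ⟨f1, f2, f3, f4⟩ := h.fac hz
  obtain ⟨c1, c2, c3, c4, c5, c6, c7⟩ := sincos sp.z0 sp.z1 sp.zi
  have hL := L2_im sp.z0 sp.z1
  have a1 := sp.A_im
  have a2 := sp.B_im
  have a3 := sr.A_im
  have a4 := sr.B_im
  have a5 := h.l3 hz
  have b1 := sp.AB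
  have b2 := sr.AB
  have hLA := sp.LA (h.him hz)
  have gp := h.gap hz
  have e3 := h.e3 hz
  have hr0 : r ≠ 0 := fun h0 => by rw [h0] at r0; simp at r0
  have b0 := sr.sy_lt hr0
  have e4 : (log 2 : ℂ).im = 0 := log2_im
  have i1 : 2 * Real.pi * I * (sy p z - zz3 p r z) = 2 * lA p z - lB p z - log (sinh r) := by
    linear_combination sy_mul p z - zz3_mul p r z
  have i2 : 2 * Real.pi * I * (zz3 p r z + sy r z) =
      log (sinh r) - lA p z + lA r z - lB r z := by
    linear_combination sy_mul r z + zz3_mul p r z
  have j1 : 2 * Real.pi * (sy p z - zz3 p r z).re =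
      2 * (lA p z).im - (lB p z).im - (log (sinh r)).im := by
    apply re_of_im
    rw [i1]
    simp
  have j2 : 2 * Real.pi * (zz3 p r z + sy r z).re =
      (log (sinh r)).im - (lA p z).im + (lA r z).im - (lB r z).im := by
    apply re_of_im
    rw [i2]
    simp
  have j3 : 2 * Real.pi * (zz3 p r z).re = (log (sinh r)).im - (lA p z).im := by
    apply re_of_im
    rw [zz3_mul]
    simp
  -- the arguments
  have eA3 : (log (sinh r)).im = (sinh r).arg := log_im _
  have eL2 : (L2 z).im = (sin (2 * z)).arg := log_im _
  have eL1 : (log (sin z)).im = (sin z).arg := log_im _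
  have m1 := sin_pos_of_mul_conj f1
  have m2 : 0 < Real.cos ((sinh (r + I * z)).arg - (sin z).arg) := by
    rw [re_mul_conj] at f2
    by_contra hc
    push Not at hc
    have := mul_nonpos_of_nonneg_of_nonpos
      (mul_nonneg (norm_nonneg (sinh (r + I * z))) (norm_nonneg (sin z))) hc
    linarith only [this, f2]
  have m3 := sin_pos_of_mul_conj f3
  have m4 : 0 ≤ Real.cos ((sinh r).arg - (sin (2 * z)).arg) := by
    rw [re_mul_conj] at f4
    rw [im_mul_conj] at f3
    have h5 : 0 < ‖sinh r‖ * ‖sin (2 * z)‖ := by
      rcases (mul_nonneg (norm_nonneg (sinh r)) (norm_nonneg (sin (2 * z)))).eq_or_lt with h6 | h6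
      · rw [← h6] at f3
        simp at f3
      · exact h6
    exact nonneg_of_mul_nonneg_right f4 h5
  rw [← lA_im_eq, ← eL1] at m1 m2
  rw [← eA3, ← eL2] at m3 m4
  have n1 := sin_pos_range m1 (by linarith only [a3.1, c3, c2]) (by linarith only [a3.2, c3, c2])
  have n2 := sin_pos_range m3 (by linarith only [a5.1, hL.2, c3, c2]) (by linarith only [a5.2, hL.1,
                                                                            c3, c2])
  have key : exp (lA p z) * exp (lB r z) - exp (lA r z) * exp (log (sinh r)) =
      exp (log (sin z)) * exp (L2 z) := by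
    rw [sp.eA, sr.eB, sr.eA, e3, c1, exp_L2 sp.z0 sp.z1, hr1, hr2, hr3]
    exact layer3 p z
  have n3 : 0 < Real.sin ((lA r z).im + (log (sinh r)).im - (lA p z).im - (lB r z).im) := by
    apply step2_sin key
    rw [Real.sin_add]
    have := mul_nonneg m1.le m4
    have := mul_pos m2 m3
    linarith [this]
  have n4 := sin_pos_range n3 (by linarith only [b2.1, a5.1, a1.2]) (by linarith only [a5.2, a4.1,
                                                                          a3.2, a1.1])
  have g0 : 0 < (sy p z - zz3 p r z).re ∧ (sy p z - zz3 p r z).re < 1 := by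
    constructor
    · by_contra hc
      push Not at hc
      linarith only [j1, gp.1, mul_nonneg (sub_nonneg.2 hpi.le) (sub_nonneg.2 hc)]
    · by_contra hc
      push Not at hc
      linarith only [j1, b1.2, a5.1, a1.2, mul_nonneg (sub_nonneg.2 hpi.le) (sub_nonneg.2 hc)]
  have g1 : 0 < (zz3 p r z + sy r z).re ∧ (zz3 p r z + sy r z).re < 1 := by
    constructor
    · by_contra hc
      push Not at hc
      linarith only [n4.1, j2, mul_nonneg (sub_nonneg.2 hpi.le) (sub_nonneg.2 hc)]
    · by_contra hc
      push Not at hc
      linarith only [n4.2, j2, hpi, mul_nonneg (sub_nonneg.2 hpi.le) (sub_nonneg.2 hc)]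
  have g2 : |(zz3 p r z).re| < 1 / 2 := by
    rw [abs_lt]
    constructor
    · by_contra hc
      push Not at hc
      linarith only [j3, a5.1, a1.2, mul_nonneg (sub_nonneg.2 hpi.le) (sub_nonneg.2 hc)]
    · by_contra hc
      push Not at hc
      linarith only [j3, a5.2, a1.1, c3, c2, mul_nonneg (sub_nonneg.2 hpi.le) (sub_nonneg.2 hc)]
  obtain ⟨g3, g4⟩ := abs_lt.1 g2
  refine ⟨sp, sr, lp, lr, b0, (h.s3 hz).1, g0, g1, g2, sp.hm_low lp (by linarith only [a2.2, a1.2,
                                                                          hL.1, c3, c2, r1, x0, zr]) (by linarith only [a2.1,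
                                                                                                           a1.1,
                                                                                                           hL.2,
                                                                                                           c3,
                                                                                                           c2,
                                                                                                           r2,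
                                                                                                           p1]),
    sp.hp (by linarith only [a2.2, a1.2, hL.1, c3, c2, r2, p1]) (by linarith only [a2.1, a1.1, hL.2,
                                                                      c3, c2, r1, x0, zr]), sr.hm_low lr (by linarith only [a4.2,
                                                                                                               a3.2,
                                                                                                               hL.1,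
                                                                                                               c3,
                                                                                                               c2,
                                                                                                               r2]) (by linarith only [a4.1,
                                                                                                                          a3.1,
                                                                                                                          hL.2,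
                                                                                                                          c3,
                                                                                                                          c2,
                                                                                                                          r1]),
    sr.hp (by linarith only [a4.2, a3.2, hL.1, c3, c2, r1]) (by linarith only [a4.1, a3.1, hL.2, c3,
                                                                  c2, r2]), ?_, ?_, ?_, ?_, c7⟩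
  · rw [he_eq_hh g0.1 g0.2]
    refine LB ?_ i1 g0.1 g0.2 hLA.1 hLA.2
    rw [sp.eA, sp.eB, e3, exp_L2 sp.z0 sp.z1, hr1]
    exact sinh_step p z
  · have q0 : 0 < (zz3 p r z + 1 / 2).re := by
      rw [add_re]
      norm_num
      linarith only [g3]
    have q1 : (zz3 p r z + 1 / 2).re < 1 := by
      rw [add_re]
      norm_num
      linarith only [g4]
    have hb := hh_im_lt q0 q1
    have u1 : exp (Real.pi * I * zz3 p r z) =
        exp (-lA p z / 2 - log (sinh r) / 2) * exp (log (sinh r)) := by
      rw [← exp_add]
      congr 1
      linear_combination (zz3_mul p r z) / 2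
    have u2 : exp (-(Real.pi * I * zz3 p r z)) =
        exp (-lA p z / 2 - log (sinh r) / 2) * exp (lA p z) := by
      rw [← exp_add]
      congr 1
      linear_combination -(zz3_mul p r z) / 2
    have u3 : 2 * sin (Real.pi * (zz3 p r z + 1 / 2)) =
        exp (Real.pi * I * zz3 p r z) + exp (-(Real.pi * I * zz3 p r z)) := by
      have : (Real.pi * (zz3 p r z + 1 / 2) : ℂ) = Real.pi * zz3 p r z + Real.pi / 2 := by ring
      rw [this, sin_add_pi_div_two, Complex.cos]
      have e1 : (Real.pi * zz3 p r z : ℂ) * I = Real.pi * I * zz3 p r z := by ring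
      have e2 : -(Real.pi * zz3 p r z : ℂ) * I = -(Real.pi * I * zz3 p r z) := by ring
      rw [e1, e2]
      ring
    have u4 : sinh (p + 3 * (I * z)) + sinh (p + I * z) = 2 * (sinh (p + 2 * (I * z)) * cos z) := by
      have h1 := sinh_add (p + 2 * (I * z)) (I * z)
      have h2 := sinh_sub (p + 2 * (I * z)) (I * z)
      rw [show p + 2 * (I * z) + I * z = p + 3 * (I * z) by ring] at h1
      rw [show p + 2 * (I * z) - I * z = p + I * z by ring] at h2
      have h3 : cosh (I * z) = cos z := by rw [mul_comm, cosh_mul_I]
      rw [h1, h2, h3]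
      ring
    apply log_unique
    · rw [exp_hh q0 q1, u3, u1, u2, show log 2 + lA r z + log (cos z) - lA p z / 2 -
        log (sinh r) / 2 = log 2 + lA r z + log (cos z) + (-lA p z / 2 - log (sinh r) / 2) by ring,
        exp_add, exp_add, exp_add, exp_log two_ne_zero, sr.eA, c4, e3, sp.eA, hr2, hr1]
      linear_combination exp (-lA p z / 2 - log (sinh (p + 3 * (I * z))) / 2) * u4
    · simp only [sub_im, add_im, half_im, e4]
      linarith only [hb.1, a5.1, a3.2, a1.1, c6, c3, c2]
    · simp only [sub_im, add_im, half_im, e4]
      linarith only [hb.2, n1.1, a5.2, a1.2, c5, c2, hpi]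
  · have q0 : 0 < (sy r z + 1 / 2).re := by
      rw [add_re]
      norm_num
      linarith only [sr.sy_re.1, g0.2, g0.1]
    have q1 : (sy r z + 1 / 2).re < 1 := by
      rw [add_re]
      norm_num
      linarith only [b0]
    have hb := hh_im_lt q0 q1
    apply log_unique
    · rw [exp_hh q0 q1, sr.sh, show log 2 + log (sinh r) + log (cos z) - lA r z / 2 -
        lB r z / 2 = log 2 + log (sinh r) + log (cos z) + (-(lA r z + lB r z) / 2) by ring,
        exp_add, exp_add, exp_add, exp_log two_ne_zero, c4, e3]
      ring
    · simp only [sub_im, add_im, half_im, e4]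
      linarith only [hb.1, n4.2, n1.1, a5.2, a1.2, c6, c2, hpi]
    · simp only [sub_im, add_im, half_im, e4]
      linarith only [hb.2, a5.1, a4.2, a3.2, c5, c3, c2]
  · rw [he_eq_hh g1.1 g1.2]
    rw [LB2 key i2 g1.1 g1.2 (by linarith only [n1.1]) (by linarith only [a3.2, c2]) (by linarith only [n2.1])
      (by linarith only [a5.2, hL.1])]

theorem N3.da {p r z : ℂ} (h : N3 p r z) :
    -he (sy p z - z / Real.pi) - he (sy p z + z / Real.pi) =
      -(Real.pi * I * (sy p z + zz3 p r z - 1 / 2)) - he (sy p z - zz3 p r z) := by
  rw [h.e1, h.e2, h.e5]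
  linear_combination (sy_mul p z) / 2 + (zz3_mul p r z) / 2

theorem N3.db {p r z : ℂ} (h : N3 p r z) :
    -he (sy r z - z / Real.pi) - he (sy r z + z / Real.pi) =
      Real.pi * I * (zz3 p r z + 1 / 2) - hh (sy r z + 1 / 2) - he (zz3 p r z + sy r z) := by
  rw [h.e3, h.e4, h.e7, h.e8]
  linear_combination -(zz3_mul p r z) / 2 - h.eL

/-- The equation of the own variable. -/
theorem N3.dz {p r z : ℂ} (h : N3 p r z) :
    -(Real.pi * I * (sy p z + zz3 p r z + 1 / 2)) + he (sy p z - zz3 p r z) +
      Real.pi * I * (sy r z + 1 / 2) - hh (zz3 p r z + 1 / 2) - he (zz3 p r z + sy r z) = 0 := by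
  rw [h.e5, h.e6, h.e8]
  linear_combination -(sy_mul p z) / 2 + (sy_mul r z) / 2 - (zz3_mul p r z) / 2 + h.eL

theorem N3.dv {p r z : ℂ} (h : N3 p r z) (hz : 3 * z = Real.pi + I * (p + r)) :
    2 * Real.pi * I * (2 * (-(3 / 2)) * (z / Real.pi) + 1) +
      (he (sy p z - z / Real.pi) - he (sy p z + z / Real.pi)) +
      (he (sy r z - z / Real.pi) - he (sy r z + z / Real.pi)) = 0 := by
  rw [h.e1, h.e2, h.e3, h.e4]
  linear_combination -6 * v_mul z - 2 * I * hz - 2 * (p + r) * I_sq

end Pool.Agent.S5.G
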