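import Pool.Agent.S5.G.Nd3

/-!
# Nodes in closed form: the value at nodes with three half twists
-/

set_option autoImplicit false

namespace Pool.Agent.S5.G

open Complex Pool.Agent.H63.VC3 Pool.Agent.H63.VC5 Pool.Agent.H63.GV Pool.Agent.S3
open Pool.Agent.S3.G (arg_up arg_quad pi_ne fe_lim_zero)
open Filter Topology
open scoped ComplexConjugate

theorem l3_diff {r : ℂ} {t : ℝ} (h : 0 < (sinh (t * r)).im) :
    DifferentiableAt ℝ (fun t : ℝ => log (sinh (t * r))) t := by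
  have h1 : HasDerivAt (fun t : ℝ => sinh (t * r)) (cosh (t * r) * r) t :=
    HasDerivAt.comp t (Complex.hasDerivAt_sinh _) (mul_hasDerivAt r t)
  exact (h1.clog_real (Or.inr h.ne')).differentiableAt

/-- The difference of the potentials on the path. -/
noncomputable def F3 (p r : ℂ) (t : ℝ) : ℂ :=
  pV (-(3 / 2)) (vt 3 (p + r) t) (sy (t * p) (zt 3 (p + r) t)) (sy (t * r) (zt 3 (p + r) t)) -
    (pB (-1) (sy (t * p) (zt 3 (p + r) t)) (zz3 (t * p) (t * r) (zt 3 (p + r) t)) +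
      pH (-1) (zz3 (t * p) (t * r) (zt 3 (p + r) t)) (sy (t * r) (zt 3 (p + r) t)))

theorem three_zt (p r : ℂ) (t : ℝ) :
    3 * zt 3 (p + r) t = Real.pi + I * (t * p + t * r) := by
  unfold zt
  push_cast
  ring

theorem F3_hasDerivAt {p r : ℂ} (h : O3 p r) {t : ℝ} (h0 : 0 < t) (h1 : t ≤ 1) :
    HasDerivAt (F3 p r) 0 t := by
  have hN := (h.smul h0 h1).N3 (three_zt p r t)
  have ha := (sy_diff hN.sp).hasDerivAt
  have hb := (sy_diff hN.sr).hasDerivAt
  have hc := (((l3_diff hN.s3).sub (lA_diff hN.sp.slA)).div_const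
    (2 * Real.pi * I)).hasDerivAt
  have hv := vt_hasDerivAt 3 (p + r) t
  have i1 := hN.da
  have i2 := hN.db
  have i3 := hN.dv (three_zt p r t)
  have i4 := hN.dz
  obtain ⟨g3, g4⟩ := abs_lt.1 hN.g2
  set z := zt 3 (p + r) t with hzdef
  set a' := deriv (fun t : ℝ => sy (t * p) (zt 3 (p + r) t)) t
  set b' := deriv (fun t : ℝ => sy (t * r) (zt 3 (p + r) t)) t
  set v' := I * (p + r) / (3 : ℕ) / Real.pi
  generalize hc' : deriv (fun x : ℝ => ((fun t : ℝ => log (sinh (t * r))) -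
    fun t : ℝ => lA (t * p) (zt 3 (p + r) t)) x / (2 * Real.pi * I)) t = c' at hc
  change HasDerivAt (fun t : ℝ => zz3 (t * p) (t * r) (zt 3 (p + r) t)) c' t at hc
  have k1 : HasDerivAt (fun t : ℝ => fe (sy (t * p) (zt 3 (p + r) t) - vt 3 (p + r) t))
      (he (sy (t * p) z - z / Real.pi) * (a' - v')) t :=
    HasDerivAt.comp t (fe_hasDerivAt (Or.inl hN.lp.ne)) (ha.sub hv)
  have k2 : HasDerivAt (fun t : ℝ => fe (sy (t * p) (zt 3 (p + r) t) + vt 3 (p + r) t))
      (he (sy (t * p) z + z / Real.pi) * (a' + v')) t :=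
    HasDerivAt.comp t (fe_hasDerivAt (Or.inr hN.sp.yv)) (ha.add hv)
  have k3 : HasDerivAt (fun t : ℝ => fe (sy (t * r) (zt 3 (p + r) t) - vt 3 (p + r) t))
      (he (sy (t * r) z - z / Real.pi) * (b' - v')) t :=
    HasDerivAt.comp t (fe_hasDerivAt (Or.inl hN.lr.ne)) (hb.sub hv)
  have k4 : HasDerivAt (fun t : ℝ => fe (sy (t * r) (zt 3 (p + r) t) + vt 3 (p + r) t))
      (he (sy (t * r) z + z / Real.pi) * (b' + v')) t :=
    HasDerivAt.comp t (fe_hasDerivAt (Or.inr hN.sr.yv)) (hb.add hv)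
  have k5 : HasDerivAt (fun t : ℝ => fe (sy (t * p) (zt 3 (p + r) t) -
      zz3 (t * p) (t * r) (zt 3 (p + r) t)))
        (he (sy (t * p) z - zz3 (t * p) (t * r) z) * (a' - c')) t :=
    HasDerivAt.comp t (fe_hasDerivAt (Or.inr hN.g0)) (ha.sub hc)
  have k5' : HasDerivAt (fun t : ℝ => fe (zz3 (t * p) (t * r) (zt 3 (p + r) t) +
      sy (t * r) (zt 3 (p + r) t)))
        (he (zz3 (t * p) (t * r) z + sy (t * r) z) * (c' + b')) t :=
    HasDerivAt.comp t (fe_hasDerivAt (Or.inr hN.g1)) (hc.add hb)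
  have q0 : 0 < (zz3 (t * p) (t * r) z + 1 / 2).re := by
    rw [add_re]
    norm_num
    linarith
  have q1 : (zz3 (t * p) (t * r) z + 1 / 2).re < 1 := by
    rw [add_re]
    norm_num
    linarith
  have q2 : 0 < (sy (t * r) z + 1 / 2).re := by
    rw [add_re]
    norm_num
    linarith [hN.sr.sy_re.1]
  have q3 : (sy (t * r) z + 1 / 2).re < 1 := by
    rw [add_re]
    norm_num
    linarith [hN.b0]
  have k9 : HasDerivAt (fun t : ℝ => ff (zz3 (t * p) (t * r) (zt 3 (p + r) t) + 1 / 2))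
      (hh (zz3 (t * p) (t * r) z + 1 / 2) * c') t :=
    HasDerivAt.comp t (ff_hasDerivAt _ q0 q1) (hc.add_const _)
  have k10 : HasDerivAt (fun t : ℝ => ff (sy (t * r) (zt 3 (p + r) t) + 1 / 2))
      (hh (sy (t * r) z + 1 / 2) * b') t :=
    HasDerivAt.comp t (ff_hasDerivAt _ q2 q3) (hb.add_const _)
  have k6 : HasDerivAt (fun t => wr (-(3 / 2)) (vt 3 (p + r) t)) (2 * Real.pi * I *
      (((-(3 / 2) : ℝ) : ℂ) * (2 * (z / Real.pi) * v') + v')) t := by
    have := (((hv.pow 2).const_mul ((-(3 / 2) : ℝ) : ℂ)).add hv).const_mul (2 * Real.pi * I : ℂ)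
    refine HasDerivAt.congr_deriv (f := fun t => wr (-(3 / 2)) (vt 3 (p + r) t)) this ?_
    simp [vt, hzdef]
  have k7 : HasDerivAt (fun t : ℝ => qH (-1) (zz3 (t * p) (t * r) (zt 3 (p + r) t))
      (sy (t * r) (zt 3 (p + r) t))) (-((((-1 : ℤ) : ℂ) * Real.pi * I) *
        (c' * (sy (t * r) z + 1 / 2) + (zz3 (t * p) (t * r) z + 1 / 2) * b'))) t :=
    (((hc.add_const (1 / 2)).mul (hb.add_const (1 / 2))).const_mul
      (((-1 : ℤ) : ℂ) * Real.pi * I)).neg
  have k7' : HasDerivAt (fun t : ℝ => qB (-1) (sy (t * p) (zt 3 (p + r) t))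
      (zz3 (t * p) (t * r) (zt 3 (p + r) t))) ((((-1 : ℤ) : ℂ) * Real.pi * I) *
        ((sy (t * p) z + zz3 (t * p) (t * r) z) * (a' + c') - (a' - c') / 2)) t := by
    have := (((((ha.add hc).pow 2).div_const 2)).sub
      ((ha.sub hc).div_const 2)).const_mul (((-1 : ℤ) : ℂ) * Real.pi * I)
    refine HasDerivAt.congr_deriv (f := fun t : ℝ => qB (-1) (sy (t * p) (zt 3 (p + r) t))
      (zz3 (t * p) (t * r) (zt 3 (p + r) t))) this ?_
    simp
    ring
  have k8 := ((((k6.sub k1).sub k2).sub k3).sub k4).sub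
    ((k7'.sub k5).add (((k7.sub k9).sub k10).sub k5'))
  refine HasDerivAt.congr_deriv (f := F3 p r) k8 ?_
  push_cast
  linear_combination a' * i1 + b' * i2 + v' * i3 - c' * i4

/-! ### The limit -/

theorem lim_up {u : ℝ → ℂ} {l : Filter ℝ}
    (h : Tendsto (fun t => exp (2 * Real.pi * I * u t)) l (𝓝 0)) :
    Tendsto (fun t => fe (u t) + Real.pi * I / 2 * (u t ^ 2 - u t + 1 / 6)) l (𝓝 0) := by
  have h1 : ∀ᶠ t in l, 0 < (u t).im := by
    have h2 := (continuous_norm.tendsto _).comp h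
    rw [norm_zero] at h2
    filter_upwards [h2.eventually (gt_mem_nhds (zero_lt_one' ℝ))] with t ht
    change ‖exp (2 * Real.pi * I * u t)‖ < 1 at ht
    rw [norm_exp, two_pi_I_mul_re, Real.exp_lt_one_iff] at ht
    have hpi := Real.pi_pos
    by_contra hc
    push Not at hc
    nlinarith
  have h3 : Tendsto (fun t => -dilog (exp (2 * Real.pi * I * u t)) / (2 * Real.pi * I)) l
      (𝓝 0) := by
    have := ((dilog_continuous_zero.tendsto.comp h).neg).div_const (2 * Real.pi * I)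
    rwa [dilog_zero, neg_zero, zero_div] at this
  refine h3.congr' ?_
  filter_upwards [h1] with t ht
  unfold fe
  rw [if_pos ht]
  have hp := pi_ne
  have hI := I_ne_zero
  field_simp
  linear_combination (-(u t ^ 2 - u t + 1 / 6) * Real.pi * 6 * Real.pi) * I_sq

theorem lim_dn {u : ℝ → ℂ} {l : Filter ℝ}
    (h : Tendsto (fun t => exp (-(2 * Real.pi * I * u t))) l (𝓝 0)) :
    Tendsto (fun t => fe (u t) - Real.pi * I / 2 * (u t ^ 2 - u t + 1 / 6)) l (𝓝 0) := by
  have h1 : ∀ᶠ t in l, (u t).im < 0 := by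
    have h2 := (continuous_norm.tendsto _).comp h
    rw [norm_zero] at h2
    filter_upwards [h2.eventually (gt_mem_nhds (zero_lt_one' ℝ))] with t ht
    change ‖exp (-(2 * Real.pi * I * u t))‖ < 1 at ht
    rw [norm_exp, neg_re, two_pi_I_mul_re, Real.exp_lt_one_iff] at ht
    have hpi := Real.pi_pos
    by_contra hc
    push Not at hc
    nlinarith
  have h3 : Tendsto (fun t => -dilog (exp (-(2 * Real.pi * I * u t))) / (-(2 * Real.pi * I))) l
      (𝓝 0) := by
    have := ((dilog_continuous_zero.tendsto.comp h).neg).div_const (-(2 * Real.pi * I))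
    rwa [dilog_zero, neg_zero, zero_div] at this
  refine h3.congr' ?_
  filter_upwards [h1] with t ht
  unfold fe
  rw [if_neg (by linarith), if_pos ht]
  have hp := pi_ne
  have hI := I_ne_zero
  field_simp
  linear_combination ((u t ^ 2 - u t + 1 / 6) * Real.pi * 6 * Real.pi) * I_sq

/-- `t log sinh (t r)` tends to `0`. -/
theorem tl3_lim {r : ℂ} (h0 : 0 < r.re) (h1 : ∀ᶠ t : ℝ in 𝓝[>] 0, 0 < (sinh (t * r)).im) :
    Tendsto (fun t : ℝ => (t : ℂ) * log (sinh (t * r))) (𝓝[>] 0) (𝓝 0) := by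
  have h2 : HasDerivAt (fun t : ℝ => sinh (t * r)) (cosh (((0 : ℝ) : ℂ) * r) * r) 0 :=
    HasDerivAt.comp (0 : ℝ) (Complex.hasDerivAt_sinh _) (mul_hasDerivAt r 0)
  have h3 := h2.tendsto_slope_zero_right
  have h4 : Tendsto (fun t : ℝ => (t : ℂ)⁻¹ * sinh (t * r)) (𝓝[>] 0) (𝓝 r) := by
    have e : cosh (((0 : ℝ) : ℂ) * r) * r = r := by simp
    rw [e] at h3
    refine h3.congr' ?_
    filter_upwards with t
    simp
  have h5 : Tendsto (fun t : ℝ => log ((t : ℂ)⁻¹ * sinh (t * r))) (𝓝[>] 0) (𝓝 (log r)) :=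
    h4.clog (Or.inl h0)
  have h6 : Tendsto (fun t : ℝ => (t : ℂ)) (𝓝[>] 0) (𝓝 0) := by
    have := (continuous_ofReal.tendsto (0 : ℝ)).mono_left (nhdsWithin_le_nhds (s := Set.Ioi 0))
    simpa using this
  have h7 : Tendsto (fun t : ℝ => ((t * Real.log t : ℝ) : ℂ)) (𝓝[>] 0) (𝓝 0) := by
    have := (Real.continuous_mul_log.tendsto 0).mono_left (nhdsWithin_le_nhds (s := Set.Ioi 0))
    rw [zero_mul] at this
    have := (continuous_ofReal.tendsto (0 : ℝ)).comp this
    rw [ofReal_zero] at this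
    exact this
  have h8 := h7.add (h6.mul h5)
  rw [zero_mul, zero_add] at h8
  refine h8.congr' ?_
  filter_upwards [h1, self_mem_nhdsWithin] with t ht ht0
  have ht0' : (0 : ℝ) < t := ht0
  have hne : (t : ℂ) ≠ 0 := by exact_mod_cast ht0'.ne'
  have hs : sinh (t * r) ≠ 0 := fun h => by rw [h] at ht; simp at ht
  have e : sinh (t * r) = (t : ℂ) * ((t : ℂ)⁻¹ * sinh (t * r)) := by
    field_simp
  have e2 : log (sinh (t * r)) = (Real.log t : ℂ) + log ((t : ℂ)⁻¹ * sinh (t * r)) := by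
    conv_lhs => rw [e]
    rw [log_ofReal_mul ht0' (mul_ne_zero (inv_ne_zero hne) hs)]
  rw [e2]
  push_cast
  ring

theorem F3_lim {p r : ℂ} (h : O3 p r) :
    Tendsto (F3 p r) (𝓝[>] 0) (𝓝 (-(Real.pi * I / 4))) := by
  have ha := sy_lim (n := 3) (by norm_num) p (p + r)
  have hb := sy_lim (n := 3) (by norm_num) r (p + r)
  have hv : Tendsto (vt 3 (p + r)) (𝓝[>] 0) (𝓝 (1 / 3)) := by
    have := vt_lim (n := 3) (p + r)
    push_cast at this
    exact this
  have hN : ∀ᶠ t : ℝ in 𝓝[>] 0, N3 (t * p) (t * r) (zt 3 (p + r) t) := by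
    filter_upwards [Ioc_mem_nhdsGT (zero_lt_one' ℝ)] with t ht
    exact (h.smul ht.1 ht.2).N3 (three_zt p r t)
  have h6 : Tendsto (fun t : ℝ => (t : ℂ)) (𝓝[>] 0) (𝓝 0) := by
    have := (continuous_ofReal.tendsto (0 : ℝ)).mono_left (nhdsWithin_le_nhds (s := Set.Ioi 0))
    simpa using this
  have hlA := lA_lim (n := 3) (by norm_num) p (p + r)
  -- `exp (2 π i ζ)` tends to `0`
  have hE : Tendsto (fun t : ℝ => exp (2 * Real.pi * I * zz3 (t * p) (t * r) (zt 3 (p + r) t)))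
      (𝓝[>] 0) (𝓝 0) := by
    have m1 : Tendsto (fun t : ℝ => sinh (t * r)) (𝓝[>] 0) (𝓝 0) := by
      have := (Complex.continuous_sinh.tendsto _).comp (h6.mul_const r)
      rw [zero_mul, sinh_zero] at this
      exact this
    have m2 := m1.mul ((Complex.continuous_exp.tendsto _).comp hlA.neg)
    rw [zero_mul] at m2
    refine m2.congr' ?_
    filter_upwards [hN] with t ht
    have hs : sinh (t * r) ≠ 0 := fun h => by
      have := ht.s3
      rw [h] at this
      simp at this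
    rw [zz3_mul, sub_eq_add_neg, exp_add, exp_log hs]
    rfl
  -- `(2 b - 1) ζ` tends to `0`
  have hz : Tendsto (fun t : ℝ => (2 * sy (t * r) (zt 3 (p + r) t) - 1) *
      zz3 (t * p) (t * r) (zt 3 (p + r) t)) (𝓝[>] 0) (𝓝 0) := by
    have m1 := (sy_diff' (slA0 (n := 3) (by norm_num) r (p + r))
      (slB0 (by norm_num) r (p + r))).hasDerivAt.tendsto_slope_zero_right
    rw [sy_path_zero (by norm_num)] at m1
    have m2 : Tendsto (fun t : ℝ => (t : ℂ) * zz3 (t * p) (t * r) (zt 3 (p + r) t))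
        (𝓝[>] 0) (𝓝 0) := by
      have n1 := tl3_lim h.r0 (hN.mono fun t ht => ht.s3)
      have n2 := (n1.sub (h6.mul hlA)).div_const (2 * Real.pi * I)
      rw [zero_mul, sub_zero, zero_div] at n2
      refine n2.congr fun t => ?_
      unfold zz3
      ring
    have m3 := (m1.mul m2).const_mul (2 : ℂ)
    rw [mul_zero, mul_zero] at m3
    refine m3.congr' ?_
    filter_upwards [self_mem_nhdsWithin] with t ht
    have ht' : (0 : ℝ) < t := ht
    have hne : (t : ℂ) ≠ 0 := by exact_mod_cast ht'.ne'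
    rw [zero_add, real_smul]
    push_cast
    field_simp
  have l1 : Tendsto (fun t : ℝ => sy (t * p) (zt 3 (p + r) t) - vt 3 (p + r) t) (𝓝[>] 0)
      (𝓝 (1 / 6)) := by
    have := ha.sub hv
    rwa [show (1 / 2 - 1 / 3 : ℂ) = 1 / 6 by norm_num] at this
  have l2 : Tendsto (fun t : ℝ => sy (t * p) (zt 3 (p + r) t) + vt 3 (p + r) t) (𝓝[>] 0)
      (𝓝 (5 / 6)) := by
    have := ha.add hv
    rwa [show (1 / 2 + 1 / 3 : ℂ) = 5 / 6 by norm_num] at this
  have l3 : Tendsto (fun t : ℝ => sy (t * r) (zt 3 (p + r) t) - vt 3 (p + r) t) (𝓝[>] 0)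
      (𝓝 (1 / 6)) := by
    have := hb.sub hv
    rwa [show (1 / 2 - 1 / 3 : ℂ) = 1 / 6 by norm_num] at this
  have l4 : Tendsto (fun t : ℝ => sy (t * r) (zt 3 (p + r) t) + vt 3 (p + r) t) (𝓝[>] 0)
      (𝓝 (5 / 6)) := by
    have := hb.add hv
    rwa [show (1 / 2 + 1 / 3 : ℂ) = 5 / 6 by norm_num] at this
  have k1 := fe_tendsto l1 (by norm_num) (by norm_num)
  have k2 := fe_tendsto l2 (by norm_num) (by norm_num)
  have k3 := fe_tendsto l3 (by norm_num) (by norm_num)
  have k4 := fe_tendsto l4 (by norm_num) (by norm_num)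
  have hq : ff (5 / 6) = -ff (1 / 6) := by
    rw [← ff_reflect]
    norm_num
  rw [hq] at k2 k4
  have k6 : Tendsto (fun t : ℝ => wr (-(3 / 2)) (vt 3 (p + r) t)) (𝓝[>] 0)
      (𝓝 (Real.pi * I / 3)) := by
    have := (((hv.pow 2).const_mul ((-(3 / 2) : ℝ) : ℂ)).add hv).const_mul (2 * Real.pi * I : ℂ)
    have e : (2 * Real.pi * I : ℂ) * (((-(3 / 2) : ℝ) : ℂ) * (1 / 3) ^ 2 + 1 / 3) =
        Real.pi * I / 3 := by
      push_cast
      ring
    rw [e] at this
    exact this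
  -- the three functions at large arguments
  have u1 := lim_dn (u := fun t : ℝ => sy (t * p) (zt 3 (p + r) t) -
    zz3 (t * p) (t * r) (zt 3 (p + r) t)) (l := 𝓝[>] 0) (by
      have m := hE.mul ((Complex.continuous_exp.tendsto _).comp
        ((ha.const_mul (2 * Real.pi * I)).neg))
      rw [zero_mul] at m
      refine m.congr fun t => ?_
      change exp _ * exp _ = _
      rw [← exp_add]
      congr 1
      ring)
  have u2 := lim_up (u := fun t : ℝ => zz3 (t * p) (t * r) (zt 3 (p + r) t) + 1 / 2)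
    (l := 𝓝[>] 0) (by
      have m := hE.mul_const (exp (Real.pi * I))
      rw [zero_mul] at m
      refine m.congr fun t => ?_
      rw [← exp_add]
      congr 1
      ring)
  have u3 := lim_up (u := fun t : ℝ => zz3 (t * p) (t * r) (zt 3 (p + r) t) +
    sy (t * r) (zt 3 (p + r) t)) (l := 𝓝[>] 0) (by
      have m := hE.mul ((Complex.continuous_exp.tendsto _).comp
        (hb.const_mul (2 * Real.pi * I)))
      rw [zero_mul] at m
      refine m.congr fun t => ?_
      change exp _ * exp _ = _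
      rw [← exp_add]
      congr 1
      ring)
  have u4 : Tendsto (fun t : ℝ => ff (sy (t * r) (zt 3 (p + r) t) + 1 / 2)) (𝓝[>] 0)
      (𝓝 0) := by
    refine ff_lim_one.comp (tendsto_nhdsWithin_iff.2 ⟨?_, ?_⟩)
    · have := hb.add_const (1 / 2 : ℂ)
      rwa [show (1 / 2 + 1 / 2 : ℂ) = 1 by norm_num] at this
    · filter_upwards [hN] with t ht
      constructor
      · rw [add_re]
        norm_num
        linarith [ht.sr.sy_re.1]
      · rw [add_re]
        norm_num
        linarith [ht.b0]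
  -- the polynomial part
  have u5 : Tendsto (fun t : ℝ => Real.pi * I * (-(sy (t * p) (zt 3 (p + r) t)) ^ 2 +
      sy (t * p) (zt 3 (p + r) t) - 1 / 12 + 1 / 2 * (sy (t * r) (zt 3 (p + r) t) + 1 / 2) -
        1 / 24 + (sy (t * r) (zt 3 (p + r) t)) ^ 2 / 2 - sy (t * r) (zt 3 (p + r) t) / 2 +
          1 / 12)) (𝓝[>] 0) (𝓝 (7 * Real.pi * I / 12)) := by
    have := ((((((((ha.pow 2).neg.add ha).sub_const (1 / 12)).add
      ((hb.add_const (1 / 2)).const_mul (1 / 2))).sub_const (1 / 24)).add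
        ((hb.pow 2).div_const 2)).sub (hb.div_const 2)).add_const (1 / 12)).const_mul
          (Real.pi * I : ℂ)
    have e : (Real.pi * I : ℂ) * (-(1 / 2) ^ 2 + 1 / 2 - 1 / 12 + 1 / 2 * (1 / 2 + 1 / 2) -
        1 / 24 + (1 / 2) ^ 2 / 2 - 1 / 2 / 2 + 1 / 12) = 7 * Real.pi * I / 12 := by
      ring
    rw [e] at this
    exact this
  have u6 := (((((hz.const_mul (Real.pi * I : ℂ)).add u5).sub u1).sub u2).sub u3).sub u4
  have k8 := ((((k6.sub k1).sub k2).sub k3).sub k4).sub u6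
  rw [show (Real.pi * I / 3 - ff (1 / 6) - -ff (1 / 6) - ff (1 / 6) - -ff (1 / 6) -
    (Real.pi * I * 0 + 7 * Real.pi * I / 12 - 0 - 0 - 0 - 0) : ℂ) = -(Real.pi * I / 4) by
      ring] at k8
  refine k8.congr' ?_
  filter_upwards [hN] with t ht
  obtain ⟨g3, g4⟩ := abs_lt.1 ht.g2
  have e1 : fe (zz3 (t * p) (t * r) (zt 3 (p + r) t) + 1 / 2) =
      ff (zz3 (t * p) (t * r) (zt 3 (p + r) t) + 1 / 2) := by
    apply fe_eq_ff
    · rw [add_re]
      norm_num
      linarith
    · rw [add_re]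
      norm_num
      linarith
  rw [e1]
  unfold F3 pV pB pH qB qH
  push_cast
  ring

/-- **The closed form of a node with three half twists.** -/
theorem O3.value {p r z : ℂ} (h : O3 p r) (hz : 3 * z = Real.pi + I * (p + r)) :
    pV (-(3 / 2)) (z / Real.pi) (sy p z) (sy r z) = pB (-1) (sy p z) (zz3 p r z) +
      pH (-1) (zz3 p r z) (sy r z) - Real.pi * I / 4 := by
  have h1 := const_path (fun t h0 h1 => F3_hasDerivAt h h0 h1) (F3_lim h)
  have e : zt 3 (p + r) 1 = z := by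
    unfold zt
    push_cast
    linear_combination -hz / 3
  unfold F3 vt at h1
  rw [e, ofReal_one, one_mul, one_mul] at h1
  linear_combination h1

end Pool.Agent.S5.G
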